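import Mathlib

/-! Planar lemmas: cross product, faces of hulls, triangles, ear removal, gluing of convex sets. -/

namespace Unf

open Complex Set

/-- planar cross product -/
def cr (a b : ℂ) : ℝ := a.re * b.im - a.im * b.re

lemma cr_add_left (a b c : ℂ) : cr (a + b) c = cr a c + cr b c := by
  simp [cr]; ring
lemma cr_add_right (a b c : ℂ) : cr a (b + c) = cr a b + cr a c := by
  simp [cr]; ring
lemma cr_sub_left (a b c : ℂ) : cr (a - b) c = cr a c - cr b c := by
  simp [cr]; ring
lemma cr_sub_right (a b c : ℂ) : cr a (b - c) = cr a b - cr a c := by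
  simp [cr]; ring
lemma cr_smul_left (r : ℝ) (a b : ℂ) : cr (r • a) b = r * cr a b := by
  simp [cr]; ring
lemma cr_smul_right (r : ℝ) (a b : ℂ) : cr a (r • b) = r * cr a b := by
  simp [cr]; ring
lemma cr_self (a : ℂ) : cr a a = 0 := by
  simp [cr]; ring
lemma cr_zero_left (a : ℂ) : cr 0 a = 0 := by
  simp [cr]
lemma cr_zero_right (a : ℂ) : cr a 0 = 0 := by
  simp [cr]
lemma cr_anti (a b : ℂ) : cr a b = - cr b a := by
  simp [cr]; ring

/-- affine combination inside the second slot -/
lemma cr_comb (d q x y : ℂ) (a b : ℝ) (hab : a + b = 1) :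
    cr d (a • x + b • y - q) = a * cr d (x - q) + b * cr d (y - q) := by
  have : b = 1 - a := by linarith
  subst this
  simp [cr]; ring

lemma cr_continuous (d q : ℂ) : Continuous (fun z => cr d (z - q)) := by
  unfold cr
  fun_prop

/-- a half plane is convex -/
lemma convex_hp (d q : ℂ) (c : ℝ) : Convex ℝ {z : ℂ | c ≤ cr d (z - q)} := by
  intro x hx y hy a b ha hb hab
  simp only [mem_ofPred_eq] at *
  rw [cr_comb d q x y a b hab]
  have : b = 1 - a := by linarith
  subst this
  nlinarith

lemma convex_hp' (d q : ℂ) (c : ℝ) : Convex ℝ {z : ℂ | cr d (z - q) ≤ c} := by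
  intro x hx y hy a b ha hb hab
  simp only [mem_ofPred_eq] at *
  rw [cr_comb d q x y a b hab]
  have : b = 1 - a := by linarith
  subst this
  nlinarith

/-- face lemma -/
lemma face {s : Set ℂ} {d q : ℂ} (h : ∀ x ∈ s, 0 ≤ cr d (x - q)) {z : ℂ}
    (hz : z ∈ convexHull ℝ s) :
    0 ≤ cr d (z - q) ∧ (cr d (z - q) = 0 → z ∈ convexHull ℝ {x ∈ s | cr d (x - q) = 0}) := by
  have key : convexHull ℝ s ⊆ {z | 0 ≤ cr d (z - q) ∧
      (cr d (z - q) = 0 → z ∈ convexHull ℝ {x ∈ s | cr d (x - q) = 0})} := by
    apply convexHull_min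
    · intro x hx
      refine ⟨h x hx, fun h0 => subset_convexHull ℝ _ ⟨hx, h0⟩⟩
    · intro x hx y hy a b ha hb hab
      obtain ⟨hx1, hx2⟩ := hx
      obtain ⟨hy1, hy2⟩ := hy
      have e := cr_comb d q x y a b hab
      refine ⟨by rw [e]; positivity, fun h0 => ?_⟩
      rw [e] at h0
      have h1 : a * cr d (x - q) = 0 := by nlinarith [mul_nonneg ha hx1, mul_nonneg hb hy1]
      have h2 : b * cr d (y - q) = 0 := by nlinarith [mul_nonneg ha hx1, mul_nonneg hb hy1]
      rcases mul_eq_zero.mp h1 with ha0 | hx0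
      · have hb1 : b = 1 := by linarith
        subst ha0; subst hb1
        simp only [zero_smul, one_smul, zero_add]
        apply hy2
        simpa using h2
      · rcases mul_eq_zero.mp h2 with hb0 | hy0
        · have ha1 : a = 1 := by linarith
          subst hb0; subst ha1
          simp only [zero_smul, one_smul, add_zero]
          exact hx2 hx0
        · exact (convex_convexHull ℝ _) (hx2 hx0) (hy2 hy0) ha hb hab
  exact key hz

/-- triangle from barycentric sign conditions -/
lemma mem_tri {a b c z : ℂ} (hD : 0 < cr (b - a) (c - a)) (h1 : 0 ≤ cr (b - a) (z - a))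
    (h2 : 0 ≤ cr (c - b) (z - b)) (h3 : 0 ≤ cr (a - c) (z - c)) :
    z ∈ convexHull ℝ ({a, b, c} : Set ℂ) := by
  set D := cr (b - a) (c - a) with hDdef
  have e : z = (cr (c - b) (z - b) / D) • a + (cr (a - c) (z - c) / D) • b +
      (cr (b - a) (z - a) / D) • c := by
    have hD0 : D ≠ 0 := hD.ne'
    apply Complex.ext
    · simp only [add_re, real_smul, mul_re, ofReal_re, ofReal_im, zero_mul, sub_zero]
      field_simp
      simp only [hDdef, cr, sub_re, sub_im]
      ring
    · simp only [add_im, real_smul, mul_im, ofReal_re, ofReal_im, zero_mul, add_zero]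
      field_simp
      simp only [hDdef, cr, sub_re, sub_im]
      ring
  have hs : cr (c - b) (z - b) / D + cr (a - c) (z - c) / D + cr (b - a) (z - a) / D = 1 := by
    have hD0 : D ≠ 0 := hD.ne'
    field_simp
    simp only [hDdef, cr, sub_re, sub_im]
    ring
  rw [e]
  have hc := convex_convexHull ℝ ({a, b, c} : Set ℂ)
  have ha' : a ∈ convexHull ℝ ({a, b, c} : Set ℂ) := subset_convexHull ℝ _ (by simp)
  have hb' : b ∈ convexHull ℝ ({a, b, c} : Set ℂ) := subset_convexHull ℝ _ (by simp)
  have hc' : c ∈ convexHull ℝ ({a, b, c} : Set ℂ) := subset_convexHull ℝ _ (by simp)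
  have := hc.sum_mem (t := (Finset.univ : Finset (Fin 3)))
    (w := ![cr (c - b) (z - b) / D, cr (a - c) (z - c) / D, cr (b - a) (z - a) / D])
    (z := ![a, b, c]) (by
      intro i _; fin_cases i <;> simp <;> positivity) (by
      simp [Fin.sum_univ_three]; linarith) (by
      intro i _; fin_cases i <;> simp [ha', hb', hc'])
  simpa [Fin.sum_univ_three] using this

/-- interior of a triangle -/
lemma mem_int_tri {a b c z : ℂ} (hD : 0 < cr (b - a) (c - a)) (h1 : 0 < cr (b - a) (z - a))
    (h2 : 0 < cr (c - b) (z - b)) (h3 : 0 < cr (a - c) (z - c)) :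
    z ∈ interior (convexHull ℝ ({a, b, c} : Set ℂ)) := by
  rw [mem_interior]
  refine ⟨{w | 0 < cr (b - a) (w - a)} ∩ {w | 0 < cr (c - b) (w - b)} ∩
    {w | 0 < cr (a - c) (w - c)}, ?_, ?_, ⟨⟨h1, h2⟩, h3⟩⟩
  · rintro w ⟨⟨k1, k2⟩, k3⟩
    exact mem_tri hD (le_of_lt k1) (le_of_lt k2) (le_of_lt k3)
  · refine ((isOpen_lt continuous_const (cr_continuous _ _)).inter
      (isOpen_lt continuous_const (cr_continuous _ _))).inter
      (isOpen_lt continuous_const (cr_continuous _ _))

lemma tri_int_nonempty {a b c : ℂ} (hD : 0 < cr (b - a) (c - a)) :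
    (interior (convexHull ℝ ({a, b, c} : Set ℂ))).Nonempty := by
  refine ⟨(1/3 : ℝ) • (a + b + c), mem_int_tri hD ?_ ?_ ?_⟩ <;>
  · simp only [cr, sub_re, sub_im, real_smul, mul_re, mul_im, ofReal_re, ofReal_im, add_re, add_im]
      at hD ⊢
    nlinarith

/-- ear removal -/
lemma ear {o c c' z : ℂ} {s : Set ℂ} (ho : o ∈ convexHull ℝ s) (hc' : c' ∈ convexHull ℝ s)
    (hD : 0 < cr (c - o) (c' - o))
    (h1 : ∀ y ∈ s, 0 ≤ cr (c - o) (y - o)) (h2 : ∀ y ∈ s, 0 ≤ cr (c' - c) (y - c))
    (h3 : ∀ y ∈ s, 0 ≤ cr (c' - o) (y - o))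
    (hz : z ∈ convexHull ℝ (insert c s)) :
    z ∈ convexHull ℝ s ∨ z ∈ convexHull ℝ ({o, c, c'} : Set ℂ) := by
  have hne : s.Nonempty := by
    by_contra hh
    rw [Set.not_nonempty_iff_eq_empty] at hh
    subst hh
    simp at ho
  rw [convexHull_insert hne] at hz
  obtain ⟨x, hx, y, hy, hzy⟩ := mem_convexJoin.mp hz
  rw [mem_singleton_iff] at hx
  subst hx
  obtain ⟨a, b, ha, hb, hab, hzz⟩ := hzy
  -- z = a • x + b • y, x the ear
  have g1 := (face h1 hy).1
  have g2 := (face h2 hy).1
  have g3 := (face h3 hy).1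
  set D := cr (x - o) (c' - o) with hDdef
  have hD0 : D ≠ 0 := hD.ne'
  -- coordinates of z
  have z1 : cr (x - o) (z - o) = b * cr (x - o) (y - o) := by
    rw [← hzz, cr_comb _ _ _ _ _ _ hab, cr_self]; ring
  have z2 : cr (c' - x) (z - x) = b * cr (c' - x) (y - x) := by
    rw [← hzz, cr_comb _ _ _ _ _ _ hab, sub_self, cr_zero_right]; ring
  have z3 : cr (c' - o) (z - o) = - a * D + b * cr (c' - o) (y - o) := by
    rw [← hzz, cr_comb _ _ _ _ _ _ hab, cr_anti (c' - o) (x - o)]; ring
  rcases le_or_gt (cr (c' - o) (z - o)) 0 with h | h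
  · right
    apply mem_tri hD
    · rw [z1]; positivity
    · rw [z2]; positivity
    · have : cr (o - c') (z - c') = - cr (c' - o) (z - o) := by
        simp only [cr, sub_re, sub_im]; ring
      rw [this]; linarith
  · left
    -- μ z < 0
    set μ := - cr (c' - o) (y - o) / D with hμ
    have hbpos : 0 < b := by
      rcases hb.lt_or_eq with hb' | hb'
      · exact hb'
      · exfalso
        rw [z3, ← hb'] at h
        nlinarith
    have hyp : 0 < cr (c' - o) (y - o) := by
      by_contra hh
      push Not at hh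
      rw [z3] at h
      nlinarith [mul_nonneg ha hD.le, mul_nonneg hb (neg_nonneg.mpr hh)]
    set G := cr (c' - o) (y - o) with hG
    -- weights
    have hyeq : z = ((- a * D + b * G) / G) • y + (a * cr (c' - x) (y - x) / G) • o +
        (a * cr (x - o) (y - o) / G) • c' := by
      have hG0 : G ≠ 0 := hyp.ne'
      rw [← hzz]
      apply Complex.ext
      · simp only [add_re, real_smul, mul_re, ofReal_re, ofReal_im, zero_mul, sub_zero]
        field_simp
        simp only [hDdef, hG, cr, sub_re, sub_im]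
        ring
      · simp only [add_im, real_smul, mul_im, ofReal_re, ofReal_im, zero_mul, add_zero]
        field_simp
        simp only [hDdef, hG, cr, sub_re, sub_im]
        ring
    have hsum : (- a * D + b * G) / G + a * cr (c' - x) (y - x) / G +
        a * cr (x - o) (y - o) / G = 1 := by
      have hG0 : G ≠ 0 := hyp.ne'
      field_simp
      have hb1 : b = 1 - a := by linarith
      rw [hb1]
      simp only [hDdef, hG, cr, sub_re, sub_im]
      ring
    have hw : 0 < - a * D + b * G := by rw [← z3]; exact h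
    rw [hyeq]
    have hc := convex_convexHull ℝ s
    have := hc.sum_mem (t := (Finset.univ : Finset (Fin 3)))
      (w := ![(- a * D + b * G) / G, a * cr (c' - x) (y - x) / G, a * cr (x - o) (y - o) / G])
      (z := ![y, o, c']) (by
        intro i _; fin_cases i
        · show 0 ≤ (- a * D + b * G) / G
          positivity
        · show 0 ≤ a * cr (c' - x) (y - x) / G
          positivity
        · show 0 ≤ a * cr (x - o) (y - o) / G
          positivity) (by
        simp only [Fin.sum_univ_three]
        simpa using hsum) (by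
        intro i _; fin_cases i <;> simp [ho, hc', hy])
    simpa [Fin.sum_univ_three] using this

/-- a point of the line through `o`, `c` inside both support half planes lies on the segment -/
lemma seg_of_supp {o c E D w : ℂ} (hE : cr E (c - o) < 0) (hD : cr D (o - c) < 0)
    (h0 : cr (c - o) (w - o) = 0) (h1 : cr E (w - o) ≤ 0) (h2 : cr D (w - c) ≤ 0) :
    w ∈ segment ℝ o c := by
  have hco : c ≠ o := by
    rintro rfl
    simp [cr] at hE
  -- w - o = r (c - o)
  obtain ⟨r, hr⟩ : ∃ r : ℝ, w - o = r • (c - o) := by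
    refine ⟨cr E (w - o) / cr E (c - o), ?_⟩
    have h3 : cr E (c - o) ≠ 0 := hE.ne
    apply Complex.ext
    · simp only [real_smul, mul_re, ofReal_re, ofReal_im, zero_mul, sub_zero]
      rw [div_mul_eq_mul_div, eq_div_iff h3]
      simp only [cr, sub_re, sub_im] at h0 ⊢
      linear_combination (-E.re) * h0
    · simp only [real_smul, mul_im, ofReal_re, ofReal_im, zero_mul, add_zero]
      rw [div_mul_eq_mul_div, eq_div_iff h3]
      simp only [cr, sub_re, sub_im] at h0 ⊢
      linear_combination (-E.im) * h0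
  have hr0 : 0 ≤ r := by
    rw [hr, cr_smul_right] at h1
    nlinarith
  have hr1 : r ≤ 1 := by
    have : w - c = (1 - r) • (o - c) := by
      have : w - c = (w - o) - (c - o) := by ring
      rw [this, hr]
      simp only [real_smul, ofReal_sub, ofReal_one]; ring
    rw [this, cr_smul_right] at h2
    nlinarith
  refine ⟨1 - r, r, by linarith, hr0, by ring, ?_⟩
  have : w = o + r • (c - o) := by rw [← hr]; ring
  rw [this]
  simp only [real_smul, ofReal_sub, ofReal_one]; ring

/-- gluing lemma -/
lemma glue {A B : Set ℂ} {o c E D : ℂ} (hA : Convex ℝ A) (hB : Convex ℝ B)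
    (hoA : o ∈ A) (hcA : c ∈ A) (hoB : o ∈ B) (hcB : c ∈ B)
    (hE : cr E (c - o) < 0) (hD : cr D (o - c) < 0)
    (fA : ∀ w ∈ A, cr (c - o) (w - o) ≤ 0) (fB : ∀ w ∈ B, 0 ≤ cr (c - o) (w - o))
    (EA : ∀ w ∈ A, cr E (w - o) ≤ 0) (EB : ∀ w ∈ B, cr E (w - o) ≤ 0)
    (DA : ∀ w ∈ A, cr D (w - c) ≤ 0) (DB : ∀ w ∈ B, cr D (w - c) ≤ 0) :
    Convex ℝ (A ∪ B) := by
  -- main case
  have main : ∀ x ∈ A, ∀ y ∈ B, ∀ a b : ℝ, 0 ≤ a → 0 ≤ b → a + b = 1 →
      a • x + b • y ∈ A ∪ B := by
    intro x hx y hy a b ha hb hab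
    set fx := cr (c - o) (x - o) with hfx
    set fy := cr (c - o) (y - o) with hfy
    have hfx0 : fx ≤ 0 := fA x hx
    have hfy0 : 0 ≤ fy := fB y hy
    rcases eq_or_lt_of_le hfy0 with h | h
    · -- y on the line, hence in A
      have hyseg : y ∈ segment ℝ o c := seg_of_supp hE hD h.symm (EB y hy) (DB y hy)
      have hyA : y ∈ A := hA.segment_subset hoA hcA hyseg
      exact Or.inl (hA hx hyA ha hb hab)
    · set s := fy / (fy - fx) with hs
      have hpos : 0 < fy - fx := by linarith
      have hs0 : 0 ≤ s := by positivity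
      have hs1 : s ≤ 1 := by rw [hs, div_le_one hpos]; linarith
      -- crossing point
      set ζ := s • x + (1 - s) • y with hζ
      have hζf : cr (c - o) (ζ - o) = 0 := by
        rw [hζ, cr_comb _ _ _ _ _ _ (by ring), ← hfx, ← hfy, hs]
        field_simp
        ring
      have hζE : cr E (ζ - o) ≤ 0 := by
        rw [hζ, cr_comb _ _ _ _ _ _ (by ring)]
        nlinarith [EA x hx, EB y hy, mul_nonneg hs0 (neg_nonneg.mpr (EA x hx)),
          mul_nonneg (sub_nonneg.mpr hs1) (neg_nonneg.mpr (EB y hy))]
      have hζD : cr D (ζ - c) ≤ 0 := by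
        rw [hζ, cr_comb _ _ _ _ _ _ (by ring)]
        nlinarith [DA x hx, DB y hy, mul_nonneg hs0 (neg_nonneg.mpr (DA x hx)),
          mul_nonneg (sub_nonneg.mpr hs1) (neg_nonneg.mpr (DB y hy))]
      have hζseg : ζ ∈ segment ℝ o c := seg_of_supp hE hD hζf hζE hζD
      have hζA : ζ ∈ A := hA.segment_subset hoA hcA hζseg
      have hζB : ζ ∈ B := hB.segment_subset hoB hcB hζseg
      rcases le_or_gt a s with h1 | h1
      · -- between y and ζ
        right
        rcases eq_or_lt_of_le hs0 with h0 | h0
        · have ha0 : a = 0 := by linarith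
          have hb1 : b = 1 := by linarith
          subst ha0; subst hb1
          simpa using hy
        · have : a • x + b • y = (a / s) • ζ + (1 - a / s) • y := by
            have hb1 : b = 1 - a := by linarith
            rw [hζ, hb1]
            apply Complex.ext
            · simp only [add_re, real_smul, mul_re, ofReal_re, ofReal_im, zero_mul, sub_zero,
                add_im, mul_im, add_zero]
              field_simp
              ring
            · simp only [add_re, real_smul, mul_re, ofReal_re, ofReal_im, zero_mul, sub_zero,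
                add_im, mul_im, add_zero]
              field_simp
              ring
          rw [this]
          exact hB hζB hy (by positivity) (by rw [sub_nonneg, div_le_one h0]; exact h1) (by ring)
      · left
        have hs1' : s < 1 := by linarith
        have h1s : 0 < 1 - s := by linarith
        have : a • x + b • y = (1 - b / (1 - s)) • x + (b / (1 - s)) • ζ := by
          have hb1 : a = 1 - b := by linarith
          rw [hζ, hb1]
          apply Complex.ext
          · simp only [add_re, real_smul, mul_re, ofReal_re, ofReal_im, zero_mul, sub_zero,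
              add_im, mul_im, add_zero]
            field_simp
            ring
          · simp only [add_re, real_smul, mul_re, ofReal_re, ofReal_im, zero_mul, sub_zero,
              add_im, mul_im, add_zero]
            field_simp
            ring
        rw [this]
        exact hA hx hζA (by rw [sub_nonneg, div_le_one h1s]; linarith) (by positivity) (by ring)
  intro x hx y hy a b ha hb hab
  rcases hx with hx | hx <;> rcases hy with hy | hy
  · exact Or.inl (hA hx hy ha hb hab)
  · exact main x hx y hy a b ha hb hab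
  · rw [add_comm]
    exact main y hy x hx b a hb ha (by linarith)
  · exact Or.inr (hB hx hy ha hb hab)

/-- wedge lemma at the first endpoint -/
lemma wedge_o {E o c c' w : ℂ} (hE : cr E (c - o) < 0) (h1 : cr E (w - o) ≤ 0)
    (h2 : cr (c - o) (w - o) ≤ 0) (h3 : cr E (c' - o) ≤ 0) (h4 : 0 < cr (c - o) (c' - o)) :
    cr (c' - o) (w - o) ≤ 0 := by
  have id : cr E (c - o) * cr (c' - o) (w - o) =
      cr E (c' - o) * cr (c - o) (w - o) - cr E (w - o) * cr (c - o) (c' - o) := by
    simp only [cr]; ring
  by_contra h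
  push Not at h
  nlinarith [mul_nonneg (neg_nonneg.mpr h3) (neg_nonneg.mpr h2),
    mul_nonneg (neg_nonneg.mpr h1) h4.le, mul_pos (neg_pos.mpr hE) h]

/-- wedge lemma at the second endpoint -/
lemma wedge_c {D o c c' w : ℂ} (hD : cr D (o - c) < 0) (h1 : cr D (w - c) ≤ 0)
    (h2 : cr (c - o) (w - o) ≤ 0) (h3 : cr D (c' - c) ≤ 0) (h4 : 0 < cr (c - o) (c' - o)) :
    cr (c - c') (w - c') ≤ 0 := by
  -- cr (c - c') (w - c') = cr (c - c') (w - c) = - cr (c' - c) (w - c)
  have h2' : 0 ≤ cr (o - c) (w - c) := by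
    have : cr (o - c) (w - c) = - cr (c - o) (w - o) := by
      simp only [cr, sub_re, sub_im]; ring
    rw [this]; linarith
  have h4' : cr (o - c) (c' - c) < 0 := by
    have : cr (o - c) (c' - c) = - cr (c - o) (c' - o) := by
      simp only [cr, sub_re, sub_im]; ring
    rw [this]; linarith
  have e : cr (c - c') (w - c') = - cr (c' - c) (w - c) := by
    simp only [cr, sub_re, sub_im]; ring
  rw [e]
  have id : cr D (o - c) * cr (c' - c) (w - c) =
      cr D (c' - c) * cr (o - c) (w - c) - cr D (w - c) * cr (o - c) (c' - c) := by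
    simp only [cr]; ring
  by_contra h
  push Not at h
  have h' : cr (c' - c) (w - c) < 0 := by linarith
  nlinarith [mul_nonneg (neg_nonneg.mpr h3) h2', mul_nonneg (neg_nonneg.mpr h1) (neg_pos.mpr h4').le,
    mul_pos (neg_pos.mpr hD) (neg_pos.mpr h')]

/-- decomposition in the wedge at `c'` -/
lemma wedge_decomp {o c c' w : ℂ} (h4 : 0 < cr (c - o) (c' - o))
    (h1 : cr (c - c') (w - c') ≤ 0) (h2 : cr (c' - o) (w - o) ≤ 0) :
    ∃ s t : ℝ, 0 ≤ s ∧ 0 ≤ t ∧ w - c' = s • (c - c') + t • (o - c') := by
  have hK : cr (c - c') (o - c') = - cr (c - o) (c' - o) := by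
    simp only [cr, sub_re, sub_im]; ring
  have hK0 : cr (c - o) (c' - o) ≠ 0 := h4.ne'
  refine ⟨- cr (c' - o) (w - o) / cr (c - o) (c' - o),
    - cr (c - c') (w - c') / cr (c - o) (c' - o), by apply div_nonneg <;> linarith,
    by apply div_nonneg <;> linarith, ?_⟩
  apply Complex.ext
  · simp only [add_re, sub_re, real_smul, mul_re, ofReal_re, ofReal_im, zero_mul, sub_zero]
    rw [div_mul_eq_mul_div, div_mul_eq_mul_div, ← add_div, eq_div_iff hK0]
    simp only [cr, sub_re, sub_im]; ring
  · simp only [add_im, sub_im, real_smul, mul_im, ofReal_re, ofReal_im, zero_mul, add_zero]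
    rw [div_mul_eq_mul_div, div_mul_eq_mul_div, ← add_div, eq_div_iff hK0]
    simp only [cr, sub_re, sub_im]; ring

/-- a constant-sign affine functional does not vanish on the interior -/
lemma pos_of_interior {K : Set ℂ} {d q z : ℂ} (hd : d ≠ 0) (h : ∀ x ∈ K, 0 ≤ cr d (x - q))
    (hz : z ∈ interior K) : 0 < cr d (z - q) := by
  have h0 := h z (interior_subset hz)
  rcases h0.lt_or_eq with h1 | h1
  · exact h1
  · exfalso
    rw [mem_interior] at hz
    obtain ⟨u, hu, huo, hzu⟩ := hz
    obtain ⟨ε, hε, hb⟩ := Metric.isOpen_iff.mp huo z hzu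
    -- move in the direction i d negative
    have hdn : 0 < ‖d‖ := norm_pos_iff.mpr hd
    set w := z - (ε / 2 / ‖d‖ : ℝ) • (I * d) with hw
    have hwb : w ∈ Metric.ball z ε := by
      rw [Metric.mem_ball, dist_eq_norm, hw]
      simp only [sub_sub_cancel_left, norm_neg, norm_smul, norm_mul, norm_I, one_mul, norm_div,
        Real.norm_eq_abs, abs_of_pos hε, Nat.abs_ofNat, abs_norm]
      field_simp
      linarith
    have h2 := h w (hu (hb hwb))
    have h3 : cr d (w - q) = cr d (z - q) - ε / 2 / ‖d‖ * (d.re ^ 2 + d.im ^ 2) := by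
      simp only [cr, hw, sub_re, sub_im, real_smul, mul_re, mul_im, ofReal_re, ofReal_im, I_re,
        I_im]
      ring
    rw [h3, ← h1] at h2
    have h4 : 0 < d.re ^ 2 + d.im ^ 2 := by
      by_contra hh
      push Not at hh
      have : d.re = 0 := by nlinarith [sq_nonneg d.re, sq_nonneg d.im]
      have h' : d.im = 0 := by nlinarith [sq_nonneg d.re, sq_nonneg d.im]
      exact hd (Complex.ext this h')
    have h5 : 0 < ε / 2 / ‖d‖ * (d.re ^ 2 + d.im ^ 2) := by positivity
    linarith

end Unf
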