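import Pool.Agent.Lib.Unf.Ext

/-! The unfoldings are convex polygons; counting of congruence classes. -/

namespace Unf

open Complex Set Topology Filter

open Classical in
/-- a finite set containing the vertices of the development -/
noncomputable def FV (N : ℕ) (b : ℕ → Bool) : Finset ℂ :=
  ((((Finset.range (N + 1)).filter (fun j => j ∈ KI N b false)).image (vv N)) ∪
    (((Finset.range (N + 1)).filter (fun j => j ∈ KI N b true)).image (fun j => rCA N (vv N j)))) ∪
    ((Finset.Ico 1 N).image (fun j => gg N b j (vv N (oo b j))) ∪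
      ((Finset.Ico 1 N).image (fun j => gg N b j (vv N j)) ∪
        (Finset.Ico 1 N).image (fun j => gg N b j (vv N (j + 1)))))

open Classical in
lemma FV_card (N : ℕ) (b : ℕ → Bool) : (FV N b).card ≤ 5 * N + 2 := by
  unfold FV
  have h1 : ((((Finset.range (N + 1)).filter (fun j => j ∈ KI N b false)).image (vv N))).card ≤
      N + 1 := Finset.card_image_le.trans ((Finset.card_filter_le _ _).trans (by simp))
  have h2 : (((Finset.range (N + 1)).filter (fun j => j ∈ KI N b true)).image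
      (fun j => rCA N (vv N j))).card ≤ N + 1 :=
    Finset.card_image_le.trans ((Finset.card_filter_le _ _).trans (by simp))
  have h3 : ∀ f : ℕ → ℂ, ((Finset.Ico 1 N).image f).card ≤ N := fun f =>
    Finset.card_image_le.trans (by simp)
  refine (Finset.card_union_le _ _).trans ?_
  refine (add_le_add ((Finset.card_union_le _ _).trans (add_le_add h1 h2))
    ((Finset.card_union_le _ _).trans (add_le_add (h3 _)
      ((Finset.card_union_le _ _).trans (add_le_add (h3 _) (h3 _)))))).trans ?_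
  omega

lemma FV_mem (N : ℕ) (b : ℕ → Bool) (w : ℂ) : w ∈ FV N b ↔
    (∃ j ∈ KI N b false, vv N j = w) ∨ (∃ j ∈ KI N b true, rCA N (vv N j) = w) ∨
    (∃ j, 1 ≤ j ∧ j < N ∧ (gg N b j (vv N (oo b j)) = w ∨ gg N b j (vv N j) = w ∨
      gg N b j (vv N (j + 1)) = w)) := by
  classical
  simp only [FV, Finset.mem_union, Finset.mem_image, Finset.mem_filter, Finset.mem_range,
    Finset.mem_Ico]
  constructor
  · rintro ((⟨j, ⟨h1, h2⟩, h3⟩ | ⟨j, ⟨h1, h2⟩, h3⟩) | (⟨j, ⟨h1, h2⟩, h3⟩ | ⟨j, ⟨h1, h2⟩, h3⟩ |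
      ⟨j, ⟨h1, h2⟩, h3⟩))
    · exact Or.inl ⟨j, h2, h3⟩
    · exact Or.inr (Or.inl ⟨j, h2, h3⟩)
    · exact Or.inr (Or.inr ⟨j, h1, h2, Or.inl h3⟩)
    · exact Or.inr (Or.inr ⟨j, h1, h2, Or.inr (Or.inl h3)⟩)
    · exact Or.inr (Or.inr ⟨j, h1, h2, Or.inr (Or.inr h3)⟩)
  · rintro (⟨j, h2, h3⟩ | ⟨j, h2, h3⟩ | ⟨j, h1, h2, h3 | h3 | h3⟩)
    · exact Or.inl (Or.inl ⟨j, ⟨by have := h2.1; omega, h2⟩, h3⟩)
    · exact Or.inl (Or.inr ⟨j, ⟨by have := h2.1; omega, h2⟩, h3⟩)
    · exact Or.inr (Or.inl ⟨j, ⟨h1, h2⟩, h3⟩)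
    · exact Or.inr (Or.inr (Or.inl ⟨j, ⟨h1, h2⟩, h3⟩))
    · exact Or.inr (Or.inr (Or.inr ⟨j, ⟨h1, h2⟩, h3⟩))

lemma FV_sub (N : ℕ) (b : ℕ → Bool) : (FV N b : Set ℂ) ⊆ WW N b N := by
  intro w hw
  rcases (FV_mem N b w).mp hw with ⟨j, hj, rfl⟩ | ⟨j, hj, rfl⟩ | ⟨j, h1, h2, h3⟩
  · exact Or.inl (subset_convexHull ℝ _ ⟨j, hj, rfl⟩)
  · exact Or.inr (Or.inl ⟨_, subset_convexHull ℝ _ ⟨j, hj, rfl⟩, rfl⟩)
  · refine Or.inr (Or.inr ⟨j, h1, h2, ?_⟩)
    rcases h3 with rfl | rfl | rfl
    · exact ⟨_, subset_convexHull ℝ _ (by simp), rfl⟩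
    · exact ⟨_, subset_convexHull ℝ _ (by simp), rfl⟩
    · exact ⟨_, subset_convexHull ℝ _ (by simp), rfl⟩

theorem WW_hull (N : ℕ) (b : ℕ → Bool) (hN : 2 ≤ N) (hb0 : b 0 = true) (hb1 : b 1 = false) :
    WW N b N = convexHull ℝ (FV N b : Set ℂ) := by
  apply Subset.antisymm
  · rintro w (h | ⟨z, hz, rfl⟩ | ⟨j, h1, h2, z, hz, rfl⟩)
    · refine convexHull_mono ?_ h
      rintro _ ⟨j, hj, rfl⟩
      exact (FV_mem N b _).mpr (Or.inl ⟨j, hj, rfl⟩)
    · have : rCA N z ∈ convexHull ℝ (rCA N '' (vv N '' KI N b true)) := by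
        rw [← iso_hull]; exact mem_image_of_mem _ hz
      refine convexHull_mono ?_ this
      rintro _ ⟨_, ⟨j, hj, rfl⟩, rfl⟩
      exact (FV_mem N b _).mpr (Or.inr (Or.inl ⟨j, hj, rfl⟩))
    · have : gg N b j z ∈ convexHull ℝ (gg N b j '' {vv N (oo b j), vv N j, vv N (j + 1)}) := by
        rw [← iso_hull]; exact mem_image_of_mem _ hz
      refine convexHull_mono ?_ this
      rintro _ ⟨x, hx, rfl⟩
      refine (FV_mem N b _).mpr (Or.inr (Or.inr ⟨j, h1, h2, ?_⟩))
      rcases hx with rfl | rfl | rfl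
      · exact Or.inl rfl
      · exact Or.inr (Or.inl rfl)
      · exact Or.inr (Or.inr rfl)
  · exact convexHull_min (FV_sub N b) (WW_convex N b hN hb0 hb1 N (by omega) le_rfl)

theorem WW_polygon (N : ℕ) (b : ℕ → Bool) (hN : 2 ≤ N) (hb0 : b 0 = true) (hb1 : b 1 = false) :
    IsConvexPolygon (WW N b N) := by
  refine ⟨⟨FV N b, WW_hull N b hN hb0 hb1⟩, ?_⟩
  have h1 := ori N 0 1 N hN (by omega) (by omega) le_rfl
  refine (tri_int_nonempty h1).mono (interior_mono ?_)
  intro w hw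
  left
  refine convexHull_mono ?_ hw
  rintro x (rfl | rfl | rfl)
  · exact ⟨0, ⟨by omega, Or.inl rfl⟩, rfl⟩
  · exact ⟨1, ⟨by omega, Or.inr (Or.inr hb1)⟩, rfl⟩
  · exact ⟨N, ⟨le_rfl, Or.inr (Or.inl rfl)⟩, rfl⟩

/-- an isometry of the plane fixing three points in general position is the identity -/
lemma three_fix (h : ℂ ≃ᵢ ℂ) {a b c : ℂ} (hD : 0 < cr (b - a) (c - a)) (ha : h a = a)
    (hb : h b = b) (hc : h c = c) (z : ℂ) : h z = z := by
  have sq : ∀ p : ℂ, h p = p → ((h z).re - p.re) ^ 2 + ((h z).im - p.im) ^ 2 =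
      (z.re - p.re) ^ 2 + (z.im - p.im) ^ 2 := by
    intro p hp
    have h1 : dist (h z) (h p) = dist z p := h.dist_eq z p
    rw [hp] at h1
    rw [dist_eq_norm, dist_eq_norm] at h1
    have h2 : ‖h z - p‖ ^ 2 = ‖z - p‖ ^ 2 := by rw [h1]
    rw [← Complex.normSq_eq_norm_sq, ← Complex.normSq_eq_norm_sq, Complex.normSq_apply,
      Complex.normSq_apply] at h2
    simp only [sub_re, sub_im] at h2
    nlinarith
  have e1 := sq a ha
  have e2 := sq b hb
  have e3 := sq c hc
  set x := (h z).re - z.re with hx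
  set y := (h z).im - z.im with hy
  have l1 : x * (b.re - a.re) + y * (b.im - a.im) = 0 := by
    rw [hx, hy]; nlinarith
  have l2 : x * (c.re - a.re) + y * (c.im - a.im) = 0 := by
    rw [hx, hy]; nlinarith
  have hD' : 0 < (b.re - a.re) * (c.im - a.im) - (b.im - a.im) * (c.re - a.re) := by
    simpa [cr] using hD
  have x0 : x * ((b.re - a.re) * (c.im - a.im) - (b.im - a.im) * (c.re - a.re)) = 0 := by
    linear_combination (c.im - a.im) * l1 - (b.im - a.im) * l2
  have y0 : y * ((b.re - a.re) * (c.im - a.im) - (b.im - a.im) * (c.re - a.re)) = 0 := by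
    linear_combination -(c.re - a.re) * l1 + (b.re - a.re) * l2
  have hx0 : x = 0 := by
    rcases mul_eq_zero.mp x0 with h | h
    · exact h
    · linarith
  have hy0 : y = 0 := by
    rcases mul_eq_zero.mp y0 with h | h
    · exact h
    · linarith
  apply Complex.ext <;> linarith

/-- the coding of subsets -/
def bS (S : Finset ℕ) (i : ℕ) : Bool := decide (i = 0 ∨ i ∈ S)

lemma bS_zero (S : Finset ℕ) : bS S 0 = true := by simp [bS]

lemma bS_false (S : Finset ℕ) (i : ℕ) (hi : 1 ≤ i) (h : i ∉ S) : bS S i = false := by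
  simp [bS, h]; omega

lemma bS_true (S : Finset ℕ) (i : ℕ) (h : i ∈ S) : bS S i = true := by
  simp [bS, h]

/-- the family of subsets -/
def Fam (N : ℕ) : Finset (Finset ℕ) := (Finset.Ico 5 N).powerset.erase ∅

lemma Fam_card (N : ℕ) : (Fam N).card = 2 ^ (N - 5) - 1 := by
  rw [Fam, Finset.card_erase_of_mem (by simp), Finset.card_powerset, Nat.card_Ico]

lemma Fam_mem {N : ℕ} {S : Finset ℕ} (h : S ∈ Fam N) :
    S ≠ ∅ ∧ ∀ i ∈ S, 5 ≤ i ∧ i < N := by
  rw [Fam, Finset.mem_erase, Finset.mem_powerset] at h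
  refine ⟨h.1, fun i hi => ?_⟩
  have := h.2 hi
  rwa [Finset.mem_Ico] at this

/-- the unfolding attached to a subset -/
def US (N : ℕ) (S : Finset ℕ) : Set ℂ := WW N (bS S) N

lemma US_inj (N : ℕ) (hN : 5 ≤ N) {S S' : Finset ℕ} (hS : S ∈ Fam N) (hS' : S' ∈ Fam N)
    (h : US N S = US N S') : S = S' := by
  have key : ∀ S S' : Finset ℕ, S ∈ Fam N → S' ∈ Fam N → US N S = US N S' → S ⊆ S' := by
    intro S S' hS hS' h i hi
    obtain ⟨h5, hiN⟩ := (Fam_mem hS).2 i hi
    by_contra hni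
    have n1 : vv N i ∉ US N S := front_not_mem N (bS S) (by omega) (bS_zero S)
      (bS_false S 1 le_rfl (fun hh => by have := (Fam_mem hS).2 1 hh; omega)) i (by omega) hiN
      (bS_true S i hi)
    apply n1
    rw [h]
    exact Or.inl (vv_mem_HV N (V := KI N (bS S') false)
      ⟨by omega, Or.inr (Or.inr (bS_false S' i (by omega) hni))⟩)
  exact Finset.Subset.antisymm (key S S' hS hS' h) (key S' S hS' hS h.symm)

lemma Congruent.refl' (U : Set ℂ) : Congruent U U :=
  ⟨IsometryEquiv.refl ℂ, by rw [show (⇑(IsometryEquiv.refl ℂ) : ℂ → ℂ) = id from rfl, image_id]⟩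

lemma Congruent.symm' {U V : Set ℂ} (h : Congruent U V) : Congruent V U := by
  obtain ⟨g, rfl⟩ := h
  refine ⟨g.symm, ?_⟩
  rw [← image_comp]
  have : (g.symm : ℂ → ℂ) ∘ g = id := by ext x; simp
  rw [this, image_id]

lemma Congruent.trans' {U V W : Set ℂ} (h : Congruent U V) (h' : Congruent V W) :
    Congruent U W := by
  obtain ⟨g, rfl⟩ := h
  obtain ⟨g', rfl⟩ := h'
  refine ⟨g.trans g', ?_⟩
  rw [← image_comp]
  rfl

/-- congruence setoid -/
def congSetoid : Setoid (Set ℂ) :=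
  ⟨Congruent, ⟨Congruent.refl', Congruent.symm', Congruent.trans'⟩⟩

/-- few unfoldings of the family are congruent to a given one -/
lemma class_card (N : ℕ) (hN : 5 ≤ N) (S0 : Finset ℕ) (hS0 : S0 ∈ Fam N) (A : Finset (Finset ℕ))
    (hA : ∀ S ∈ A, S ∈ Fam N ∧ Congruent (US N S) (US N S0)) : A.card ≤ (5 * N + 2) ^ 3 := by
  classical
  have hb1 : ∀ S ∈ Fam N, ∀ i, 1 ≤ i → i ≤ 4 → bS S i = false := fun S hS i hi hi4 =>
    bS_false S i hi (fun hh => by have := (Fam_mem hS).2 i hh; omega)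
  choose! g hg using fun S (hS : S ∈ A) => (hA S hS).2
  -- the extreme points of US N S0 are in FV
  have hext : ∀ w ∈ (US N S0).extremePoints ℝ, w ∈ FV N (bS S0) := by
    intro w hw
    have : US N S0 = convexHull ℝ (FV N (bS S0) : Set ℂ) :=
      WW_hull N (bS S0) (by omega) (bS_zero _) (hb1 S0 hS0 1 le_rfl (by omega))
    rw [this] at hw
    exact extremePoints_convexHull_subset hw
  have hgext : ∀ S ∈ A, ∀ i, 2 ≤ i → i ≤ 4 → g S (vv N i) ∈ FV N (bS S0) := by
    intro S hS i hi hi4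
    apply hext
    have hSF := (hA S hS).1
    have h1 : vv N i ∈ (US N S).extremePoints ℝ := extreme_back N (bS S) (by omega) (bS_zero S)
      (hb1 S hSF 1 le_rfl (by omega)) i hi (by omega) (hb1 S hSF i (by omega) hi4)
    have h2 := iso_extreme (g S) h1
    rwa [hg S hS] at h2
  -- the map to triples
  have hinj : ∀ S ∈ A, ∀ S' ∈ A, (g S (vv N 2), g S (vv N 3), g S (vv N 4)) =
      (g S' (vv N 2), g S' (vv N 3), g S' (vv N 4)) → S = S' := by
    intro S hS S' hS' he
    simp only [Prod.mk.injEq] at he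
    obtain ⟨e2, e3, e4⟩ := he
    have hid : ∀ z, ((g S).trans (g S').symm) z = z := by
      intro z
      apply three_fix _ (ori N 2 3 4 (by omega) (by omega) (by omega) (by omega))
      · show (g S').symm (g S (vv N 2)) = _
        rw [e2]; simp
      · show (g S').symm (g S (vv N 3)) = _
        rw [e3]; simp
      · show (g S').symm (g S (vv N 4)) = _
        rw [e4]; simp
    have hgg : ∀ z, g S z = g S' z := by
      intro z
      have := hid z
      have h2 : (g S').symm (g S z) = z := this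
      have h3 := congrArg (g S') h2
      simpa using h3
    apply US_inj N hN (hA S hS).1 (hA S' hS').1
    have h1 := hg S hS
    have h2 := hg S' hS'
    have h3 : (g S : ℂ → ℂ) = g S' := funext hgg
    rw [h3, ← h2] at h1
    exact (g S').injective.image_injective h1
  have hcard : A.card ≤ ((FV N (bS S0)) ×ˢ (FV N (bS S0)) ×ˢ (FV N (bS S0))).card := by
    apply Finset.card_le_card_of_injOn (fun S => (g S (vv N 2), g S (vv N 3), g S (vv N 4)))
    · intro S hS
      simp only [Finset.coe_product, Set.mem_prod, Finset.mem_coe]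
      exact ⟨hgext S hS 2 (by omega) (by omega), hgext S hS 3 (by omega) (by omega),
        hgext S hS 4 (by omega) (by omega)⟩
    · intro S hS S' hS' he
      exact hinj S hS S' hS' he
  refine hcard.trans ?_
  rw [Finset.card_product, Finset.card_product]
  have h1 := FV_card N (bS S0)
  calc _ ≤ (5 * N + 2) * ((5 * N + 2) * (5 * N + 2)) :=
        Nat.mul_le_mul h1 (Nat.mul_le_mul h1 h1)
    _ = (5 * N + 2) ^ 3 := by ring

/-- many pairwise incongruent unfoldings -/
theorem many (N : ℕ) (hN : 5 ≤ N) : ∃ (k : ℕ) (f : Fin k → Finset ℕ),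
    2 ^ (N - 5) - 1 ≤ (5 * N + 2) ^ 3 * k ∧ (∀ i, f i ∈ Fam N) ∧
    ∀ i j, i ≠ j → ¬ Congruent (US N (f i)) (US N (f j)) := by
  classical
  let q : Finset ℕ → Quotient congSetoid := fun S => Quotient.mk congSetoid (US N S)
  have hq : ∀ S S', q S = q S' ↔ Congruent (US N S) (US N S') := by
    intro S S'
    exact Quotient.eq (r := congSetoid)
  have hcard : (Fam N).card ≤ (5 * N + 2) ^ 3 * ((Fam N).image q).card := by
    apply Finset.card_le_mul_card_image
    intro c hc
    obtain ⟨S0, hS0, rfl⟩ := Finset.mem_image.mp hc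
    apply class_card N hN S0 hS0
    intro S hS
    rw [Finset.mem_filter] at hS
    exact ⟨hS.1, (hq S S0).mp hS.2⟩
  rw [Fam_card] at hcard
  -- representatives
  have hrep : ∀ c : {c // c ∈ (Fam N).image q}, ∃ S ∈ Fam N, q S = c.1 := fun c =>
    Finset.mem_image.mp c.2
  choose r hr1 hr2 using hrep
  let e := ((Fam N).image q).equivFin
  refine ⟨((Fam N).image q).card, fun i => r (e.symm i), hcard, fun i => hr1 _, ?_⟩
  intro i j hij hc
  apply hij
  have h1 := (hq _ _).mpr hc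
  rw [hr2, hr2] at h1
  exact e.symm.injective (Subtype.ext h1)

end Unf
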