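import Pool.Agent.Lib.Unf.Refl

/-! The strip recursion: adding triangles one at a time keeps the developed set convex. -/

namespace Unf

open Complex Set

/-- point of the parabola -/
def pp (t : ℝ) : ℂ := ⟨t ^ 2, t⟩

@[simp] lemma pp_re (t : ℝ) : (pp t).re = t ^ 2 := rfl
@[simp] lemma pp_im (t : ℝ) : (pp t).im = t := rfl

lemma cr_pp (a b c : ℝ) : cr (pp b - pp a) (pp c - pp a) = (b - a) * (c - a) * (b - c) := by
  simp only [cr, sub_re, sub_im, pp_re, pp_im]; ring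

/-- tangent direction -/
def DD (t : ℝ) : ℂ := ⟨2 * t, 1⟩

/-- tangent direction reflected in the next edge, up to a negative factor -/
def EE (t : ℝ) : ℂ := ⟨-(162 * t ^ 3 + 16 * t), -(207 * t ^ 2 + 64)⟩

lemma cr_DD (t a : ℝ) : cr (DD t) (pp a - pp t) = - (a - t) ^ 2 := by
  simp only [cr, sub_re, sub_im, pp_re, pp_im, DD]; ring

/-- triangle bound -/
lemma tri_le {a b c d q : ℂ} (h1 : cr d (a - q) ≤ 0) (h2 : cr d (b - q) ≤ 0)
    (h3 : cr d (c - q) ≤ 0) : ∀ w ∈ convexHull ℝ ({a, b, c} : Set ℂ), cr d (w - q) ≤ 0 := by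
  have : convexHull ℝ ({a, b, c} : Set ℂ) ⊆ {z | cr d (z - q) ≤ 0} := by
    apply convexHull_min _ (convex_hp' d q 0)
    rintro x (rfl | rfl | rfl)
    · exact h1
    · exact h2
    · exact h3
  exact fun w hw => this hw

lemma tri_ge {a b c d q : ℂ} (h1 : 0 ≤ cr d (a - q)) (h2 : 0 ≤ cr d (b - q))
    (h3 : 0 ≤ cr d (c - q)) : ∀ w ∈ convexHull ℝ ({a, b, c} : Set ℂ), 0 ≤ cr d (w - q) := by
  have : convexHull ℝ ({a, b, c} : Set ℂ) ⊆ {z | 0 ≤ cr d (z - q)} := by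
    apply convexHull_min _ (convex_hp d q 0)
    rintro x (rfl | rfl | rfl)
    · exact h1
    · exact h2
    · exact h3
  exact fun w hw => this hw

/-- the invariant of the recursion, in the current frame; `a` is the parameter of the far end
point of the exposed edge and `c` that of the near one -/
structure Inv (a c : ℝ) (E : ℂ) (A : Set ℂ) : Prop where
  conv : Convex ℝ A
  ho : pp a ∈ A
  hc : pp c ∈ A
  f : ∀ w ∈ A, cr (pp c - pp a) (w - pp a) ≤ 0
  E : ∀ w ∈ A, cr E (w - pp a) ≤ 0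
  D : ∀ w ∈ A, cr (DD c) (w - pp c) ≤ 0

/-- what is known after adding the triangle -/
lemma Inv.add {a τ : ℝ} {E : ℂ} {A : Set ℂ} (h : Inv a (8 * τ) E A) (hτ : 1 ≤ τ)
    (ha : 64 * τ ≤ a ∨ a ≤ - (8 * τ)) (hE1 : cr E (pp (8 * τ) - pp a) < 0)
    (hE2 : cr E (pp τ - pp a) ≤ 0) :
    Convex ℝ (A ∪ convexHull ℝ {pp a, pp (8 * τ), pp τ}) ∧
    (∀ w ∈ A ∪ convexHull ℝ {pp a, pp (8 * τ), pp τ}, cr (pp τ - pp a) (w - pp a) ≤ 0) ∧
    (∀ w ∈ A ∪ convexHull ℝ {pp a, pp (8 * τ), pp τ}, cr (pp (8 * τ) - pp τ) (w - pp τ) ≤ 0) ∧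
    (∀ w ∈ A ∪ convexHull ℝ {pp a, pp (8 * τ), pp τ}, cr E (w - pp a) ≤ 0) ∧
    (∀ w ∈ A ∪ convexHull ℝ {pp a, pp (8 * τ), pp τ}, cr (DD (8 * τ)) (w - pp (8 * τ)) ≤ 0) := by
  have hor : 0 < cr (pp (8 * τ) - pp a) (pp τ - pp a) := by
    rw [cr_pp]
    rcases ha with h1 | h1
    · have : 0 < (a - 8 * τ) * (a - τ) := by
        apply mul_pos <;> linarith
      nlinarith
    · have : 0 < (8 * τ - a) * (τ - a) := by
        apply mul_pos <;> linarith
      nlinarith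
  have hDo : cr (DD (8 * τ)) (pp a - pp (8 * τ)) < 0 := by
    rw [cr_DD]
    have : a - 8 * τ ≠ 0 := by
      rcases ha with h1 | h1
      · intro h2; linarith
      · intro h2; linarith
    have := sq_pos_of_ne_zero this
    linarith
  have hDc' : cr (DD (8 * τ)) (pp τ - pp (8 * τ)) ≤ 0 := by
    rw [cr_DD]; nlinarith [sq_nonneg (τ - 8 * τ)]
  have z1 : ∀ (d p : ℂ), cr d (p - p) = 0 := fun d p => by rw [sub_self, cr_zero_right]
  have hTE : ∀ w ∈ convexHull ℝ ({pp a, pp (8 * τ), pp τ} : Set ℂ), cr E (w - pp a) ≤ 0 :=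
    tri_le (z1 _ _).le hE1.le hE2
  have hTD : ∀ w ∈ convexHull ℝ ({pp a, pp (8 * τ), pp τ} : Set ℂ),
      cr (DD (8 * τ)) (w - pp (8 * τ)) ≤ 0 := tri_le hDo.le (z1 _ _).le hDc'
  have hTf : ∀ w ∈ convexHull ℝ ({pp a, pp (8 * τ), pp τ} : Set ℂ),
      0 ≤ cr (pp (8 * τ) - pp a) (w - pp a) := tri_ge (z1 _ _).ge (cr_self _).ge hor.le
  refine ⟨?_, ?_, ?_, ?_, ?_⟩
  · exact glue h.conv (convex_convexHull ℝ _) h.ho h.hc (subset_convexHull ℝ _ (by simp))
      (subset_convexHull ℝ _ (by simp)) hE1 hDo h.f hTf h.E hTE h.D hTD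
  · rintro w (hw | hw)
    · exact wedge_o hE1 (h.E w hw) (h.f w hw) hE2 hor
    · refine tri_le (z1 _ _).le ?_ (cr_self _).le w hw
      rw [cr_anti]; linarith
  · rintro w (hw | hw)
    · exact wedge_c hDo (h.D w hw) (h.f w hw) hDc' hor
    · refine tri_le ?_ (cr_self _).le (z1 _ _).le w hw
      have : cr (pp (8 * τ) - pp τ) (pp a - pp τ) = - cr (pp (8 * τ) - pp a) (pp τ - pp a) := by
        rw [cr_pp, cr_pp]; ring
      rw [this]; linarith
  · rintro w (hw | hw)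
    · exact h.E w hw
    · exact hTE w hw
  · rintro w (hw | hw)
    · exact h.D w hw
    · exact hTD w hw

/-- next step, same side -/
lemma Inv.same {a τ : ℝ} {E : ℂ} {A : Set ℂ} (h : Inv a (8 * τ) E A) (hτ : 1 ≤ τ)
    (ha : 64 * τ ≤ a ∨ a ≤ - (8 * τ)) (hE1 : cr E (pp (8 * τ) - pp a) < 0)
    (hE2 : cr E (pp τ - pp a) ≤ 0) :
    Inv a τ E (A ∪ convexHull ℝ {pp a, pp (8 * τ), pp τ}) := by
  obtain ⟨h1, h2, h3, h4, h5⟩ := h.add hτ ha hE1 hE2
  have hor : 0 < cr (pp (8 * τ) - pp a) (pp τ - pp a) := by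
    rw [cr_pp]
    rcases ha with h1 | h1
    · have : 0 < (a - 8 * τ) * (a - τ) := by
        apply mul_pos <;> linarith
      nlinarith
    · have : 0 < (8 * τ - a) * (τ - a) := by
        apply mul_pos <;> linarith
      nlinarith
  refine ⟨h1, Or.inl h.ho, Or.inr (subset_convexHull ℝ _ (by simp)), h2, h4, ?_⟩
  intro w hw
  obtain ⟨s, t, hs, ht, he⟩ := wedge_decomp hor (h3 w hw) (h2 w hw)
  rw [he, cr_add_right, cr_smul_right, cr_smul_right, cr_DD, cr_DD]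
  nlinarith [mul_nonneg hs (sq_nonneg (8 * τ - τ)), mul_nonneg ht (sq_nonneg (a - τ))]

/-- change of base point of the reflection along its line -/
lemma rho_base (p : ℂ) (s r : ℝ) (z : ℂ) : rho (p + r • ((s : ℂ) + I)) s z = rho p s z := by
  rw [rho_apply, rho_apply]
  have h1 := s_sub_I_ne s
  simp only [real_smul, map_sub, map_add, map_mul, conj_ofReal, conj_I]
  field_simp
  ring

lemma pp_edge (a b : ℝ) : pp b = pp a + (b - a) • (((a + b : ℝ) : ℂ) + I) := by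
  apply Complex.ext
  · simp; ring
  · simp

lemma rho_pp_swap (a b : ℝ) (z : ℂ) : rho (pp a) (a + b) z = rho (pp b) (a + b) z := by
  rw [pp_edge a b, rho_base]

lemma rho_pp_fix_left (a b : ℝ) : rho (pp a) (a + b) (pp a) = pp a := by
  have := rho_fix (pp a) (a + b) 0
  simpa using this

lemma rho_pp_fix_right (a b : ℝ) : rho (pp a) (a + b) (pp b) = pp b := by
  rw [rho_pp_swap]
  have := rho_fix (pp b) (a + b) 0
  simpa using this

/-- next step, change of side -/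
lemma Inv.change {a τ : ℝ} {E : ℂ} {A : Set ℂ} (h : Inv a (8 * τ) E A) (hτ : 1 ≤ τ)
    (ha : 64 * τ ≤ a ∨ a ≤ - (8 * τ)) (hE1 : cr E (pp (8 * τ) - pp a) < 0)
    (hE2 : cr E (pp τ - pp a) ≤ 0) :
    Inv (8 * τ) τ (EE (8 * τ)) {x | rho (pp (8 * τ)) (8 * τ + τ) x ∈
      (A ∪ convexHull ℝ {pp a, pp (8 * τ), pp τ})} := by
  obtain ⟨h1, h2, h3, h4, h5⟩ := h.add hτ ha hE1 hE2
  have hor : 0 < cr (pp (8 * τ) - pp a) (pp τ - pp a) := by
    rw [cr_pp]
    rcases ha with h1 | h1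
    · have : 0 < (a - 8 * τ) * (a - τ) := by
        apply mul_pos <;> linarith
      nlinarith
    · have : 0 < (8 * τ - a) * (τ - a) := by
        apply mul_pos <;> linarith
      nlinarith
  refine ⟨?_, ?_, ?_, ?_, ?_, ?_⟩
  · intro x hx y hy p q hp hq hpq
    have := h1 hx hy hp hq hpq
    rwa [← iso_comb _ _ _ _ _ hpq] at this
  · rw [mem_ofPred_eq, rho_pp_fix_left]
    exact Or.inl h.hc
  · rw [mem_ofPred_eq, rho_pp_fix_right]
    exact Or.inr (subset_convexHull ℝ _ (by simp))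
  · intro w hw
    have hw3 := h3 _ hw
    -- side of the line is reversed
    have e1 : pp τ - pp (8 * τ) = (τ - 8 * τ) • (((8 * τ + τ : ℝ) : ℂ) + I) := by
      conv_lhs => rw [pp_edge (8 * τ) τ]
      ring
    have e2 : pp (8 * τ) - pp τ = (8 * τ - τ) • (((8 * τ + τ : ℝ) : ℂ) + I) := by
      have : pp (8 * τ) - pp τ = - (pp τ - pp (8 * τ)) := by ring
      rw [this, e1]
      simp only [real_smul, ofReal_sub]; ring
    have e3 := rho_cr (pp τ) (8 * τ + τ) w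
    rw [← rho_pp_swap] at e3
    rw [e2, cr_smul_left, e3] at hw3
    rw [e1, cr_smul_left]
    have e4 : cr (((8 * τ + τ : ℝ) : ℂ) + I) (w - pp (8 * τ)) =
        cr (((8 * τ + τ : ℝ) : ℂ) + I) (w - pp τ) := by
      simp only [cr, sub_re, sub_im, add_re, add_im, ofReal_re, ofReal_im, I_re, I_im, pp_re,
        pp_im]
      ring
    rw [e4]
    nlinarith
  · intro w hw
    have hw5 := h5 _ hw
    set w0 := rho (pp (8 * τ)) (8 * τ + τ) w with hw0
    have hww : w = rho (pp (8 * τ)) (8 * τ + τ) w0 := by rw [hw0, rho_rho]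
    have r1 := rho_re (pp (8 * τ)) (8 * τ + τ) w0
    have r2 := rho_im (pp (8 * τ)) (8 * τ + τ) w0
    rw [← hww] at r1 r2
    have hpos : 0 < (8 * τ + τ) ^ 2 + 1 := by positivity
    have key : cr (EE (8 * τ)) (w - pp (8 * τ)) * ((8 * τ + τ) ^ 2 + 1) =
        64 * ((8 * τ + τ) ^ 2 + 1) ^ 2 * cr (DD (8 * τ)) (w0 - pp (8 * τ)) := by
      have e : cr (EE (8 * τ)) (w - pp (8 * τ)) * ((8 * τ + τ) ^ 2 + 1) =
        (EE (8 * τ)).re * ((w - pp (8 * τ)).im * ((8 * τ + τ) ^ 2 + 1)) -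
        (EE (8 * τ)).im * ((w - pp (8 * τ)).re * ((8 * τ + τ) ^ 2 + 1)) := by
        simp only [cr]; ring
      rw [e, r1, r2]
      simp only [cr, EE, DD]
      ring
    have : cr (EE (8 * τ)) (w - pp (8 * τ)) * ((8 * τ + τ) ^ 2 + 1) ≤ 0 := by
      rw [key]
      have : 0 ≤ 64 * ((8 * τ + τ) ^ 2 + 1) ^ 2 := by positivity
      nlinarith
    by_contra hh
    push Not at hh
    nlinarith [mul_pos hh hpos]
  · intro w hw
    obtain ⟨s, t, hs, ht, he⟩ := wedge_decomp hor (h3 _ hw) (h2 _ hw)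
    set w0 := rho (pp (8 * τ)) (8 * τ + τ) w with hw0
    have hww : w = rho (pp τ) (8 * τ + τ) w0 := by rw [hw0, ← rho_pp_swap, rho_rho]
    have r1 := rho_re (pp τ) (8 * τ + τ) w0
    have r2 := rho_im (pp τ) (8 * τ + τ) w0
    rw [← hww, he] at r1 r2
    have hpos : 0 < (8 * τ + τ) ^ 2 + 1 := by positivity
    have key : cr (DD τ) (w - pp τ) * ((8 * τ + τ) ^ 2 + 1) =
        s * (- (7 * τ) ^ 2 * ((9 * τ) ^ 2 + 1)) +
        t * ((a - τ) * (-(45 * τ ^ 2 - 1) * (a + τ) - 162 * τ ^ 3 - 16 * τ)) := by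
      have e : cr (DD τ) (w - pp τ) * ((8 * τ + τ) ^ 2 + 1) =
        (DD τ).re * ((w - pp τ).im * ((8 * τ + τ) ^ 2 + 1)) -
        (DD τ).im * ((w - pp τ).re * ((8 * τ + τ) ^ 2 + 1)) := by
        simp only [cr]; ring
      rw [e, r1, r2]
      simp only [DD, add_re, add_im, real_smul, mul_re, mul_im, ofReal_re, ofReal_im, sub_re,
        sub_im, pp_re, pp_im]
      ring
    have h6 : (a - τ) * (-(45 * τ ^ 2 - 1) * (a + τ) - 162 * τ ^ 3 - 16 * τ) ≤ 0 := by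
      have h45 : 0 < 45 * τ ^ 2 - 1 := by nlinarith
      rcases ha with h7 | h7
      · have k1 : 0 ≤ a - τ := by linarith
        have k2 : -(45 * τ ^ 2 - 1) * (a + τ) - 162 * τ ^ 3 - 16 * τ ≤ 0 := by
          have : 0 ≤ (45 * τ ^ 2 - 1) * (a + τ) := by
            apply mul_nonneg h45.le; linarith
          have : 0 ≤ τ ^ 3 := by positivity
          nlinarith
        nlinarith
      · have k1 : a - τ ≤ 0 := by linarith
        have k2 : 0 ≤ -(45 * τ ^ 2 - 1) * (a + τ) - 162 * τ ^ 3 - 16 * τ := by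
          have : (45 * τ ^ 2 - 1) * (7 * τ) ≤ (45 * τ ^ 2 - 1) * (-(a + τ)) := by
            apply mul_le_mul_of_nonneg_left _ h45.le; linarith
          have h3 : τ ≤ τ ^ 3 := by nlinarith [mul_nonneg (sub_nonneg.mpr hτ) (sub_nonneg.mpr hτ), sq_nonneg τ]
          nlinarith
        nlinarith
    have : cr (DD τ) (w - pp τ) * ((8 * τ + τ) ^ 2 + 1) ≤ 0 := by
      rw [key]
      have k3 : s * (- (7 * τ) ^ 2 * ((9 * τ) ^ 2 + 1)) ≤ 0 := by
        have : 0 ≤ s * ((7 * τ) ^ 2 * ((9 * τ) ^ 2 + 1)) := by positivity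
        nlinarith
      have k4 := mul_nonneg ht (neg_nonneg.mpr h6)
      nlinarith
    by_contra hh
    push Not at hh
    nlinarith [mul_pos hh hpos]

end Unf
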