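import Mathlib

/-! Definitions for the statement: doubly covered convex polygons, cut paths, unfoldings. -/

namespace Unf

/-- The surface of the doubly covered polygon `P` is described by pairs `(z, s)` with `z ∈ P` and
`s : Bool` naming one of the two faces. `SamePt P x y` says that the pairs `x` and `y` are the same
point of the surface: they are equal, or they have the same planar point and it lies on the
frontier of `P`, where the two faces are glued. -/
def SamePt (P : Set ℂ) (x y : ℂ × Bool) : Prop :=
  x.1 = y.1 ∧ (x.2 = y.2 ∨ x.1 ∈ frontier P)

/-- Intrinsic distance on the doubly covered polygon `P`: the planar distance for two points of one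
face, and the length of a shortest path through a point of the frontier for points of different
faces. -/
noncomputable def surfDist (P : Set ℂ) (x y : ℂ × Bool) : ℝ :=
  if x.2 = y.2 then dist x.1 y.1
  else sInf ((fun ζ => dist x.1 ζ + dist ζ y.1) '' frontier P)

/-- `U` is an unfolding of the doubly covered polygon `P` cut along the set `Γ`: there is a map `φ`
from the surface to the plane which is isometric near every point off `Γ`, which sends distinct
points of the surface off `Γ` to distinct points of the plane, and `U` is the closure of the image
of the surface minus `Γ`. -/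
def IsUnfolding (P : Set ℂ) (Γ : Set (ℂ × Bool)) (U : Set ℂ) : Prop :=
  ∃ φ : ℂ × Bool → ℂ,
    (∀ x : ℂ × Bool, x.1 ∈ P → x ∉ Γ → ∃ r : ℝ, 0 < r ∧ ∀ y z : ℂ × Bool, y.1 ∈ P → z.1 ∈ P →
      surfDist P x y < r → surfDist P x z < r → dist (φ y) (φ z) = surfDist P y z) ∧
    (∀ x y : ℂ × Bool, x.1 ∈ P → y.1 ∈ P → x ∉ Γ → y ∉ Γ → φ x = φ y → SamePt P x y) ∧
    U = closure (φ '' {x | x.1 ∈ P ∧ x ∉ Γ})

/-- A convex polygon in the plane: the convex hull of a finite set, with nonempty interior. -/
def IsConvexPolygon (U : Set ℂ) : Prop :=
  (∃ F : Finset ℂ, U = convexHull ℝ (F : Set ℂ)) ∧ (interior U).Nonempty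

/-- Congruence of plane sets. -/
def Congruent (U V : Set ℂ) : Prop := ∃ h : ℂ ≃ᵢ ℂ, h '' U = V

/-- The points `v 0, ..., v (n-1)` are the vertices of a convex `n`-gon: they are distinct extreme
points of their convex hull, which has nonempty interior. -/
def IsConvexNGon {n : ℕ} (v : Fin n → ℂ) : Prop :=
  Function.Injective v ∧ (∀ i, v i ∈ (convexHull ℝ (Set.range v)).extremePoints ℝ) ∧
    (interior (convexHull ℝ (Set.range v))).Nonempty

/-- A cut path of the doubly covered convex polygon with vertices `v i`, whose arcs are straight
segments: a list visiting every vertex exactly once, together with the face carrying the arc that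
leaves each vertex of the list (the value at the last vertex is not used). The arcs run along
segments of that face, and two different arcs meet on the surface at most in a common end point,
which is a vertex. -/
structure CutPath {n : ℕ} (v : Fin n → ℂ) where
  verts : List (Fin n)
  side : Fin n → Bool
  nodup : verts.Nodup
  complete : ∀ i, i ∈ verts
  simple : ∀ a c a' c' : Fin n, [a, c] <:+: verts → [a', c'] <:+: verts → a ≠ a' →
    ∀ z ∈ segment ℝ (v a) (v c), ∀ w ∈ segment ℝ (v a') (v c'),
      SamePt (convexHull ℝ (Set.range v)) (z, side a) (w, side a') →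
        (c = a' ∧ z = v c) ∨ (a = c' ∧ z = v a)

/-- The points of the surface on the arcs of the cut path. -/
def CutPath.cutSet {n : ℕ} {v : Fin n → ℂ} (p : CutPath v) : Set (ℂ × Bool) :=
  {x | ∃ a c : Fin n, [a, c] <:+: p.verts ∧ ∃ z ∈ segment ℝ (v a) (v c),
    SamePt (convexHull ℝ (Set.range v)) x (z, p.side a)}

/-- The combinatorial cut tree of a cut path: the graph on the vertices of the polygon in which two
vertices are adjacent when they are joined by an arc. -/
def CutPath.tree {n : ℕ} {v : Fin n → ℂ} (p : CutPath v) : SimpleGraph (Fin n) :=
  SimpleGraph.fromRel (fun a c => [a, c] <:+: p.verts)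

end Unf
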