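import Pool.Agent.Lib.Unf.Inj

/-! Position of the strip, extreme points of the development, decoding of the subset. -/

namespace Unf

open Complex Set Topology Filter

lemma tt_inj (N : ℕ) (hN : 2 ≤ N) (i j : ℕ) (h : tt N i = tt N j) : i = j := by
  have key : ∀ i j, i < j → tt N i ≠ tt N j := by
    intro i j hij he
    rcases Nat.eq_zero_or_pos i with h3 | h3
    · rw [h3, tt_zero] at he
      have := tt_pos N j (by omega)
      have := tt_pos N 1 le_rfl
      linarith
    · have := tt_lt N i j h3 hij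
      have := tt_pos N j (by omega)
      linarith
  rcases lt_trichotomy i j with h1 | h1 | h1
  · exact absurd h (key i j h1)
  · exact h1
  · exact absurd h.symm (key j i h1)

lemma vv_inj (N : ℕ) (hN : 2 ≤ N) (i j : ℕ) (h : vv N i = vv N j) : i = j := by
  apply tt_inj N hN
  have := congrArg Complex.im h
  simpa [vv] using this

/-- tangent functional at vertex `k` -/
lemma cr_DD_vv (N k l : ℕ) : cr (DD (tt N k)) (vv N l - vv N k) = - (tt N l - tt N k) ^ 2 :=
  cr_DD _ _

/-- the tangent functional on a hull of vertices -/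
lemma tangent_hull (N k : ℕ) (hN : 2 ≤ N) {V : Set ℕ} {z : ℂ} (hz : z ∈ HV N V) :
    cr (DD (tt N k)) (z - vv N k) ≤ 0 ∧
      (cr (DD (tt N k)) (z - vv N k) = 0 → z = vv N k ∧ k ∈ V) := by
  have hneg : ∀ w : ℂ, cr (-(DD (tt N k))) (w - vv N k) = - cr (DD (tt N k)) (w - vv N k) := by
    intro w
    simp only [cr, neg_re, neg_im]; ring
  have hf := face (d := -(DD (tt N k))) (q := vv N k) (s := vv N '' V) (by
    rintro _ ⟨j, hj, rfl⟩
    rw [hneg, cr_DD_vv]
    nlinarith [sq_nonneg (tt N j - tt N k)]) hz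
  rw [hneg] at hf
  refine ⟨by linarith [hf.1], fun h0 => ?_⟩
  have h1 := hf.2 (by linarith)
  have h2 : {x ∈ vv N '' V | cr (-(DD (tt N k))) (x - vv N k) = 0} ⊆ vv N '' {j ∈ V | j = k} := by
    rintro _ ⟨⟨j, hj, rfl⟩, h3⟩
    refine ⟨j, ⟨hj, ?_⟩, rfl⟩
    rw [hneg, cr_DD_vv] at h3
    apply tt_inj N hN
    nlinarith [sq_nonneg (tt N j - tt N k)]
  have h3 : z ∈ HV N {j ∈ V | j = k} := convexHull_mono h2 h1
  refine ⟨HV_single N k (fun j hj => hj.2) h3, ?_⟩
  by_contra hk
  have : {j ∈ V | j = k} = ∅ := by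
    ext j
    simp only [mem_ofPred_eq, mem_empty_iff_false, iff_false, not_and]
    rintro hj rfl
    exact hk hj
  rw [HV, this] at h3
  simp at h3

/-- a vertex in the hull of vertices is one of them -/
lemma vertex_in_hull (N k : ℕ) (hN : 2 ≤ N) {V : Set ℕ} (hz : vv N k ∈ HV N V) : k ∈ V :=
  ((tangent_hull N k hN hz).2 (by rw [sub_self, cr_zero_right])).2

/-! position of the strip -/

lemma gg_at (N : ℕ) (b : ℕ → Bool) (i : ℕ) : gg N b (i + 1) (vv N (i + 1)) =
    gg N b i (vv N (i + 1)) := by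
  simp only [gg]
  split_ifs with h
  · rfl
  · show gg N b i (rho (vv N i) (tt N i + tt N (i + 1)) (vv N (i + 1))) = _
    rw [vv, vv, rho_pp_fix_right]

lemma vv_dist (N i j : ℕ) : dist (vv N i) (vv N j) ≤
    |tt N i ^ 2 - tt N j ^ 2| + |tt N i - tt N j| := by
  rw [dist_eq_norm]
  refine (Complex.norm_le_abs_re_add_abs_im _).trans ?_
  simp only [vv, sub_re, sub_im, pp_re, pp_im]
  exact le_rfl

lemma gg_drift (N : ℕ) (b : ℕ → Bool) (i : ℕ) (hi : 2 ≤ i) :
    dist (gg N b i (vv N i)) (gg N b 2 (vv N 2)) ≤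
      (tt N 2 ^ 2 + tt N 2) - (tt N i ^ 2 + tt N i) := by
  induction i, hi using Nat.le_induction with
  | base => simp
  | succ i hi ih =>
    have h1 : dist (gg N b (i + 1) (vv N (i + 1))) (gg N b i (vv N i)) ≤
        (tt N i ^ 2 + tt N i) - (tt N (i + 1) ^ 2 + tt N (i + 1)) := by
      rw [gg_at, (gg N b i).dist_eq]
      refine (vv_dist N (i + 1) i).trans ?_
      have h2 := tt_succ N i (by omega)
      have h3 := tt_pos N (i + 1) (by omega)
      rw [abs_of_nonpos (by rw [h2]; nlinarith), abs_of_nonpos (by rw [h2]; nlinarith)]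
      linarith
    have := dist_triangle (gg N b (i + 1) (vv N (i + 1))) (gg N b i (vv N i)) (gg N b 2 (vv N 2))
    linarith

/-- the strip is to the right of the edge from vertex `0` to vertex `1` -/
lemma strip_right (N : ℕ) (b : ℕ → Bool) (hN : 2 ≤ N) (h01 : b 1 ≠ b 0) (i : ℕ) (hi : 1 ≤ i)
    (hiN : i < N) (z : ℂ) (hz : z ∈ Tri N b i) : tt N 1 ^ 2 ≤ (gg N b i z).re := by
  have hT := T_ge N hN
  have hs : tt N 0 + tt N 1 = 0 := by rw [tt_zero]; ring
  have hre1 : ∀ z, (rho (vv N 0) (tt N 0 + tt N 1) z).re = 2 * tt N 1 ^ 2 - z.re := by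
    intro z
    have := rho_re (vv N 0) (tt N 0 + tt N 1) z
    rw [hs] at this ⊢
    simp only [vv, tt_zero, sub_re, pp_re] at this ⊢
    linarith
  -- reduce to vertices
  have hcr2 : ∀ z : ℂ, z.re = - cr I (z - 0) := fun z => by simp [cr]
  have hw' : gg N b i z ∈ convexHull ℝ (gg N b i '' {vv N (oo b i), vv N i, vv N (i + 1)}) := by
    rw [← iso_hull]; exact mem_image_of_mem _ hz
  suffices hv : ∀ x ∈ gg N b i '' {vv N (oo b i), vv N i, vv N (i + 1)}, tt N 1 ^ 2 ≤ x.re by
    have := hull_le (d := I) (q := 0) (c := - tt N 1 ^ 2) (fun x hx => by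
      have := hcr2 x; linarith [hv x hx]) _ hw'
    have := hcr2 (gg N b i z); linarith
  obtain ⟨ho1, ho2⟩ := oo_spec b h01 i hi
  have ho3 := oo_lt b i hi
  -- re of vertices
  have hvre : ∀ j, 1 ≤ j → (vv N j).re ≤ tt N 1 ^ 2 := by
    intro j hj
    have h1 := tt_le N 1 j le_rfl hj
    have h2 := tt_pos N j hj
    simp only [vv, pp_re]
    nlinarith
  have hv0re : (vv N 0).re = tt N 1 ^ 2 := by simp only [vv, pp_re, tt_zero]; ring
  rcases Nat.lt_or_ge (oo b i) 1 with h | h
  · -- fan from vertex 0 : frame 1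
    have hoo : oo b i = 0 := by omega
    have hg : gg N b i = gg N b 1 := by
      apply gg_const N b 1 i _ hi
      intro j hj1 hj2
      rw [ho2 j (by omega) hj2, ho2 1 (by omega) hi]
    rw [hg, gg_one N b h01, hoo]
    rintro _ ⟨x, hx, rfl⟩
    rw [hre1]
    have hxr : x.re ≤ tt N 1 ^ 2 := by
      rcases hx with rfl | rfl | rfl
      · rw [hv0re]
      · exact hvre i hi
      · exact hvre (i + 1) (by omega)
    linarith
  · rcases Nat.lt_or_ge (oo b i) 2 with h' | h'
    · -- fan from vertex 1 : frame 2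
      have hoo : oo b i = 1 := by omega
      have hi2 : 2 ≤ i := by omega
      have hg : gg N b i = gg N b 2 := by
        apply gg_const N b 2 i _ hi2
        intro j hj1 hj2
        rw [ho2 j (by omega) hj2, ho2 2 (by omega) hi2]
      have hb21 : b 2 ≠ b 1 := by
        rw [ho2 2 (by omega) hi2, ← hoo]
        exact fun hh => ho1 hh.symm
      have hg2 : ∀ x, gg N b 2 x = rho (vv N 0) (tt N 0 + tt N 1)
          (rho (vv N 1) (tt N 1 + tt N 2) x) := by
        intro x
        have : gg N b 2 = (rho (vv N 1) (tt N 1 + tt N 2)).trans (gg N b 1) := by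
          rw [show gg N b 2 = if b 2 = b 1 then gg N b 1 else
            (rho (vv N 1) (tt N 1 + tt N 2)).trans (gg N b 1) from rfl, if_neg hb21]
        rw [this, gg_one N b h01]
        rfl
      rw [hg, hoo]
      rintro _ ⟨x, hx, rfl⟩
      rw [hg2, hre1]
      have hxj : ∃ j, 1 ≤ j ∧ x = vv N j := by
        rcases hx with rfl | rfl | rfl
        · exact ⟨1, le_rfl, rfl⟩
        · exact ⟨i, hi, rfl⟩
        · exact ⟨i + 1, by omega, rfl⟩
      obtain ⟨j, hj, rfl⟩ := hxj
      have r1 := rho_re (vv N 1) (tt N 1 + tt N 2) (vv N j)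
      have h1 := tt_le N 1 j le_rfl hj
      have h2 := tt_pos N j hj
      have h3 := tt_pos N 2 (by omega)
      set s := tt N 1 + tt N 2
      have hs1 : 1 ≤ s ^ 2 := by nlinarith
      have hpos : 0 < s ^ 2 + 1 := by positivity
      have : (rho (vv N 1) s (vv N j) - vv N 1).re * (s ^ 2 + 1) ≤ 0 := by
        rw [r1]
        simp only [vv, sub_re, sub_im, pp_re, pp_im]
        have k1 : tt N j ^ 2 - tt N 1 ^ 2 ≤ 0 := by nlinarith
        have k2 : tt N j - tt N 1 ≤ 0 := by linarith
        have k3 : (s ^ 2 - 1) * (tt N j ^ 2 - tt N 1 ^ 2) ≤ 0 :=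
          mul_nonpos_of_nonneg_of_nonpos (by linarith) k1
        have k4 : 2 * s * (tt N j - tt N 1) ≤ 0 :=
          mul_nonpos_of_nonneg_of_nonpos (by positivity) k2
        linarith
      have h4 : (rho (vv N 1) s (vv N j) - vv N 1).re ≤ 0 := by
        by_contra hh
        push Not at hh
        nlinarith [mul_pos hh hpos]
      rw [sub_re] at h4
      have h5 := hvre 1 le_rfl
      linarith
    · -- small triangles far to the right
      have hi2 : 2 ≤ i := by omega
      have hdr := gg_drift N b i hi2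
      have h2v : (gg N b 2 (vv N 2)).re = 2 * tt N 1 ^ 2 - tt N 2 ^ 2 := by
        rw [gg_at N b 1, gg_one N b h01, hre1]
        simp only [vv, pp_re]
      have h12 : tt N 1 = 8 * tt N 2 := tt_succ N 1 le_rfl
      have h2p : 0 < tt N 2 := tt_pos N 2 (by omega)
      rintro _ ⟨x, hx, rfl⟩
      have hxj : ∃ j, 2 ≤ j ∧ j ≤ i + 1 ∧ x = vv N j := by
        rcases hx with rfl | rfl | rfl
        · exact ⟨_, h', by omega, rfl⟩
        · exact ⟨i, hi2, by omega, rfl⟩
        · exact ⟨i + 1, by omega, le_rfl, rfl⟩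
      obtain ⟨j, hj, hji, rfl⟩ := hxj
      have hd1 : dist (gg N b i (vv N j)) (gg N b i (vv N i)) ≤ tt N 2 ^ 2 + tt N 2 := by
        rw [(gg N b i).dist_eq]
        refine (vv_dist N j i).trans ?_
        have a1 := tt_le N 2 j (by omega) hj
        have a2 := tt_pos N j (by omega)
        have a3 := tt_le N 2 i (by omega) hi2
        have a4 := tt_pos N i (by omega)
        have b1 : |tt N j ^ 2 - tt N i ^ 2| ≤ tt N 2 ^ 2 := by
          rw [abs_le]; constructor <;> nlinarith
        have b2 : |tt N j - tt N i| ≤ tt N 2 := by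
          rw [abs_le]; constructor <;> linarith
        linarith
      have hd2 := dist_triangle (gg N b i (vv N j)) (gg N b i (vv N i)) (gg N b 2 (vv N 2))
      have a4 := tt_pos N i (by omega)
      have hd3 : dist (gg N b i (vv N j)) (gg N b 2 (vv N 2)) ≤ 2 * (tt N 2 ^ 2 + tt N 2) := by
        nlinarith
      rw [dist_eq_norm] at hd3
      have hd4 := (Complex.abs_re_le_norm (gg N b i (vv N j) - gg N b 2 (vv N 2))).trans hd3
      rw [sub_re, h2v, abs_le] at hd4
      have hd5 := hd4.1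
      have : 1 ≤ tt N 2 := tt_ge_one N 2 (by omega) hN
      rw [h12] at hd5 ⊢
      nlinarith

/-- left part of the development -/
lemma left_part (N : ℕ) (b : ℕ → Bool) (hN : 2 ≤ N) (h01 : b 1 ≠ b 0) (w : ℂ)
    (hw : w ∈ WW N b N) (hr : w.re < tt N 1 ^ 2) : w ∈ WW N b 1 := by
  rcases hw with h | h | ⟨j, h1, h2, z, hz, rfl⟩
  · exact Or.inl h
  · exact Or.inr (Or.inl h)
  · have := strip_right N b hN h01 j h1 h2 z hz
    linarith

/-- the tangent functional at an inner back vertex is negative on the base set except there -/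
lemma tangent_base (N : ℕ) (b : ℕ → Bool) (hN : 2 ≤ N) (hb1 : b 1 = false) (k : ℕ) (hk : 2 ≤ k)
    (hkN : k < N) (w : ℂ) (hw : w ∈ WW N b 1) : cr (DD (tt N k)) (w - vv N k) ≤ 0 ∧
      (cr (DD (tt N k)) (w - vv N k) = 0 → w = vv N k) := by
  have hT := T_ge N hN
  have hbd := base_bounds N b hN hb1 w hw
  rcases hw with h | ⟨z, hz, rfl⟩ | ⟨j, h1, h2, _⟩
  · rw [KK_eq] at h
    have := tangent_hull N k hN h
    exact ⟨this.1, fun h0 => (this.2 h0).1⟩
  · have h1 := (ca_side_refl N b hN true z hz).2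
    rw [vv, vv, tt_last N (by omega), tt_zero] at h1
    simp only [cr, sub_re, sub_im, pp_re, pp_im] at h1
    have him : (rCA N z).im ≤ 1 := by
      have : (tt N 1 + 1) * ((tt N 1 - 1) * ((rCA N z).im - 1) + ((rCA N z).re - 1)) ≤ 0 := by
        nlinarith
      have h3 : (tt N 1 - 1) * ((rCA N z).im - 1) + ((rCA N z).re - 1) ≤ 0 := by
        by_contra hh
        push Not at hh
        nlinarith [mul_pos (show (0:ℝ) < tt N 1 + 1 by linarith) hh]
      by_contra hh
      push Not at hh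
      nlinarith [mul_pos (show (0:ℝ) < tt N 1 - 1 by linarith) (sub_pos.mpr hh)]
    have htk : 8 ≤ tt N k := by
      have := tt_lt N k (k + 1) (by omega) (by omega)
      have := tt_ge_one N (k + 1) (by omega) (by omega)
      linarith
    have : cr (DD (tt N k)) (rCA N z - vv N k) < 0 := by
      simp only [cr, DD, vv, sub_re, sub_im, pp_re, pp_im]
      nlinarith [hbd.1]
    exact ⟨this.le, fun h0 => absurd h0 this.ne⟩
  · omega

lemma vv_re_lt (N : ℕ) (k : ℕ) (hk : 2 ≤ k) : (vv N k).re < tt N 1 ^ 2 := by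
  have h1 := tt_lt N 1 k le_rfl (by omega)
  have h2 := tt_pos N k (by omega)
  simp only [vv, pp_re]
  nlinarith

/-- the tangent functional on the whole development -/
lemma tangent_all (N : ℕ) (b : ℕ → Bool) (hN : 2 ≤ N) (hb0 : b 0 = true) (hb1 : b 1 = false)
    (k : ℕ) (hk : 2 ≤ k) (hkN : k < N) (hbk : b k = false) (w : ℂ) (hw : w ∈ WW N b N) :
    cr (DD (tt N k)) (w - vv N k) ≤ 0 ∧ (cr (DD (tt N k)) (w - vv N k) = 0 → w = vv N k) := by
  have h01 : b 1 ≠ b 0 := by rw [hb0, hb1]; simp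
  have hkW : vv N k ∈ WW N b N :=
    Or.inl (vv_mem_HV N (V := KI N b false) ⟨by omega, Or.inr (Or.inr hbk)⟩)
  have hconv := WW_convex N b hN hb0 hb1 N (by omega) le_rfl
  have hre := vv_re_lt N k hk
  -- move a little from the vertex towards w
  obtain ⟨ε, hε0, hε1, hεr⟩ : ∃ ε : ℝ, 0 < ε ∧ ε ≤ 1 ∧
      ((1 - ε) • vv N k + ε • w).re < tt N 1 ^ 2 := by
    have hcont : Continuous (fun ε : ℝ => ((1 - ε) • vv N k + ε • w).re) := by fun_prop
    have h0 : (fun ε : ℝ => ((1 - ε) • vv N k + ε • w).re) 0 < tt N 1 ^ 2 := by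
      simpa using hre
    have := (isOpen_lt hcont continuous_const).mem_nhds h0
    obtain ⟨δ, hδ, hb⟩ := Metric.mem_nhds_iff.mp this
    refine ⟨min (δ / 2) 1, by positivity, min_le_right _ _, ?_⟩
    apply hb
    rw [Metric.mem_ball, Real.dist_eq, sub_zero, abs_of_pos (by positivity)]
    exact lt_of_le_of_lt (min_le_left _ _) (by linarith)
  set u := (1 - ε) • vv N k + ε • w with hu
  have huW : u ∈ WW N b N := hconv hkW hw (by linarith) hε0.le (by ring)
  have hu1 := left_part N b hN h01 u huW hεr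
  have ht := tangent_base N b hN hb1 k hk hkN u hu1
  have hcomb : cr (DD (tt N k)) (u - vv N k) = ε * cr (DD (tt N k)) (w - vv N k) := by
    rw [hu, cr_comb _ _ _ _ _ _ (by ring), sub_self, cr_zero_right]; ring
  rw [hcomb] at ht
  refine ⟨?_, fun h0 => ?_⟩
  · by_contra hh
    push Not at hh
    nlinarith [mul_pos hε0 hh, ht.1]
  · have h1 := ht.2 (by rw [h0, mul_zero])
    -- u = vv, so w = vv
    have h2 : ε • (w - vv N k) = 0 := by
      have : u - vv N k = ε • (w - vv N k) := by
        rw [hu]; simp only [real_smul, ofReal_sub, ofReal_one]; ring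
      rw [← this, h1, sub_self]
    rw [smul_eq_zero] at h2
    rcases h2 with h2 | h2
    · linarith
    · exact sub_eq_zero.mp h2

/-- inner back vertices are extreme points of the unfolding -/
theorem extreme_back (N : ℕ) (b : ℕ → Bool) (hN : 2 ≤ N) (hb0 : b 0 = true) (hb1 : b 1 = false)
    (k : ℕ) (hk : 2 ≤ k) (hkN : k < N) (hbk : b k = false) :
    vv N k ∈ (WW N b N).extremePoints ℝ := by
  have hkW : vv N k ∈ WW N b N :=
    Or.inl (vv_mem_HV N (V := KI N b false) ⟨by omega, Or.inr (Or.inr hbk)⟩)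
  rw [mem_extremePoints]
  refine ⟨hkW, ?_⟩
  rintro x hx y hy ⟨p, q, hp, hq, hpq, he⟩
  have tx := tangent_all N b hN hb0 hb1 k hk hkN hbk x hx
  have ty := tangent_all N b hN hb0 hb1 k hk hkN hbk y hy
  have hc := cr_comb (DD (tt N k)) (vv N k) x y p q hpq
  rw [he, sub_self, cr_zero_right] at hc
  constructor
  · apply tx.2
    nlinarith [mul_nonneg hp.le (neg_nonneg.mpr tx.1), mul_nonneg hq.le (neg_nonneg.mpr ty.1)]
  · apply ty.2
    nlinarith [mul_nonneg hp.le (neg_nonneg.mpr tx.1), mul_nonneg hq.le (neg_nonneg.mpr ty.1)]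

/-- front vertices are not in the unfolding (in the base frame) -/
theorem front_not_mem (N : ℕ) (b : ℕ → Bool) (hN : 2 ≤ N) (hb0 : b 0 = true) (hb1 : b 1 = false)
    (k : ℕ) (hk : 2 ≤ k) (hkN : k < N) (hbk : b k = true) : vv N k ∉ WW N b N := by
  have h01 : b 1 ≠ b 0 := by rw [hb0, hb1]; simp
  intro hW
  have hW1 := left_part N b hN h01 _ hW (vv_re_lt N k hk)
  rcases hW1 with h | ⟨z, hz, he⟩ | ⟨j, h1, h2, _⟩
  · rw [KK_eq] at h
    have := vertex_in_hull N k hN h
    rcases this.2 with h2 | h2 | h2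
    · omega
    · omega
    · rw [hbk] at h2; simp at h2
  · have h1 := (ca_side_refl N b hN true z hz).2
    rw [← he] at h1
    obtain ⟨e1, e2⟩ := edge_sign N N k hN le_rfl (by omega)
    rw [nx_last] at e1 e2
    have : FF N N 0 (vv N k) = 0 := le_antisymm h1 e1
    rcases e2 this with h | h <;> omega
  · omega

end Unf
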