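import Pool.Agent.Lib.Unf.Uniq

/-! Exponentially many convex Hamiltonian unfoldings. -/

namespace Unf

open Complex Set Topology Filter

/-- growth estimate -/
lemma growth : ∀ᶠ N : ℕ in atTop, ∀ k : ℕ, 2 ^ (N - 5) - 1 ≤ (5 * N + 2) ^ 3 * k →
    (2 : ℝ) ^ ((1 / 2 : ℝ) * ((N + 1 : ℕ) : ℝ)) ≤ k := by
  set r : ℝ := (2 : ℝ) ^ (1 / 2 : ℝ) with hr
  have hr2 : r ^ 2 = 2 := by
    rw [hr, ← Real.rpow_natCast, ← Real.rpow_mul (by norm_num)]
    norm_num
  have hr1 : 1 < r := Real.one_lt_rpow (by norm_num) (by norm_num)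
  have hr3 : r ≤ 2 := by nlinarith
  have ht := tendsto_pow_const_div_const_pow_of_one_lt 3 hr1
  have hev := ht.eventually (gt_mem_nhds (show (0 : ℝ) < 1 / 14000 by norm_num))
  filter_upwards [hev, eventually_ge_atTop 5] with N hN hN5 k hk
  have hrN : 0 < r ^ N := by positivity
  rw [div_lt_iff₀ hrN] at hN
  have hN3 : 14000 * (N : ℝ) ^ 3 ≤ r ^ N := by linarith
  have hN1 : (5 : ℝ) ≤ N := by exact_mod_cast hN5
  -- the nat inequality in the reals
  have hk' : (2 : ℝ) ^ (N - 5) - 1 ≤ (5 * N + 2) ^ 3 * k := by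
    have h1 : (((2 ^ (N - 5) - 1 : ℕ)) : ℝ) ≤ (((5 * N + 2) ^ 3 * k : ℕ) : ℝ) := by
      exact_mod_cast hk
    rw [Nat.cast_sub Nat.one_le_two_pow] at h1
    push_cast at h1
    exact h1
  have h32 : (2 : ℝ) ^ (N - 5) * 32 = r ^ N * r ^ N := by
    have h1 : (2 : ℝ) ^ (N - 5) * 32 = 2 ^ N := by
      have : N = N - 5 + 5 := by omega
      conv_rhs => rw [this, pow_add]
      norm_num
    rw [h1, ← hr2, ← pow_mul, ← pow_add]
    congr 1
    ring
  have hgoal : (2 : ℝ) ^ ((1 / 2 : ℝ) * ((N + 1 : ℕ) : ℝ)) = r ^ (N + 1) := by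
    rw [hr, Real.rpow_mul (by norm_num), Real.rpow_natCast]
  rw [hgoal]
  have hA : (0 : ℝ) < (5 * N + 2) ^ 3 := by positivity
  have hA2 : (5 * (N : ℝ) + 2) ^ 3 ≤ 216 * (N : ℝ) ^ 3 := by
    have : (5 * (N : ℝ) + 2) ^ 3 ≤ (6 * (N : ℝ)) ^ 3 := by
      apply pow_le_pow_left₀ (by positivity)
      linarith
    linarith [this, mul_pow 6 (N : ℝ) 3]
  have hmain : (5 * (N : ℝ) + 2) ^ 3 * r ^ (N + 1) + 1 ≤ 2 ^ (N - 5) := by
    have h1 : r ^ (N + 1) ≤ 2 * r ^ N := by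
      rw [pow_succ]; nlinarith
    have h2 : (5 * (N : ℝ) + 2) ^ 3 * r ^ (N + 1) ≤ 432 * (N : ℝ) ^ 3 * r ^ N := by
      calc (5 * (N : ℝ) + 2) ^ 3 * r ^ (N + 1) ≤ (216 * (N : ℝ) ^ 3) * (2 * r ^ N) := by
            apply mul_le_mul hA2 h1 (by positivity) (by positivity)
        _ = 432 * (N : ℝ) ^ 3 * r ^ N := by ring
    have h3 : 1 ≤ (N : ℝ) ^ 3 * r ^ N := by
      have a1 : (1 : ℝ) ≤ (N : ℝ) ^ 3 := one_le_pow₀ (by linarith)
      have a2 : (1 : ℝ) ≤ r ^ N := one_le_pow₀ hr1.le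
      nlinarith
    have h4 : 14000 * (N : ℝ) ^ 3 * r ^ N ≤ r ^ N * r ^ N := by
      apply mul_le_mul_of_nonneg_right hN3 hrN.le
    nlinarith
  have h5 : (5 * (N : ℝ) + 2) ^ 3 * r ^ (N + 1) ≤ (5 * N + 2) ^ 3 * k := by linarith
  exact le_of_mul_le_mul_left h5 hA

/-- the family for one polygon -/
theorem family (N : ℕ) (hN : 5 ≤ N) : IsConvexNGon (vf N) ∧ ∃ F : Finset (CutPath (vf N)),
    2 ^ (N - 5) - 1 ≤ (5 * N + 2) ^ 3 * F.card ∧
    (∀ p ∈ F, (∃ U, IsUnfolding (convexHull ℝ (Set.range (vf N))) p.cutSet U) ∧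
      ∀ U, IsUnfolding (convexHull ℝ (Set.range (vf N))) p.cutSet U → IsConvexPolygon U) ∧
    (∀ p ∈ F, ∀ q ∈ F, p ≠ q → p.tree ≠ q.tree ∧
      ∀ U V, IsUnfolding (convexHull ℝ (Set.range (vf N))) p.cutSet U →
        IsUnfolding (convexHull ℝ (Set.range (vf N))) q.cutSet V → ¬ Congruent U V) := by
  refine ⟨ngon N (by omega), ?_⟩
  obtain ⟨k, f, hk, hf, hinc⟩ := many N hN
  have hb1 : ∀ S ∈ Fam N, bS S 1 = false := fun S hS =>
    bS_false S 1 le_rfl (fun hh => by have := (Fam_mem hS).2 1 hh; omega)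
  have hSne : ∀ S ∈ Fam N, ∃ j, 1 ≤ j ∧ j < N ∧ bS S j = true := by
    intro S hS
    obtain ⟨h1, h2⟩ := Fam_mem hS
    obtain ⟨j, hj⟩ := Finset.nonempty_iff_ne_empty.mpr h1
    have := h2 j hj
    exact ⟨j, by omega, by omega, bS_true S j hj⟩
  set p : Fin k → CutPath (vf N) := fun i => cp N (bS (f i)) (by omega) with hp
  have htree : ∀ i j, i ≠ j → (p i).tree ≠ (p j).tree := by
    intro i j hij he
    have h1 := tree_code N (bS (f i)) (bS (f j)) (by omega) (bS_zero _) (bS_zero _)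
      (by rw [hb1 _ (hf i), hb1 _ (hf j)]) he
    have h2 : f i = f j := by
      ext l
      constructor
      · intro hl
        obtain ⟨h5, h6⟩ := (Fam_mem (hf i)).2 l hl
        have h7 := h1 l h6
        rw [bS_true _ _ hl] at h7
        by_contra hn
        rw [bS_false _ l (by omega) hn] at h7
        simp at h7
      · intro hl
        obtain ⟨h5, h6⟩ := (Fam_mem (hf j)).2 l hl
        have h7 := h1 l h6
        rw [bS_true _ _ hl] at h7
        by_contra hn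
        rw [bS_false _ l (by omega) hn] at h7
        simp at h7
    apply hinc i j hij
    rw [h2]
    exact Congruent.refl' _
  have hpinj : Function.Injective p := by
    intro i j h
    by_contra hij
    exact htree i j hij (by rw [h])
  have hunf : ∀ i, IsUnfolding (convexHull ℝ (Set.range (vf N))) (p i).cutSet (US N (f i)) := by
    intro i
    rw [hull_vf, hp]
    simp only
    rw [cutSet_eq]
    exact isUnfolding N (bS (f i)) (by omega) (bS_zero _) (hb1 _ (hf i)) (hSne _ (hf i))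
  have huniq : ∀ i U, IsUnfolding (convexHull ℝ (Set.range (vf N))) (p i).cutSet U →
      ∃ h : ℂ ≃ᵢ ℂ, h '' (US N (f i)) = U := by
    intro i U hU
    rw [hull_vf, hp] at hU
    simp only at hU
    rw [cutSet_eq] at hU
    exact unfolding_unique N (bS (f i)) (by omega) (bS_zero _) (hb1 _ (hf i)) (hSne _ (hf i)) U hU
  refine ⟨Finset.univ.map ⟨p, hpinj⟩, by simpa using hk, ?_, ?_⟩
  · intro q hq
    rw [Finset.mem_map] at hq
    obtain ⟨i, _, rfl⟩ := hq
    refine ⟨⟨_, hunf i⟩, ?_⟩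
    intro U hU
    obtain ⟨h, rfl⟩ := huniq i U hU
    exact polygon_iso (WW_polygon N (bS (f i)) (by omega) (bS_zero _) (hb1 _ (hf i))) h
  · intro q hq q' hq' hne
    rw [Finset.mem_map] at hq hq'
    obtain ⟨i, _, rfl⟩ := hq
    obtain ⟨j, _, rfl⟩ := hq'
    have hij : i ≠ j := by
      rintro rfl
      exact hne rfl
    refine ⟨htree i j hij, ?_⟩
    intro U V hU hV hc
    obtain ⟨h, rfl⟩ := huniq i U hU
    obtain ⟨h', rfl⟩ := huniq j V hV
    have c1 : Congruent (US N (f i)) (h '' US N (f i)) := ⟨h, rfl⟩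
    have c2 : Congruent (US N (f j)) (h' '' US N (f j)) := ⟨h', rfl⟩
    exact hinc i j hij ((c1.trans' hc).trans' c2.symm')

end Unf
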