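import Pool.Agent.Lib.Unf.Loc

/-! Injectivity, image and convexity of the development. -/

namespace Unf

open Complex Set Topology Filter

lemma SamePt.symm' {P : Set ℂ} {x y : ℂ × Bool} (h : SamePt P x y) : SamePt P y x := by
  obtain ⟨h1, h2⟩ := h
  refine ⟨h1.symm, ?_⟩
  rcases h2 with h2 | h2
  · exact Or.inl h2.symm
  · exact Or.inr (h1 ▸ h2)

lemma SamePt.trans' {P : Set ℂ} {x y z : ℂ × Bool} (h : SamePt P x y) (h' : SamePt P y z) :
    SamePt P x z := by
  obtain ⟨h1, h2⟩ := h
  obtain ⟨h3, h4⟩ := h'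
  refine ⟨h1.trans h3, ?_⟩
  rcases h2 with h2 | h2
  · rcases h4 with h4 | h4
    · exact Or.inl (h2.trans h4)
    · exact Or.inr (h1 ▸ h4)
  · exact Or.inr h2

/-- boundary points via an edge functional -/
lemma mem_frontier_of (N a : ℕ) (hN : 2 ≤ N) (ha : a ≤ N) {z : ℂ} (hz : z ∈ PP N)
    (h0 : FF N a (nx N a) z = 0) : z ∈ frontier (PP N) := by
  refine ⟨subset_closure hz, fun hi => ?_⟩
  have hd : vv N (nx N a) - vv N a ≠ 0 := by
    rw [edge_line]
    intro hh
    rw [smul_eq_zero] at hh
    rcases hh with hh | hh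
    · exact tt_ne N a hN ha hh
    · exact s_add_I_ne _ hh
  have := pos_of_interior hd (fun x hx => PP_edges N a hN ha hx) hi
  rw [FF] at h0
  linarith

lemma FF_on_seg (N a c : ℕ) {z : ℂ} (hz : z ∈ segment ℝ (vv N a) (vv N c)) : FF N a c z = 0 := by
  obtain ⟨r, s, hr, hs, hrs, rfl⟩ := hz
  rw [FF, cr_comb _ _ _ _ _ _ hrs, cr_self, sub_self, cr_zero_right]
  ring

/-- developed position in the first pieces -/
def Dv (N : ℕ) (b : ℕ → Bool) (i : ℕ) (x : ℂ × Bool) (w : ℂ) : Prop :=
  (x.1 ∈ KK N b x.2 ∧ w = kf N x.2 x.1) ∨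
    ∃ j, 1 ≤ j ∧ j < i ∧ b j ≠ x.2 ∧ x.1 ∈ Tri N b j ∧ w = gg N b j x.1

lemma Dv_mem (N : ℕ) (b : ℕ → Bool) (i : ℕ) (x : ℂ × Bool) (w : ℂ) (h : Dv N b i x w) :
    w ∈ WW N b i := by
  obtain ⟨z, σ⟩ := x
  rcases h with ⟨h1, rfl⟩ | ⟨j, h1, h2, h3, h4, rfl⟩
  · cases σ
    · exact Or.inl h1
    · exact Or.inr (Or.inl ⟨z, h1, rfl⟩)
  · exact Or.inr (Or.inr ⟨j, h1, h2, z, h4, rfl⟩)

lemma Tri_sub (N : ℕ) (b : ℕ → Bool) (i : ℕ) (h1 : 1 ≤ i) (hiN : i < N) : Tri N b i ⊆ PP N := by
  rw [Tri_eq]
  apply HV_mono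
  have := oo_lt b i h1
  rintro j (rfl | rfl | rfl) <;> simp only [mem_ofPred_eq] <;> omega

lemma KK_sub (N : ℕ) (b : ℕ → Bool) (σ : Bool) : KK N b σ ⊆ PP N := by
  rw [KK_eq]
  exact HV_mono N (fun j hj => hj.1)

theorem Dv_inj (N : ℕ) (b : ℕ → Bool) (hN : 2 ≤ N) (hb0 : b 0 = true) (hb1 : b 1 = false)
    (i : ℕ) (hi : 1 ≤ i) (hiN : i ≤ N) : ∀ x y w, Dv N b i x w → Dv N b i y w →
      SamePt (PP N) x y := by
  have h01 : b 1 ≠ b 0 := by rw [hb0, hb1]; simp
  induction i, hi using Nat.le_induction with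
  | base =>
    -- two central pieces
    have key : ∀ z z' : ℂ, z ∈ KK N b false → z' ∈ KK N b true → z = rCA N z' →
        z = z' ∧ z ∈ frontier (PP N) := by
      intro z z' hz hz' he
      have e1 := (ca_side_refl N b hN false z hz).1
      have e2 := (ca_side_refl N b hN true z' hz').2
      rw [← he] at e2
      have e3 : cr (vv N 0 - vv N N) (z - vv N N) = 0 := le_antisymm e2 e1
      have hF : FF N N (nx N N) z = 0 := by rw [nx_last]; exact e3
      have hre : re N N = rCA N := by rw [re, nx_last]; rfl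
      have hfix : re N N z = z := re_fix N N hN le_rfl z hF
      refine ⟨?_, mem_frontier_of N N hN le_rfl (KK_sub N b false hz) hF⟩
      rw [hre] at hfix
      have := rho_rho (vv N N) (tt N N + tt N 0) z'
      have h4 : rCA N (rCA N z') = z' := this
      rw [← he, hfix] at h4
      exact h4
    rintro ⟨z, σ⟩ ⟨z', σ'⟩ w h h'
    rcases h with ⟨h1, h2⟩ | ⟨j, h1, h2, _⟩
    · rcases h' with ⟨h3, h4⟩ | ⟨j, h3, h4, _⟩
      · simp only at h1 h2 h3 h4
        cases σ <;> cases σ'
        · refine ⟨?_, Or.inl rfl⟩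
          rw [h2] at h4
          exact (kf N false).injective h4
        · have := key z z' h1 h3 (by rw [h2] at h4; exact h4)
          exact ⟨this.1, Or.inr this.2⟩
        · have := key z' z h3 h1 (by rw [h2] at h4; exact h4.symm)
          exact ⟨this.1.symm, Or.inr (this.1 ▸ this.2)⟩
        · refine ⟨?_, Or.inl rfl⟩
          rw [h2] at h4
          exact (kf N true).injective h4
      · omega
    · omega
  | succ i hi ih =>
    have ih := ih (by omega)
    have hinv := inv_all N b hN hb0 hb1 i hi (by omega)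
    have ho := oo_lt b i hi
    -- a new point meeting the old set has an old representative
    have old : ∀ y w, b i ≠ y.2 → y.1 ∈ Tri N b i → w = gg N b i y.1 → w ∈ WW N b i →
        ∃ y', Dv N b i y' w ∧ SamePt (PP N) y' y := by
      rintro ⟨z, σ⟩ w hb hT hw hW
      simp only at hb hT hw
      have hz : z ∈ {x | gg N b i x ∈ WW N b i} := by rw [mem_ofPred_eq, ← hw]; exact hW
      have f1 := hinv.f z hz
      have f2 : 0 ≤ cr (vv N i - vv N (oo b i)) (z - vv N (oo b i)) := by
        refine tri_ge ?_ ?_ ?_ z hT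
        · rw [sub_self, cr_zero_right]
        · rw [cr_self]
        · exact (ori N _ _ _ hN ho (by omega) (by omega)).le
      have hE := EO_neg N b i i hN hi le_rfl (by omega)
      have hD : cr (DD (tt N i)) (pp (tt N (oo b i)) - pp (tt N i)) < 0 := by
        rw [cr_DD]
        have : tt N (oo b i) - tt N i ≠ 0 := by
          rcases Nat.eq_zero_or_pos (oo b i) with h | h
          · rw [h, tt_zero]
            have := tt_pos N i hi
            have := tt_pos N 1 le_rfl
            intro hh; linarith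
          · have := tt_lt N (oo b i) i h ho
            have := tt_pos N i hi
            intro hh; linarith
        have := sq_pos_of_ne_zero this
        linarith
      have hseg : z ∈ segment ℝ (vv N (oo b i)) (vv N i) :=
        seg_of_supp hE hD (le_antisymm f1 f2) (hinv.E z hz) (hinv.D z hz)
      have hzP : z ∈ PP N := Tri_sub N b i hi (by omega) hT
      rcases Nat.lt_or_ge i 2 with h2 | h2
      · have hi1 : i = 1 := by omega
        subst hi1
        have hoo : oo b 1 = 0 := by omega
        rw [hoo] at hseg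
        have hF : FF N 0 (nx N 0) z = 0 := by
          rw [nx_lt N 0 (by omega)]; exact FF_on_seg N 0 1 hseg
        have hfix : re N 0 z = z := re_fix N 0 hN (by omega) z hF
        refine ⟨(z, false), Or.inl ⟨?_, ?_⟩, rfl, Or.inr (mem_frontier_of N 0 hN (by omega) hzP hF)⟩
        · refine (convex_convexHull ℝ _).segment_subset ?_ ?_ hseg
          · exact subset_convexHull ℝ _ ⟨0, ⟨by omega, Or.inl rfl⟩, rfl⟩
          · exact subset_convexHull ℝ _ ⟨1, ⟨by omega, Or.inr (Or.inr hb1)⟩, rfl⟩
        · show w = z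
          rw [hw, gg_one N b h01]
          rw [re, nx_lt N 0 (by omega)] at hfix
          exact hfix
      · obtain ⟨j, rfl⟩ : ∃ j, i = j + 1 := ⟨i - 1, by omega⟩
        by_cases hbb : b (j + 1) = b j
        · have hoo : oo b (j + 1) = oo b j := by simp [oo, hbb]
          have hgg : gg N b (j + 1) = gg N b j := by simp [gg, hbb]
          rw [hoo] at hseg
          refine ⟨(z, σ), Or.inr ⟨j, by omega, by omega, ?_, ?_, ?_⟩, rfl, Or.inl rfl⟩
          · rw [← hbb]; exact hb
          · refine (convex_convexHull ℝ _).segment_subset ?_ ?_ hseg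
            · exact subset_convexHull ℝ _ (by simp)
            · exact subset_convexHull ℝ _ (by simp)
          · rw [hw, hgg]
        · have hoo : oo b (j + 1) = j := by simp [oo, hbb]
          rw [hoo] at hseg
          have hF : FF N j (nx N j) z = 0 := by
            rw [nx_lt N j (by omega)]; exact FF_on_seg N j (j + 1) hseg
          have hfix : re N j z = z := re_fix N j hN (by omega) z hF
          refine ⟨(z, !σ), Or.inr ⟨j, by omega, by omega, ?_, ?_, ?_⟩, rfl,
            Or.inr (mem_frontier_of N j hN (by omega) hzP hF)⟩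
          · revert hb hbb
            simp only
            cases b (j + 1) <;> cases b j <;> cases σ <;> simp
          · refine (convex_convexHull ℝ _).segment_subset ?_ ?_ hseg
            · exact subset_convexHull ℝ _ (by simp)
            · exact subset_convexHull ℝ _ (by simp)
          · rw [hw]
            simp only [gg, hbb, if_false]
            show gg N b j (rho (vv N j) (tt N j + tt N (j + 1)) z) = gg N b j z
            rw [re, nx_lt N j (by omega)] at hfix
            rw [hfix]
    -- split off the last triangle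
    have split : ∀ x w, Dv N b (i + 1) x w → Dv N b i x w ∨
        (b i ≠ x.2 ∧ x.1 ∈ Tri N b i ∧ w = gg N b i x.1) := by
      rintro x w (h | ⟨j, h1, h2, h3, h4, h5⟩)
      · exact Or.inl (Or.inl h)
      · rcases Nat.lt_or_ge j i with h | h
        · exact Or.inl (Or.inr ⟨j, h1, h, h3, h4, h5⟩)
        · have : j = i := by omega
          subst this
          exact Or.inr ⟨h3, h4, h5⟩
    intro x y w hx hy
    rcases split x w hx with h | ⟨h1, h2, h3⟩
    · rcases split y w hy with h' | ⟨h4, h5, h6⟩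
      · exact ih x y w h h'
      · obtain ⟨y', hy', hs⟩ := old y w h4 h5 h6 (Dv_mem N b i x w h)
        exact (ih x y' w h hy').trans' hs
    · rcases split y w hy with h' | ⟨h4, h5, h6⟩
      · obtain ⟨x', hx', hs⟩ := old x w h1 h2 h3 (Dv_mem N b i y w h')
        exact hs.symm'.trans' (ih x' y w hx' h')
      · refine ⟨?_, Or.inl ?_⟩
        · rw [h3] at h6
          exact (gg N b i).injective h6
        · revert h1 h4
          cases b i <;> cases x.2 <;> cases y.2 <;> simp

lemma dev_Dv (N : ℕ) (b : ℕ → Bool) (hN : 2 ≤ N) (h01 : b 1 ≠ b 0) (x : ℂ × Bool)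
    (hx : x.1 ∈ PP N) : Dv N b N x (dev N b x) := by
  obtain ⟨g, hg, he⟩ := dev_spec N b hN h01 x hx
  rw [he]
  rcases hg with ⟨h1, rfl⟩ | ⟨i, h1, h2, h3, h4, rfl⟩
  · exact Or.inl ⟨h1, rfl⟩
  · exact Or.inr ⟨i, h1, h2, h3, h4, rfl⟩

/-! interiors of pieces are off the cut -/

lemma not_cut_of_sign (N : ℕ) (a c : ℕ) (hN : 2 ≤ N) (hac : a < c) (hc : c ≤ N) {K : Set ℂ}
    (h : (∀ x ∈ K, 0 ≤ FF N a c x) ∨ (∀ x ∈ K, FF N a c x ≤ 0)) {z : ℂ} (hz : z ∈ interior K) :
    z ∉ segment ℝ (vv N a) (vv N c) := by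
  intro hs
  have h0 := FF_on_seg N a c hs
  have hd : vv N c - vv N a ≠ 0 := by
    intro hh
    have h2 : tt N c = tt N a := by
      have := congrArg Complex.im hh
      simp only [vv, sub_im, pp_im, zero_im] at this
      linarith
    rcases Nat.eq_zero_or_pos a with h3 | h3
    · rw [h3, tt_zero] at h2
      have := tt_pos N c (by omega)
      have := tt_pos N 1 le_rfl
      linarith
    · have := tt_lt N a c h3 hac
      have := tt_pos N c (by omega)
      linarith
  rcases h with h | h
  · have := pos_of_interior hd h hz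
    rw [FF] at h0; linarith
  · have h' : ∀ x ∈ K, 0 ≤ cr (-(vv N c - vv N a)) (x - vv N a) := by
      intro x hx
      have := h x hx
      have e : cr (-(vv N c - vv N a)) (x - vv N a) = - FF N a c x := by
        simp only [FF, cr, neg_re, neg_im, sub_re, sub_im]; ring
      rw [e]; linarith
    have := pos_of_interior (neg_ne_zero.mpr hd) h' hz
    have e : cr (-(vv N c - vv N a)) (z - vv N a) = - FF N a c z := by
      simp only [FF, cr, neg_re, neg_im, sub_re, sub_im]; ring
    rw [e, h0] at this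
    simp at this

lemma tri_int_not_cut (N : ℕ) (b : ℕ → Bool) (hN : 2 ≤ N) (h01 : b 1 ≠ b 0) (σ : Bool) (i : ℕ)
    (h1 : 1 ≤ i) (hiN : i < N) (hb : b i ≠ σ) {z : ℂ} (hz : z ∈ interior (Tri N b i)) :
    ¬ Cut N b σ z := by
  rintro ⟨a, c, ⟨hac, hcN, ha, hc, hno⟩, hseg⟩
  obtain ⟨ho1, ho2⟩ := oo_spec b h01 i h1
  have ho3 := oo_lt b i h1
  have hbo : b (oo b i) = σ := by
    revert ho1 hb; cases b (oo b i) <;> cases b i <;> cases σ <;> simp
  refine not_cut_of_sign N a c hN hac hcN ?_ hz hseg
  rw [Tri_eq]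
  have hia : i ≠ a := by rintro rfl; exact hb ha
  -- position of i relative to a, c
  rcases Nat.lt_or_ge i a with h | h
  · left
    intro x hx
    refine (HV_face N a c ?_ hx).1
    rintro j (rfl | rfl | rfl)
    · exact (FF_nonneg N a c _ hN hac hcN (by omega) (Or.inl (by omega))).1
    · exact (FF_nonneg N a c _ hN hac hcN (by omega) (Or.inl (by omega))).1
    · exact (FF_nonneg N a c _ hN hac hcN (by omega) (Or.inl (by omega))).1
  · rcases Nat.lt_or_ge i c with h' | h'
    · right
      have hao : a ≤ oo b i := by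
        by_contra hh
        push Not at hh
        have := ho2 a hh (by omega)
        exact hb (by rw [← this, ha])
      intro x hx
      refine HV_nonpos N a c ?_ hx
      rintro j (rfl | rfl | rfl)
      · exact (FF_nonpos N a c _ hN hcN (by omega) (by omega)).1
      · exact (FF_nonpos N a c _ hN hcN (by omega) (by omega)).1
      · exact (FF_nonpos N a c _ hN hcN (by omega) (by omega)).1
    · left
      have hbc : b c = σ := by
        rcases hc with hc | hc
        · exact hc
        · omega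
      have hci : c ≠ i := by rintro rfl; exact hb hbc
      have hco : c ≤ oo b i := by
        by_contra hh
        push Not at hh
        have := ho2 c hh (by omega)
        exact hb (by rw [← this, hbc])
      intro x hx
      refine (HV_face N a c ?_ hx).1
      rintro j (rfl | rfl | rfl)
      · exact (FF_nonneg N a c _ hN hac hcN (by omega) (Or.inr (by omega))).1
      · exact (FF_nonneg N a c _ hN hac hcN (by omega) (Or.inr (by omega))).1
      · exact (FF_nonneg N a c _ hN hac hcN (by omega) (Or.inr (by omega))).1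

lemma kk_int_not_cut (N : ℕ) (b : ℕ → Bool) (hN : 2 ≤ N) (σ : Bool)
    {z : ℂ} (hz : z ∈ interior (KK N b σ)) : ¬ Cut N b σ z := by
  rintro ⟨a, c, ⟨hac, hcN, ha, hc, hno⟩, hseg⟩
  refine not_cut_of_sign N a c hN hac hcN ?_ hz hseg
  rw [KK_eq]
  left
  intro x hx
  refine (HV_face N a c ?_ hx).1
  rintro j ⟨hj, hj2⟩
  refine (FF_nonneg N a c _ hN hac hcN hj ?_).1
  rcases hj2 with h | h | h
  · left; omega
  · right; omega
  · by_contra hh
    push Not at hh
    exact hno j hh.1 hh.2 h

lemma dev_eq (N : ℕ) (b : ℕ → Bool) (hN : 2 ≤ N) (h01 : b 1 ≠ b 0) (x : ℂ × Bool)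
    {g : ℂ ≃ᵢ ℂ} (hg : Fr N b x.2 x.1 g) (hx : x.1 ∈ PP N) (hc : ¬ Cut N b x.2 x.1) :
    dev N b x = g x.1 := by
  obtain ⟨g', hg', he⟩ := dev_spec N b hN h01 x hx
  rw [he, compat_same N b hN h01 x.2 hg' hg hc]

lemma closure_piece (N : ℕ) (b : ℕ → Bool) {K : Set ℂ} (hK : Convex ℝ K)
    (hKi : (interior K).Nonempty) {g : ℂ ≃ᵢ ℂ} {A : Set ℂ}
    (h : ∀ z ∈ interior K, g z ∈ A) : ∀ z ∈ K, g z ∈ closure A := by
  intro z hz
  have h1 : z ∈ closure (interior K) := by
    rw [hK.closure_interior_eq_closure_of_nonempty_interior hKi]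
    exact subset_closure hz
  have h2 : g z ∈ closure (g '' interior K) :=
    image_closure_subset_closure_image g.continuous (mem_image_of_mem g h1)
  refine closure_mono ?_ h2
  rintro _ ⟨x, hx, rfl⟩
  exact h x hx

lemma WW_closed (N : ℕ) (b : ℕ → Bool) : IsClosed (WW N b N) := by
  have e : WW N b N = (KK N b false ∪ rCA N '' KK N b true) ∪
      ⋃ j ∈ Finset.Ico 1 N, gg N b j '' Tri N b j := by
    ext w
    simp only [WW, mem_ofPred_eq, mem_union, mem_image, mem_iUnion, Finset.mem_Ico, exists_prop]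
    constructor
    · rintro (h | ⟨z, hz, he⟩ | ⟨j, h1, h2, z, hz, he⟩)
      · exact Or.inl (Or.inl h)
      · exact Or.inl (Or.inr ⟨z, hz, he.symm⟩)
      · exact Or.inr ⟨j, ⟨h1, h2⟩, z, hz, he.symm⟩
    · rintro ((h | ⟨z, hz, he⟩) | ⟨j, ⟨h1, h2⟩, z, hz, he⟩)
      · exact Or.inl h
      · exact Or.inr (Or.inl ⟨z, hz, he.symm⟩)
      · exact Or.inr (Or.inr ⟨j, h1, h2, z, hz, he.symm⟩)
  rw [e]
  have hK : ∀ σ, IsCompact (KK N b σ) := fun σ => by
    rw [KK_eq]; exact HV_compact N (fun j hj => hj.1)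
  refine ((hK false).isClosed.union (((hK true).image (rCA N).continuous).isClosed)).union ?_
  refine isClosed_biUnion_finset (fun j hj => ?_)
  have hj' := Finset.mem_Ico.mp hj
  have : IsCompact (Tri N b j) := by
    rw [Tri_eq]
    have := oo_lt b j hj'.1
    refine HV_compact N ?_
    rintro l (rfl | rfl | rfl) <;> omega
  exact (this.image (gg N b j).continuous).isClosed

theorem dev_image (N : ℕ) (b : ℕ → Bool) (hN : 2 ≤ N) (hb0 : b 0 = true) (hb1 : b 1 = false)
    (hS : ∃ j, 1 ≤ j ∧ j < N ∧ b j = true) :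
    WW N b N = closure (dev N b '' {x | x.1 ∈ PP N ∧ x ∉ Gam N b}) := by
  have h01 : b 1 ≠ b 0 := by rw [hb0, hb1]; simp
  apply Subset.antisymm
  · -- interior points of pieces
    have off : ∀ (K : Set ℂ) (σ : Bool) (g : ℂ ≃ᵢ ℂ), K ⊆ PP N → (∀ z ∈ K, Fr N b σ z g) →
        (∀ z ∈ interior K, ¬ Cut N b σ z) → ∀ z ∈ interior K,
          g z ∈ dev N b '' {x | x.1 ∈ PP N ∧ x ∉ Gam N b} := by
      intro K σ g hKP hFr hnc z hz
      have hzK := interior_subset hz
      refine ⟨(z, σ), ⟨hKP hzK, ?_⟩, dev_eq N b hN h01 (z, σ) (hFr z hzK) (hKP hzK) (hnc z hz)⟩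
      rintro (h | ⟨h1, h2⟩)
      · exact hnc z hz h
      · exact h1.2 (interior_mono hKP hz)
    rintro w (h | ⟨z, hz, rfl⟩ | ⟨j, hj1, hjN, z, hz, rfl⟩)
    · have := closure_piece N b (K := KK N b false) (g := IsometryEquiv.refl ℂ)
        (convex_convexHull ℝ _) (by
          have h1 := ori N 0 1 N hN (by omega) (by omega) le_rfl
          refine (tri_int_nonempty h1).mono (interior_mono (convexHull_mono ?_))
          rintro x (rfl | rfl | rfl)
          · exact ⟨0, ⟨by omega, Or.inl rfl⟩, rfl⟩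
          · exact ⟨1, ⟨by omega, Or.inr (Or.inr hb1)⟩, rfl⟩
          · exact ⟨N, ⟨le_rfl, Or.inr (Or.inl rfl)⟩, rfl⟩)
        (off (KK N b false) false _ (KK_sub N b false) (fun z hz => Or.inl ⟨hz, by simp [kf]⟩)
          (fun z hz => kk_int_not_cut N b hN false hz)) w h
      exact this
    · obtain ⟨j, hj1, hj2, hj3⟩ := hS
      exact closure_piece N b (K := KK N b true) (g := rCA N)
        (convex_convexHull ℝ _) (by
          have h1 := ori N 0 j N hN (by omega) (by omega) le_rfl
          refine (tri_int_nonempty h1).mono (interior_mono (convexHull_mono ?_))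
          rintro x (rfl | rfl | rfl)
          · exact ⟨0, ⟨by omega, Or.inl rfl⟩, rfl⟩
          · exact ⟨j, ⟨by omega, Or.inr (Or.inr hj3)⟩, rfl⟩
          · exact ⟨N, ⟨le_rfl, Or.inr (Or.inl rfl)⟩, rfl⟩)
        (off (KK N b true) true _ (KK_sub N b true) (fun z hz => Or.inl ⟨hz, by simp [kf]⟩)
          (fun z hz => kk_int_not_cut N b hN true hz)) z hz
    · have ho := oo_lt b j hj1
      have hbj : b j ≠ !b j := by cases b j <;> simp
      exact closure_piece N b (K := Tri N b j) (g := gg N b j)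
        (convex_convexHull ℝ _)
        (tri_int_nonempty (ori N _ _ _ hN ho (by omega) (by omega)))
        (off (Tri N b j) (!b j) _ (Tri_sub N b j hj1 hjN)
          (fun z hz => Or.inr ⟨j, hj1, hjN, hbj, hz, rfl⟩)
          (fun z hz => tri_int_not_cut N b hN h01 _ j hj1 hjN hbj hz)) z hz
  · apply closure_minimal _ (WW_closed N b)
    rintro _ ⟨x, ⟨hx, _⟩, rfl⟩
    exact Dv_mem N b N x _ (dev_Dv N b hN h01 x hx)

/-- the unfolding -/
theorem isUnfolding (N : ℕ) (b : ℕ → Bool) (hN : 2 ≤ N) (hb0 : b 0 = true) (hb1 : b 1 = false)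
    (hS : ∃ j, 1 ≤ j ∧ j < N ∧ b j = true) : IsUnfolding (PP N) (Gam N b) (WW N b N) := by
  have h01 : b 1 ≠ b 0 := by rw [hb0, hb1]; simp
  refine ⟨dev N b, ?_, ?_, dev_image N b hN hb0 hb1 hS⟩
  · intro x hx hxG
    exact dev_local N b hN hb0 hb1 hS x hx hxG
  · intro x y hx hy _ _ he
    have h1 := dev_Dv N b hN h01 x hx
    have h2 := dev_Dv N b hN h01 y hy
    rw [← he] at h2
    exact Dv_inj N b hN hb0 hb1 N (by omega) le_rfl x y _ h1 h2

end Unf
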