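import Pool.Agent.Lib.Unf.Opp
import Pool.Agent.Lib.Unf.Defs

/-! The developing map is a local isometry off the cut. -/

namespace Unf

open Complex Set Topology Filter

lemma FF_seg (N a : ℕ) (hN : 2 ≤ N) (z : ℂ) (d q : ℂ) (r s : ℝ) (hrs : r + s = 1)
    (hz : z = r • vv N a + s • vv N (nx N a)) :
    cr d (z - q) = r * cr d (vv N a - q) + s * cr d (vv N (nx N a) - q) := by
  rw [hz, cr_comb _ _ _ _ _ _ hrs]

lemma edge_line (N a : ℕ) : vv N (nx N a) - vv N a = (tt N (nx N a) - tt N a) •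
    (((tt N a + tt N (nx N a) : ℝ) : ℂ) + I) := by
  rw [vv, vv]
  conv_lhs => rw [pp_edge (tt N a) (tt N (nx N a))]
  ring

lemma tt_ne (N a : ℕ) (hN : 2 ≤ N) (ha : a ≤ N) : tt N (nx N a) - tt N a ≠ 0 := by
  have hT := T_ge N hN
  rcases ha.lt_or_eq with h | h
  · rw [nx_lt N a h]
    rcases Nat.eq_zero_or_pos a with h0 | h0
    · subst h0
      rw [tt_zero, zero_add]
      intro hh; linarith
    · have := tt_succ N a h0
      have := tt_pos N (a + 1) (by omega)
      intro hh; linarith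
  · subst h
    rw [nx_last, tt_zero, tt_last a (by omega)]
    intro hh; linarith

lemma FF_zero_iff (N a : ℕ) (hN : 2 ≤ N) (ha : a ≤ N) (z : ℂ) : FF N a (nx N a) z = 0 ↔
    cr (((tt N a + tt N (nx N a) : ℝ) : ℂ) + I) (z - vv N a) = 0 := by
  rw [FF, edge_line, cr_smul_left, mul_eq_zero]
  have := tt_ne N a hN ha
  tauto

lemma re_fix (N a : ℕ) (hN : 2 ≤ N) (ha : a ≤ N) (z : ℂ) (h : FF N a (nx N a) z = 0) :
    re N a z = z := rho_of_cr _ _ _ ((FF_zero_iff N a hN ha z).mp h)

lemma re_side (N a : ℕ) (z : ℂ) : FF N a (nx N a) (re N a z) = - FF N a (nx N a) z := by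
  rw [FF, FF, edge_line, cr_smul_left, cr_smul_left, re, rho_cr]
  ring

/-- the frontier near a non-vertex point of an edge is the line of the edge -/
lemma frontier_near (N a : ℕ) (hN : 2 ≤ N) (ha : a ≤ N) {z : ℂ}
    (hz : z ∈ segment ℝ (vv N a) (vv N (nx N a))) (h1 : z ≠ vv N a) (h2 : z ≠ vv N (nx N a)) :
    ∃ R : ℝ, 0 < R ∧ ∀ ζ, dist ζ z < R → (ζ ∈ frontier (PP N) ↔ FF N a (nx N a) ζ = 0) := by
  have hnxN : nx N a ≤ N := by
    rcases ha.lt_or_eq with h | h
    · rw [nx_lt N a h]; omega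
    · rw [h, nx_last]; omega
  have hne : nx N a ≠ a := by
    rcases ha.lt_or_eq with h | h
    · rw [nx_lt N a h]; omega
    · rw [h, nx_last]; omega
  -- third vertex
  obtain ⟨q, hq, hqa, hqn⟩ : ∃ q ≤ N, q ≠ a ∧ q ≠ nx N a := by
    by_contra hcon
    push Not at hcon
    have k0 := hcon 0 (by omega)
    have k1 := hcon 1 (by omega)
    have k2 := hcon 2 (by omega)
    omega
  have hD : 0 < cr (vv N (nx N a) - vv N a) (vv N q - vv N a) := by
    obtain ⟨e1, e2⟩ := edge_sign N a q hN ha hq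
    apply lt_of_le_of_ne e1
    intro h0
    rcases e2 h0.symm with h | h
    · exact hqa h
    · exact hqn h
  obtain ⟨r, s, hr, hs, hrs, hzz⟩ := hz
  have hr0 : 0 < r := by
    rcases hr.lt_or_eq with h | h
    · exact h
    · exfalso; apply h2
      have : s = 1 := by linarith
      rw [← hzz, ← h, this]; simp
  have hs0 : 0 < s := by
    rcases hs.lt_or_eq with h | h
    · exact h
    · exfalso; apply h1
      have : r = 1 := by linarith
      rw [← hzz, ← h, this]; simp
  set U : Set ℂ := {ζ | 0 < cr (vv N q - vv N (nx N a)) (ζ - vv N (nx N a))} ∩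
    {ζ | 0 < cr (vv N a - vv N q) (ζ - vv N q)} with hU
  have hUo : IsOpen U := (isOpen_lt continuous_const (cr_continuous _ _)).inter
    (isOpen_lt continuous_const (cr_continuous _ _))
  have hzU : z ∈ U := by
    constructor
    · show 0 < cr _ _
      rw [← hzz, cr_comb _ _ _ _ _ _ hrs, sub_self, cr_zero_right]
      have : cr (vv N q - vv N (nx N a)) (vv N a - vv N (nx N a)) =
          cr (vv N (nx N a) - vv N a) (vv N q - vv N a) := by
        simp only [cr, sub_re, sub_im]; ring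
      rw [this]; positivity
    · show 0 < cr _ _
      rw [← hzz, cr_comb _ _ _ _ _ _ hrs, cr_self]
      have : cr (vv N a - vv N q) (vv N (nx N a) - vv N q) =
          cr (vv N (nx N a) - vv N a) (vv N q - vv N a) := by
        simp only [cr, sub_re, sub_im]; ring
      rw [this]; positivity
  obtain ⟨R, hR, hball⟩ := Metric.isOpen_iff.mp hUo z hzU
  refine ⟨R, hR, fun ζ hζ => ?_⟩
  obtain ⟨u1, u2⟩ := hball (show ζ ∈ Metric.ball z R from hζ)
  have htri : ∀ w ∈ convexHull ℝ ({vv N a, vv N (nx N a), vv N q} : Set ℂ), w ∈ PP N := by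
    intro w hw
    refine convexHull_mono ?_ hw
    rintro x (rfl | rfl | rfl)
    · exact ⟨a, ha, rfl⟩
    · exact ⟨_, hnxN, rfl⟩
    · exact ⟨q, hq, rfl⟩
  constructor
  · intro hf
    have hp := PP_edges N a hN ha ((PP_closed N).frontier_subset hf)
    rcases hp.lt_or_eq with h | h
    · exfalso
      apply hf.2
      exact interior_mono (fun w hw => htri w hw) (mem_int_tri hD h u1 u2)
    · exact h.symm
  · intro h0
    have hm : ζ ∈ PP N := htri ζ (mem_tri hD h0.ge u1.le u2.le)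
    refine ⟨subset_closure hm, fun hi => ?_⟩
    have hd : vv N (nx N a) - vv N a ≠ 0 := by
      intro hh; rw [hh, cr_zero_left] at hD; exact lt_irrefl _ hD
    have := pos_of_interior hd (fun x hx => PP_edges N a hN ha hx) hi
    rw [FF] at h0
    linarith

lemma surf_lower (P : Set ℂ) (hP : (frontier P).Nonempty) (y w : ℂ) :
    dist y w ≤ sInf ((fun ζ => dist y ζ + dist ζ w) '' frontier P) := by
  apply le_csInf (hP.image _)
  rintro _ ⟨ζ, hζ, rfl⟩
  exact dist_triangle _ _ _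

lemma bdd_surf (P : Set ℂ) (y w : ℂ) :
    BddBelow ((fun ζ => dist y ζ + dist ζ w) '' frontier P) :=
  ⟨0, by rintro _ ⟨ζ, hζ, rfl⟩; positivity⟩

/-- the distance across an edge -/
lemma dist_edge (N a : ℕ) (hN : 2 ≤ N) (ha : a ≤ N) {z : ℂ}
    (hz : z ∈ segment ℝ (vv N a) (vv N (nx N a))) (h0 : FF N a (nx N a) z = 0)
    (h1 : z ≠ vv N a) (h2 : z ≠ vv N (nx N a)) :
    ∃ δ : ℝ, 0 < δ ∧ ∀ y ∈ PP N, ∀ w ∈ PP N, dist y z < δ → dist w z < δ →
      sInf ((fun ζ => dist y ζ + dist ζ w) '' frontier (PP N)) = dist y (re N a w) := by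
  obtain ⟨R, hR, hfr⟩ := frontier_near N a hN ha hz h1 h2
  refine ⟨R / 4, by positivity, ?_⟩
  intro y hy w hw hyz hwz
  have hrz : re N a z = z := re_fix N a hN ha z h0
  have hw'z : dist (re N a w) z < R / 4 := by
    have : dist (re N a w) (re N a z) = dist w z := (re N a).dist_eq _ _
    rw [hrz] at this; rw [this]; exact hwz
  have hyF := PP_edges N a hN ha hy
  have hwF : FF N a (nx N a) (re N a w) ≤ 0 := by
    rw [re_side]; have := PP_edges N a hN ha hw; linarith
  apply le_antisymm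
  · -- crossing point
    obtain ⟨ζ, hζs, hζ0⟩ : ∃ ζ ∈ segment ℝ y (re N a w), FF N a (nx N a) ζ = 0 := by
      rcases hwF.lt_or_eq with h | h
      · set A := FF N a (nx N a) y with hA
        set B := FF N a (nx N a) (re N a w) with hB
        have hAB : 0 < A - B := by linarith
        refine ⟨((-B) / (A - B)) • y + (A / (A - B)) • (re N a w),
          ⟨(-B) / (A - B), A / (A - B), by apply div_nonneg <;> linarith, by positivity,
            by field_simp; ring, rfl⟩, ?_⟩
        rw [FF, cr_comb _ _ _ _ _ _ (by field_simp; ring)]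
        have eA : cr (vv N (nx N a) - vv N a) (y - vv N a) = A := rfl
        have eB : cr (vv N (nx N a) - vv N a) (re N a w - vv N a) = B := rfl
        rw [eA, eB]
        field_simp
        ring
      · exact ⟨re N a w, right_mem_segment ℝ _ _, h⟩
    have hζz : dist ζ z < R / 4 := by
      have := (convex_ball z (R / 4)).segment_subset (show y ∈ Metric.ball z (R/4) from hyz)
        (show re N a w ∈ Metric.ball z (R/4) from hw'z) hζs
      exact this
    have hζf : ζ ∈ frontier (PP N) := (hfr ζ (by linarith)).mpr hζ0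
    refine (csInf_le (bdd_surf _ _ _) ⟨ζ, hζf, rfl⟩).trans ?_
    have e1 : dist ζ w = dist ζ (re N a w) := by
      have : dist (re N a ζ) (re N a w) = dist ζ w := (re N a).dist_eq _ _
      rw [re_fix N a hN ha ζ hζ0] at this
      exact this.symm
    show dist y ζ + dist ζ w ≤ _
    rw [e1]
    exact (dist_add_dist_of_mem_segment hζs).le
  · have hne : (frontier (PP N)).Nonempty := ⟨z, (hfr z (by simpa using hR)).mpr h0⟩
    apply le_csInf (hne.image _)
    rintro _ ⟨ζ, hζ, rfl⟩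
    show dist y (re N a w) ≤ dist y ζ + dist ζ w
    rcases lt_or_ge (dist ζ z) R with h | h
    · have hζ0 := (hfr ζ h).mp hζ
      have e1 : dist ζ w = dist ζ (re N a w) := by
        have : dist (re N a ζ) (re N a w) = dist ζ w := (re N a).dist_eq _ _
        rw [re_fix N a hN ha ζ hζ0] at this
        exact this.symm
      rw [e1]
      exact dist_triangle _ _ _
    · have t1 : dist y (re N a w) ≤ dist y z + dist z (re N a w) := dist_triangle _ _ _
      have t2 : dist ζ z ≤ dist ζ y + dist y z := dist_triangle _ _ _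
      have t3 : dist ζ z ≤ dist ζ w + dist w z := dist_triangle _ _ _
      rw [dist_comm z (re N a w)] at t1
      rw [dist_comm ζ y] at t2
      linarith

/-- frames are locally constant off the cut -/
lemma frame_near (N : ℕ) (b : ℕ → Bool) (hN : 2 ≤ N) (h01 : b 1 ≠ b 0) (σ : Bool) {z : ℂ}
    (hc : ¬ Cut N b σ z) {G : ℂ ≃ᵢ ℂ} (hG : Fr N b σ z G) :
    ∃ r : ℝ, 0 < r ∧ ∀ y, dist y z < r → ∀ g, Fr N b σ y g → g = G := by
  have hclT : ∀ i, i < N → IsClosed (Tri N b i) := by
    intro i hi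
    rw [Tri_eq]
    refine (HV_compact N ?_).isClosed
    have : oo b i ≤ i := by
      rcases Nat.eq_zero_or_pos i with h | h
      · subst h; simp [oo]
      · exact (oo_lt b i h).le
    rintro j (rfl | rfl | rfl) <;> omega
  have hclK : IsClosed (KK N b σ) := by
    rw [KK_eq]
    exact (HV_compact N (fun j hj => hj.1)).isClosed
  have ev1 : ∀ᶠ y in 𝓝 z, y ∈ KK N b σ → z ∈ KK N b σ := by
    by_cases h : z ∈ KK N b σ
    · exact Eventually.of_forall (fun _ _ => h)
    · filter_upwards [hclK.isOpen_compl.mem_nhds h] with y hy hy2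
      exact absurd hy2 hy
  have ev2 : ∀ᶠ y in 𝓝 z, ∀ i ∈ Finset.range N, y ∈ Tri N b i → z ∈ Tri N b i := by
    rw [Filter.eventually_all_finset]
    intro i hi
    by_cases h : z ∈ Tri N b i
    · exact Eventually.of_forall (fun _ _ => h)
    · filter_upwards [(hclT i (Finset.mem_range.mp hi)).isOpen_compl.mem_nhds h] with y hy hy2
      exact absurd hy2 hy
  obtain ⟨r, hr, hb⟩ := Metric.eventually_nhds_iff.mp (ev1.and ev2)
  refine ⟨r, hr, fun y hy g hg => ?_⟩
  obtain ⟨e1, e2⟩ := hb hy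
  rcases hg with ⟨h1, rfl⟩ | ⟨i, hi1, hiN, hbi, hT, rfl⟩
  · exact compat_same N b hN h01 σ (Or.inl ⟨e1 h1, rfl⟩) hG hc
  · exact compat_same N b hN h01 σ (Or.inr ⟨i, hi1, hiN, hbi,
      e2 i (Finset.mem_range.mpr hiN) hT, rfl⟩) hG hc

/-- existence of a frame -/
lemma frame_exists (N : ℕ) (b : ℕ → Bool) (hN : 2 ≤ N) (h01 : b 1 ≠ b 0) (σ : Bool) {z : ℂ}
    (hz : z ∈ PP N) : ∃ g, Fr N b σ z g := by
  rcases cover N b hN h01 σ hz with h | ⟨i, h1, h2, h3, h4⟩
  · exact ⟨_, Or.inl ⟨h, rfl⟩⟩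
  · exact ⟨_, Or.inr ⟨i, h1, h2, h3, h4, rfl⟩⟩

open Classical in
/-- the developing map -/
noncomputable def dev (N : ℕ) (b : ℕ → Bool) (x : ℂ × Bool) : ℂ :=
  if h : ∃ g, Fr N b x.2 x.1 g then h.choose x.1 else 0

lemma dev_spec (N : ℕ) (b : ℕ → Bool) (hN : 2 ≤ N) (h01 : b 1 ≠ b 0) (x : ℂ × Bool)
    (hx : x.1 ∈ PP N) : ∃ g, Fr N b x.2 x.1 g ∧ dev N b x = g x.1 := by
  have h := frame_exists N b hN h01 x.2 hx
  exact ⟨h.choose, h.choose_spec, by rw [dev, dif_pos h]⟩

/-- points of the surface on the cut -/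
def Gam (N : ℕ) (b : ℕ → Bool) : Set (ℂ × Bool) :=
  {x | Cut N b x.2 x.1 ∨ (x.1 ∈ frontier (PP N) ∧ Cut N b (!x.2) x.1)}

lemma frontier_nonempty (N : ℕ) (hN : 2 ≤ N) : (frontier (PP N)).Nonempty := by
  refine ⟨vv N 0, subset_closure (vv_mem_HV N (by simp)), fun hi => ?_⟩
  have h1 := ori N 0 1 2 hN (by omega) (by omega) hN
  have hd : vv N (nx N 0) - vv N 0 ≠ 0 := by
    rw [nx_lt N 0 (by omega)]
    intro hh
    rw [zero_add] at hh
    rw [hh, cr_zero_left] at h1; exact lt_irrefl _ h1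
  have := pos_of_interior hd (fun x hx => PP_edges N 0 hN (by omega) hx) hi
  rw [sub_self, cr_zero_right] at this
  exact lt_irrefl _ this

theorem dev_local (N : ℕ) (b : ℕ → Bool) (hN : 2 ≤ N) (hb0 : b 0 = true) (hb1 : b 1 = false)
    (hS : ∃ j, 1 ≤ j ∧ j < N ∧ b j = true) (x : ℂ × Bool) (hx : x.1 ∈ PP N)
    (hxG : x ∉ Gam N b) : ∃ r : ℝ, 0 < r ∧ ∀ y z : ℂ × Bool, y.1 ∈ PP N → z.1 ∈ PP N →
      surfDist (PP N) x y < r → surfDist (PP N) x z < r →
        dist (dev N b y) (dev N b z) = surfDist (PP N) y z := by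
  have h01 : b 1 ≠ b 0 := by rw [hb0, hb1]; simp
  obtain ⟨z, σ⟩ := x
  simp only [Gam, mem_ofPred_eq, not_or, not_and] at hxG
  obtain ⟨hc1, hc2⟩ := hxG
  simp only at hx hc1 hc2
  obtain ⟨G, hG⟩ := frame_exists N b hN h01 σ hx
  obtain ⟨r1, hr1, hn1⟩ := frame_near N b hN h01 σ hc1 hG
  have hdev1 : ∀ y : ℂ × Bool, y.1 ∈ PP N → y.2 = σ → dist y.1 z < r1 → dev N b y = G y.1 := by
    intro y hy hyσ hd
    obtain ⟨g, hg, he⟩ := dev_spec N b hN h01 y hy
    rw [hyσ] at hg
    rw [he, hn1 y.1 hd g hg]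
  have hfne := frontier_nonempty N hN
  by_cases hzf : z ∈ frontier (PP N)
  · have hc2' := hc2 hzf
    obtain ⟨G', hG'⟩ := frame_exists N b hN h01 (!σ) hx
    obtain ⟨r2, hr2, hn2⟩ := frame_near N b hN h01 (!σ) hc2' hG'
    have hdev2 : ∀ y : ℂ × Bool, y.1 ∈ PP N → y.2 = !σ → dist y.1 z < r2 →
        dev N b y = G' y.1 := by
      intro y hy hyσ hd
      obtain ⟨g, hg, he⟩ := dev_spec N b hN h01 y hy
      rw [hyσ] at hg
      rw [he, hn2 y.1 hd g hg]
    obtain ⟨a, ha, hseg, h0, h1, h2, hGG⟩ :=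
      compat_opp N b hN hb0 hb1 hS σ hzf hG hG' hc1 hc2'
    obtain ⟨δ, hδ, hde⟩ := dist_edge N a hN ha hseg h0 h1 h2
    refine ⟨min δ (min r1 r2), by positivity, ?_⟩
    have hnear : ∀ y : ℂ × Bool, surfDist (PP N) (z, σ) y < min δ (min r1 r2) →
        dist y.1 z < δ ∧ dist y.1 z < r1 ∧ dist y.1 z < r2 := by
      intro y hy
      have : dist z y.1 ≤ surfDist (PP N) (z, σ) y := by
        rw [surfDist]
        split_ifs
        · exact le_rfl
        · exact surf_lower _ hfne _ _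
      rw [dist_comm] at this
      have h3 := lt_of_le_of_lt this hy
      simp only [lt_min_iff] at h3
      exact h3
    intro y w hy hw hyd hwd
    obtain ⟨y1, y2, y3⟩ := hnear y hyd
    obtain ⟨w1, w2, w3⟩ := hnear w hwd
    rcases Bool.eq_or_eq_not y.2 σ with hyσ | hyσ <;> rcases Bool.eq_or_eq_not w.2 σ with hwσ | hwσ
    · rw [hdev1 y hy hyσ y2, hdev1 w hw hwσ w2, surfDist, if_pos (by rw [hyσ, hwσ]), G.dist_eq]
    · rw [hdev1 y hy hyσ y2, hdev2 w hw hwσ w3, surfDist, if_neg (by rw [hyσ, hwσ]; cases σ <;> simp),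
        hGG, G.dist_eq, hde y.1 hy w.1 hw y1 w1]
    · rw [hdev2 y hy hyσ y3, hdev1 w hw hwσ w2, surfDist, if_neg (by rw [hyσ, hwσ]; cases σ <;> simp),
        hGG, G.dist_eq, dist_comm, ← hde w.1 hw y.1 hy w1 y1]
      congr 1
      apply image_congr
      intro ζ _
      rw [dist_comm w.1 ζ, dist_comm ζ y.1, add_comm]
    · rw [hdev2 y hy hyσ y3, hdev2 w hw hwσ w3, surfDist, if_pos (by rw [hyσ, hwσ]), G'.dist_eq]
  · -- interior point
    have hcl : IsClosed (frontier (PP N)) := isClosed_frontier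
    obtain ⟨r0, hr0, hball⟩ := Metric.isOpen_iff.mp hcl.isOpen_compl z hzf
    refine ⟨min r0 r1, by positivity, ?_⟩
    have hnear : ∀ y : ℂ × Bool, surfDist (PP N) (z, σ) y < min r0 r1 →
        y.2 = σ ∧ dist y.1 z < r1 := by
      intro y hy
      have hy2 : y.2 = σ := by
        by_contra hne
        rw [surfDist, if_neg (fun h => hne h.symm)] at hy
        have : r0 ≤ sInf ((fun ζ => dist z ζ + dist ζ y.1) '' frontier (PP N)) := by
          apply le_csInf (hfne.image _)
          rintro _ ⟨ζ, hζ, rfl⟩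
          have h3 : ¬ dist ζ z < r0 := fun h4 => hball h4 hζ
          push Not at h3
          rw [dist_comm] at h3
          show r0 ≤ dist z ζ + dist ζ y.1
          have := dist_nonneg (x := ζ) (y := y.1)
          linarith
        have h5 := lt_of_lt_of_le hy (min_le_left _ _)
        linarith
      refine ⟨hy2, ?_⟩
      rw [surfDist, if_pos hy2.symm] at hy
      have := lt_of_lt_of_le hy (min_le_right _ _)
      rwa [dist_comm]
    intro y w hy hw hyd hwd
    obtain ⟨y1, y2⟩ := hnear y hyd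
    obtain ⟨w1, w2⟩ := hnear w hwd
    rw [hdev1 y hy y1 y2, hdev1 w hw w1 w2, surfDist, if_pos (by rw [y1, w1]), G.dist_eq]

end Unf
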