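import Pool.Agent.Lib.Unf.Poly

/-! Frames on the two faces across an uncut edge. -/

namespace Unf

open Complex Set

/-- reflection in the edge starting at vertex `a` -/
noncomputable def re (N a : ℕ) : ℂ ≃ᵢ ℂ := rho (vv N a) (tt N a + tt N (nx N a))

lemma re_re (N a : ℕ) (x : ℂ) : re N a (re N a x) = x := rho_rho _ _ _

lemma oo_succ_eq (b : ℕ → Bool) (a : ℕ) (ha : 1 ≤ a) (h : oo b (a + 1) = a) : b (a + 1) ≠ b a := by
  intro hh
  simp only [oo, hh, if_true] at h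
  have := oo_lt b a ha
  omega

/-- the pieces at a non-vertex point of a middle edge -/
lemma edge_mid (N : ℕ) (b : ℕ → Bool) (hN : 2 ≤ N) (a : ℕ) (ha : 1 ≤ a) (haN : a < N) (τ : Bool)
    {z : ℂ} (hz : z ∈ segment ℝ (vv N a) (vv N (nx N a))) (h0 : FF N a (nx N a) z = 0)
    (h1 : z ≠ vv N a) (h2 : z ≠ vv N (nx N a)) {g : ℂ ≃ᵢ ℂ} (h : Fr N b τ z g)
    (hc : ¬ Cut N b τ z) :
    (b a ≠ τ ∧ g = gg N b a) ∨
      (b (a + 1) ≠ τ ∧ b (a + 1) ≠ b a ∧ a + 1 < N ∧ g = gg N b (a + 1)) := by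
  have hnx := nx_lt N a haN
  rcases h with ⟨hK, rfl⟩ | ⟨k, hk1, hkN, hb, hT, rfl⟩
  · exfalso
    rw [KK_eq] at hK
    obtain ⟨e1, e2⟩ := edge_endpoints N a hN (by omega) (fun j hj => hj.1) hK h0 h1 h2
    rw [hnx] at e2 hz
    apply hc
    refine ⟨a, a + 1, ⟨by omega, by omega, ?_, ?_, fun j hj1 hj2 => by omega⟩, hz⟩
    · rcases e1.2 with h | h | h
      · omega
      · omega
      · exact h
    · rcases e2.2 with h | h | h
      · omega
      · exact Or.inr h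
      · exact Or.inl h
  · have hok := oo_lt b k hk1
    rw [Tri_eq] at hT
    obtain ⟨e1, e2⟩ := edge_endpoints N a hN (by omega) (V := {oo b k, k, k + 1}) (by
      rintro j (rfl | rfl | rfl) <;> omega) hT h0 h1 h2
    rw [hnx] at e2
    have hcase : k = a ∨ (k = a + 1 ∧ oo b k = a) := by
      simp only [mem_insert_iff, mem_singleton_iff] at e1 e2
      omega
    rcases hcase with rfl | ⟨rfl, h3⟩
    · exact Or.inl ⟨hb, rfl⟩
    · exact Or.inr ⟨hb, oo_succ_eq b a ha h3, hkN, rfl⟩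

lemma edge_zero (N : ℕ) (b : ℕ → Bool) (hN : 2 ≤ N) (hb1 : b 1 = false) (τ : Bool)
    {z : ℂ} (h0 : FF N 0 (nx N 0) z = 0)
    (h1 : z ≠ vv N 0) (h2 : z ≠ vv N (nx N 0)) {g : ℂ ≃ᵢ ℂ} (h : Fr N b τ z g) :
    (τ = false ∧ g = IsometryEquiv.refl ℂ) ∨ (τ = true ∧ g = gg N b 1) := by
  have hnx := nx_lt N 0 (by omega)
  rcases h with ⟨hK, rfl⟩ | ⟨k, hk1, hkN, hb, hT, rfl⟩
  · rw [KK_eq] at hK
    obtain ⟨e1, e2⟩ := edge_endpoints N 0 hN (by omega) (fun j hj => hj.1) hK h0 h1 h2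
    rw [hnx] at e2
    left
    rcases e2.2 with h | h | h
    · omega
    · omega
    · rw [zero_add, hb1] at h
      subst h
      exact ⟨rfl, by simp [kf]⟩
  · have hok := oo_lt b k hk1
    rw [Tri_eq] at hT
    obtain ⟨e1, e2⟩ := edge_endpoints N 0 hN (by omega) (V := {oo b k, k, k + 1}) (by
      rintro j (rfl | rfl | rfl) <;> omega) hT h0 h1 h2
    rw [hnx] at e2
    have hcase : k = 1 := by
      simp only [mem_insert_iff, mem_singleton_iff] at e1 e2
      omega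
    subst hcase
    right
    rw [hb1] at hb
    exact ⟨by revert hb; cases τ <;> simp, rfl⟩

lemma edge_last (N : ℕ) (b : ℕ → Bool) (hN : 2 ≤ N) (hb0 : b 0 = true) (hb1 : b 1 = false)
    (hS : ∃ j, 1 ≤ j ∧ j < N ∧ b j = true) (τ : Bool)
    {z : ℂ} (h0 : FF N N (nx N N) z = 0)
    (h1 : z ≠ vv N N) (h2 : z ≠ vv N (nx N N)) {g : ℂ ≃ᵢ ℂ} (h : Fr N b τ z g) :
    g = kf N τ := by
  rcases h with ⟨hK, rfl⟩ | ⟨k, hk1, hkN, hb, hT, rfl⟩
  · rfl
  · exfalso
    have hok := oo_lt b k hk1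
    rw [Tri_eq] at hT
    obtain ⟨e1, e2⟩ := edge_endpoints N N hN le_rfl (V := {oo b k, k, k + 1}) (by
      rintro j (rfl | rfl | rfl) <;> omega) hT h0 h1 h2
    rw [nx_last] at e2
    have hcase : k + 1 = N ∧ oo b k = 0 := by
      simp only [mem_insert_iff, mem_singleton_iff] at e1 e2
      omega
    obtain ⟨j, hj1, hj2, hj3⟩ := hS
    have h01 : b 1 ≠ b 0 := by rw [hb0, hb1]; simp
    have hsp := (oo_spec b h01 k hk1).2
    rw [hcase.2] at hsp
    have e3 := hsp 1 (by omega) (by omega)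
    have e4 := hsp j (by omega) (by omega)
    rw [hb1] at e3
    rw [hj3, ← e3] at e4
    simp at e4

/-- compatibility of frames across the frontier -/
lemma compat_opp (N : ℕ) (b : ℕ → Bool) (hN : 2 ≤ N) (hb0 : b 0 = true) (hb1 : b 1 = false)
    (hS : ∃ j, 1 ≤ j ∧ j < N ∧ b j = true) (σ : Bool) {z : ℂ} (hz : z ∈ frontier (PP N))
    {g g' : ℂ ≃ᵢ ℂ} (h : Fr N b σ z g) (h' : Fr N b (!σ) z g') (hc : ¬ Cut N b σ z)
    (hc' : ¬ Cut N b (!σ) z) :
    ∃ a ≤ N, z ∈ segment ℝ (vv N a) (vv N (nx N a)) ∧ FF N a (nx N a) z = 0 ∧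
      z ≠ vv N a ∧ z ≠ vv N (nx N a) ∧ ∀ x, g' x = g (re N a x) := by
  have h01 : b 1 ≠ b 0 := by rw [hb0, hb1]; simp
  obtain ⟨a, ha, hseg, h0⟩ := frontier_edge N hN hz
  have hnv : ∀ j ≤ N, z ≠ vv N j := by
    rintro j hj rfl
    obtain ⟨τ, hτ⟩ := vertex_cut N b (by omega) j hj
    rcases Bool.eq_or_eq_not τ σ with h | h
    · subst h; exact hc hτ
    · subst h; exact hc' hτ
  have hnxN : nx N a ≤ N := by
    rcases ha.lt_or_eq with h | h
    · rw [nx_lt N a h]; omega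
    · rw [h, nx_last]; omega
  have h1 := hnv a ha
  have h2 := hnv _ hnxN
  refine ⟨a, ha, hseg, h0, h1, h2, ?_⟩
  rcases ha.lt_or_eq with haN | haN
  · rcases Nat.eq_zero_or_pos a with ha0 | ha0
    · -- edge 0 1
      subst ha0
      have hg1 : ∀ x, gg N b 1 x = re N 0 x := by
        intro x
        rw [gg_one N b h01, re, nx_lt N 0 (by omega)]
      rcases edge_zero N b hN hb1 σ h0 h1 h2 h with ⟨e1, e2⟩ | ⟨e1, e2⟩
      · rcases edge_zero N b hN hb1 (!σ) h0 h1 h2 h' with ⟨e3, e4⟩ | ⟨e3, e4⟩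
        · rw [e1] at e3; simp at e3
        · intro x
          rw [e2, e4, hg1]
          rfl
      · rcases edge_zero N b hN hb1 (!σ) h0 h1 h2 h' with ⟨e3, e4⟩ | ⟨e3, e4⟩
        · intro x
          rw [e2, e4, hg1, re_re]
          rfl
        · rw [e1] at e3; simp at e3
    · have hnx := nx_lt N a haN
      have hgs : b (a + 1) ≠ b a → ∀ x, gg N b (a + 1) x = gg N b a (re N a x) := by
        intro hne x
        rw [re, hnx]
        simp only [gg, hne, if_false]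
        rfl
      rcases edge_mid N b hN a ha0 haN σ hseg h0 h1 h2 h hc with ⟨e1, e2⟩ | ⟨e1, e5, e6, e2⟩
      · rcases edge_mid N b hN a ha0 haN (!σ) hseg h0 h1 h2 h' hc' with ⟨e3, e4⟩ | ⟨e3, e7, e8, e4⟩
        · exfalso
          revert e1 e3; cases b a <;> cases σ <;> simp
        · intro x
          rw [e2, e4, hgs e7]
      · rcases edge_mid N b hN a ha0 haN (!σ) hseg h0 h1 h2 h' hc' with ⟨e3, e4⟩ | ⟨e3, e7, e8, e4⟩
        · intro x
          rw [e2, e4, hgs e5, re_re]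
        · exfalso
          revert e1 e3; cases b (a + 1) <;> cases σ <;> simp
  · subst haN
    have e1 := edge_last a b hN hb0 hb1 hS σ h0 h1 h2 h
    have e2 := edge_last a b hN hb0 hb1 hS (!σ) h0 h1 h2 h'
    intro x
    have hre : re a a = rCA a := by rw [re, nx_last]; rfl
    rw [e1, e2, hre]
    cases σ
    · rfl
    · exact (rho_rho _ _ _).symm

end Unf
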