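import Pool.Agent.Lib.Unf.Cong

/-! The cut paths as lists. -/

namespace Unf

open Complex Set Topology Filter

section lists

variable {α : Type*} [LinearOrder α]

lemma pair_of_infix {l : List α} (h : l.Pairwise (· < ·)) {a c : α} (hi : [a, c] <:+: l) :
    a < c ∧ a ∈ l ∧ c ∈ l ∧ ∀ x ∈ l, ¬ (a < x ∧ x < c) := by
  obtain ⟨s, t, rfl⟩ := hi
  rw [List.append_assoc, List.pairwise_append] at h
  obtain ⟨_, h2, h3⟩ := h
  simp only [List.cons_append, List.nil_append, List.pairwise_cons, List.mem_cons] at h2 h3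
  refine ⟨h2.1 c (Or.inl rfl), by simp, by simp, ?_⟩
  intro x hx ⟨h4, h5⟩
  simp only [List.append_assoc, List.cons_append, List.nil_append, List.mem_append,
    List.mem_cons] at hx
  rcases hx with hx | rfl | rfl | hx
  · exact absurd (h3 x hx a (Or.inl rfl)) (not_lt.mpr h4.le)
  · exact lt_irrefl _ h4
  · exact lt_irrefl _ h5
  · exact absurd (h2.2.1 x hx) (not_lt.mpr h5.le)

lemma infix_of_pair {l : List α} (h : l.Pairwise (· < ·)) {a c : α} (hac : a < c) (ha : a ∈ l)
    (hc : c ∈ l) (hno : ∀ x ∈ l, ¬ (a < x ∧ x < c)) : [a, c] <:+: l := by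
  obtain ⟨s, t, rfl⟩ := List.append_of_mem ha
  rw [List.pairwise_append] at h
  obtain ⟨_, h2, h3⟩ := h
  rw [List.pairwise_cons] at h2
  have hct : c ∈ t := by
    rw [List.mem_append, List.mem_cons] at hc
    rcases hc with hc | hc | hc
    · exact absurd (h3 c hc a (by simp)) (not_lt.mpr hac.le)
    · exact absurd hac (by rw [hc]; exact lt_irrefl _)
    · exact hc
  cases t with
  | nil => simp at hct
  | cons y t =>
    have hay : a < y := h2.1 y (by simp)
    have hyc : ¬ y < c := fun hh => hno y (by simp) ⟨hay, hh⟩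
    have : c = y := by
      rw [List.mem_cons] at hct
      rcases hct with hct | hct
      · exact hct
      · rw [List.pairwise_cons] at h2
        exact absurd (h2.2.1 c hct) hyc
    subst this
    exact ⟨s, t, by simp⟩

lemma pair_infix_append {X Z : List α} {a c : α} (h : [a, c] <:+: X ++ Z) :
    [a, c] <:+: X ∨ [a, c] <:+: Z ∨ ((∃ X', X = X' ++ [a]) ∧ ∃ Z', Z = c :: Z') := by
  induction X with
  | nil => exact Or.inr (Or.inl h)
  | cons x X ih =>
    rw [List.cons_append, List.infix_cons_iff] at h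
    rcases h with h | h
    · rw [List.cons_prefix_cons] at h
      obtain ⟨rfl, h⟩ := h
      cases X with
      | nil =>
        right; right
        rw [List.nil_append] at h
        cases Z with
        | nil => simp at h
        | cons z Z =>
          rw [List.cons_prefix_cons] at h
          obtain ⟨rfl, _⟩ := h
          exact ⟨⟨[], rfl⟩, ⟨Z, rfl⟩⟩
      | cons y X =>
        rw [List.cons_append, List.cons_prefix_cons] at h
        obtain ⟨rfl, _⟩ := h
        left
        exact ⟨[], X, by simp⟩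
    · rcases ih h with h' | h' | ⟨⟨X', h'⟩, h''⟩
      · left
        exact List.infix_cons h'
      · exact Or.inr (Or.inl h')
      · right; right
        exact ⟨⟨x :: X', by rw [h']; rfl⟩, h''⟩

lemma last_of_max {l : List α} (h : l.Pairwise (· < ·)) {a : α} (ha : a ∈ l)
    (hmax : ∀ x ∈ l, x ≤ a) : ∃ l', l = l' ++ [a] := by
  obtain ⟨s, t, rfl⟩ := List.append_of_mem ha
  rw [List.pairwise_append] at h
  obtain ⟨_, h2, _⟩ := h
  rw [List.pairwise_cons] at h2
  cases t with
  | nil => exact ⟨s, rfl⟩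
  | cons y t =>
    have h4 := h2.1 y (by simp)
    have h5 := hmax y (by simp)
    exact absurd h4 (not_lt.mpr h5)

lemma max_of_last {l l' : List α} {a : α} (h : l.Pairwise (· < ·)) (hl : l = l' ++ [a]) :
    ∀ x ∈ l, x ≤ a := by
  subst hl
  rw [List.pairwise_append] at h
  intro x hx
  rw [List.mem_append, List.mem_singleton] at hx
  rcases hx with hx | rfl
  · exact (h.2.2 x hx a (by simp)).le
  · exact le_rfl

end lists

/-- vertex map -/
noncomputable def vf (N : ℕ) (i : Fin (N + 1)) : ℂ := vv N i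

lemma range_vf (N : ℕ) : Set.range (vf N) = vv N '' {j | j ≤ N} := by
  ext z
  constructor
  · rintro ⟨i, rfl⟩
    exact ⟨i, Nat.lt_succ_iff.mp i.2, rfl⟩
  · rintro ⟨j, hj, rfl⟩
    exact ⟨⟨j, Nat.lt_succ_of_le hj⟩, rfl⟩

lemma hull_vf (N : ℕ) : convexHull ℝ (Set.range (vf N)) = PP N := by
  rw [range_vf]; rfl

/-- front part of the path -/
def XL (N : ℕ) (b : ℕ → Bool) : List (Fin (N + 1)) :=
  (List.finRange (N + 1)).filter (fun i => b i || ((i : ℕ) == N))

/-- back part of the path, in increasing order -/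
def YL (N : ℕ) (b : ℕ → Bool) : List (Fin (N + 1)) :=
  (List.finRange (N + 1)).filter (fun i => !(b i || ((i : ℕ) == N)))

lemma mem_XL (N : ℕ) (b : ℕ → Bool) (i : Fin (N + 1)) :
    i ∈ XL N b ↔ (b i = true ∨ (i : ℕ) = N) := by
  simp [XL]

lemma mem_YL (N : ℕ) (b : ℕ → Bool) (i : Fin (N + 1)) :
    i ∈ YL N b ↔ (b i = false ∧ (i : ℕ) ≠ N) := by
  simp [YL]

lemma finRange_sorted (n : ℕ) : (List.finRange n).Pairwise (· < ·) := List.pairwise_lt_finRange n

lemma XL_sorted (N : ℕ) (b : ℕ → Bool) : (XL N b).Pairwise (· < ·) :=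
  (finRange_sorted _).filter _

lemma YL_sorted (N : ℕ) (b : ℕ → Bool) : (YL N b).Pairwise (· < ·) :=
  (finRange_sorted _).filter _

/-- the whole path -/
def path (N : ℕ) (b : ℕ → Bool) : List (Fin (N + 1)) := XL N b ++ (YL N b).reverse

/-- faces of the arcs -/
def sd (N : ℕ) (b : ℕ → Bool) (i : Fin (N + 1)) : Bool := b i && !((i : ℕ) == N)

lemma sd_last (N : ℕ) (b : ℕ → Bool) (i : Fin (N + 1)) (h : (i : ℕ) = N) : sd N b i = false := by
  simp [sd, h]

lemma sd_other (N : ℕ) (b : ℕ → Bool) (i : Fin (N + 1)) (h : (i : ℕ) ≠ N) : sd N b i = b i := by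
  simp [sd, h]

lemma arc_NB (N : ℕ) (b : ℕ → Bool) (a c : Fin (N + 1)) (h : [a, c] <:+: path N b) :
    (sd N b a = true ∧ NB N b true a c) ∨ (sd N b a = false ∧ NB N b false c a) := by
  rcases pair_infix_append h with h | h | ⟨⟨X', hX⟩, ⟨Z', hZ⟩⟩
  · left
    obtain ⟨h1, h2, h3, h4⟩ := pair_of_infix (XL_sorted N b) h
    rw [mem_XL] at h2 h3
    have h1' : (a : ℕ) < c := h1
    have hc : (c : ℕ) ≤ N := Nat.lt_succ_iff.mp c.2
    have ha : b a = true := by
      rcases h2 with h2 | h2
      · exact h2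
      · omega
    refine ⟨by rw [sd_other N b a (by omega), ha], h1', hc, ha, h3, ?_⟩
    intro j hj1 hj2 hj3
    exact h4 ⟨j, by omega⟩ ((mem_XL N b _).mpr (Or.inl hj3)) ⟨hj1, hj2⟩
  · right
    have h' : [c, a] <:+: YL N b := by
      have := List.reverse_infix.mpr h
      simpa using this
    obtain ⟨h1, h2, h3, h4⟩ := pair_of_infix (YL_sorted N b) h'
    rw [mem_YL] at h2 h3
    have h1' : (c : ℕ) < a := h1
    have ha : (a : ℕ) ≤ N := Nat.lt_succ_iff.mp a.2
    refine ⟨by rw [sd_other N b a h3.2, h3.1], h1', ha, h2.1, Or.inl h3.1, ?_⟩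
    intro j hj1 hj2 hj3
    exact h4 ⟨j, by omega⟩ ((mem_YL N b _).mpr ⟨hj3, by simp only; omega⟩) ⟨hj1, hj2⟩
  · right
    have hmax := max_of_last (XL_sorted N b) hX
    have haN : (a : ℕ) = N := by
      have h1 := hmax ⟨N, by omega⟩ ((mem_XL N b _).mpr (Or.inr rfl))
      have h2 : N ≤ (a : ℕ) := h1
      have := a.2
      omega
    have hY : YL N b = Z'.reverse ++ [c] := by
      have := congrArg List.reverse hZ
      simpa using this
    have hmaxY := max_of_last (YL_sorted N b) hY
    have hcY : c ∈ YL N b := by rw [hY]; simp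
    rw [mem_YL] at hcY
    have hc : (c : ℕ) ≤ N := Nat.lt_succ_iff.mp c.2
    refine ⟨sd_last N b a haN, by omega, by omega, hcY.1, Or.inr haN, ?_⟩
    intro j hj1 hj2 hj3
    have h5 := hmaxY ⟨j, by omega⟩ ((mem_YL N b _).mpr ⟨hj3, by simp only; omega⟩)
    have h6 : j ≤ (c : ℕ) := h5
    omega

lemma NB_arc_true (N : ℕ) (b : ℕ → Bool) (a c : Fin (N + 1)) (h : NB N b true a c) :
    [a, c] <:+: path N b ∧ sd N b a = true := by
  obtain ⟨h1, h2, h3, h4, h5⟩ := h
  refine ⟨?_, by rw [sd_other N b a (by omega), h3]⟩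
  have : [a, c] <:+: XL N b := by
    apply infix_of_pair (XL_sorted N b) (show a < c from h1)
      ((mem_XL N b a).mpr (Or.inl h3)) ((mem_XL N b c).mpr h4)
    intro x hx ⟨hx1, hx2⟩
    rw [mem_XL] at hx
    have hx1' : (a : ℕ) < x := hx1
    have hx2' : (x : ℕ) < c := hx2
    rcases hx with hx | hx
    · exact h5 x hx1' hx2' hx
    · omega
  exact this.trans (List.infix_append' [] _ _)

lemma NB_arc_false (N : ℕ) (b : ℕ → Bool) (a c : Fin (N + 1)) (h : NB N b false a c) :
    [c, a] <:+: path N b ∧ sd N b c = false := by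
  obtain ⟨h1, h2, h3, h4, h5⟩ := h
  by_cases hcN : (c : ℕ) = N
  · refine ⟨?_, sd_last N b c hcN⟩
    obtain ⟨X', hX⟩ := last_of_max (XL_sorted N b) ((mem_XL N b c).mpr (Or.inr hcN)) (by
      intro x _
      show (x : ℕ) ≤ c
      have := x.2
      omega)
    obtain ⟨Y', hY⟩ := last_of_max (YL_sorted N b) ((mem_YL N b a).mpr ⟨h3, by omega⟩) (by
      intro x hx
      show (x : ℕ) ≤ a
      rw [mem_YL] at hx
      by_contra hh
      push Not at hh
      have := x.2
      exact h5 x hh (by omega) hx.1)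
    refine ⟨X', Y'.reverse, ?_⟩
    rw [path, hX, hY]
    simp
  · have hbc : b c = false := by
      rcases h4 with h4 | h4
      · exact h4
      · exact absurd h4 hcN
    refine ⟨?_, by rw [sd_other N b c hcN, hbc]⟩
    have : [a, c] <:+: YL N b := by
      apply infix_of_pair (YL_sorted N b) (show a < c from h1)
        ((mem_YL N b a).mpr ⟨h3, by omega⟩) ((mem_YL N b c).mpr ⟨hbc, hcN⟩)
      intro x hx ⟨hx1, hx2⟩
      rw [mem_YL] at hx
      exact h5 x hx1 hx2 hx.1
    have h6 := List.reverse_infix.mpr this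
    have h7 : [c, a] <:+: (YL N b).reverse := by simpa using h6
    exact h7.trans ⟨XL N b, [], by simp [path]⟩

lemma path_nodup (N : ℕ) (b : ℕ → Bool) : (path N b).Nodup := by
  rw [path, List.nodup_append]
  refine ⟨(XL_sorted N b).imp (fun h => h.ne), ?_, ?_⟩
  · rw [List.nodup_reverse]
    exact (YL_sorted N b).imp (fun h => h.ne)
  · intro x hx y hy he
    subst he
    rw [List.mem_reverse, mem_YL] at hy
    rw [mem_XL] at hx
    rcases hx with hx | hx
    · rw [hy.1] at hx; simp at hx
    · exact hy.2 hx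

lemma path_complete (N : ℕ) (b : ℕ → Bool) (i : Fin (N + 1)) : i ∈ path N b := by
  rw [path, List.mem_append, List.mem_reverse, mem_XL, mem_YL]
  by_cases h : (i : ℕ) = N
  · exact Or.inl (Or.inr h)
  · cases hb : b i
    · exact Or.inr ⟨rfl, h⟩
    · exact Or.inl (Or.inl rfl)

/-- segments of one chain meet only in a common vertex -/
lemma chain_meet (N : ℕ) (b : ℕ → Bool) (hN : 2 ≤ N) (σ : Bool) (l h l' h' : ℕ)
    (h1 : NB N b σ l h) (h2 : NB N b σ l' h') (hll : l < l') {z : ℂ}
    (hz : z ∈ segment ℝ (vv N l) (vv N h)) (hz' : z ∈ segment ℝ (vv N l') (vv N h')) :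
    h = l' ∧ z = vv N h := by
  obtain ⟨a1, a2, a3, a4, a5⟩ := h1
  obtain ⟨b1, b2, b3, b4, b5⟩ := h2
  have hl' : h ≤ l' := by
    by_contra hh
    push Not at hh
    exact a5 l' hll hh b3
  have hzh : z ∈ HV N {l, h} := by
    rw [HV, image_pair, convexHull_pair]; exact hz
  have hzh' : z ∈ HV N {l', h'} := by
    rw [HV, image_pair, convexHull_pair]; exact hz'
  have f1 : FF N 0 h z ≤ 0 := by
    refine HV_nonpos N 0 h ?_ hzh
    rintro j (rfl | rfl)
    · exact (FF_nonpos N 0 h _ hN (by omega) (by omega) (by omega)).1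
    · exact (FF_nonpos N 0 _ _ hN (by omega) (by omega) (by omega)).1
  have f2 := HV_face N 0 h (V := {l', h'}) (by
    rintro j (rfl | rfl)
    · exact (FF_nonneg N 0 h _ hN (by omega) (by omega) (by omega) (Or.inr (by omega))).1
    · exact (FF_nonneg N 0 h _ hN (by omega) (by omega) (by omega) (Or.inr (by omega))).1) hzh'
  have h0 : FF N 0 h z = 0 := le_antisymm f1 f2.1
  have h3 := f2.2 h0
  have h4 : ∀ j ∈ {j ∈ ({l', h'} : Set ℕ) | FF N 0 h (vv N j) = 0}, j = h ∧ j = l' := by
    rintro j ⟨hj, hj2⟩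
    have hj' : l' ≤ j ∧ j ≤ N ∧ (j = l' ∨ l' < j) := by
      rcases hj with rfl | rfl
      · exact ⟨le_rfl, by omega, Or.inl rfl⟩
      · exact ⟨by omega, by omega, Or.inr (by omega)⟩
    rcases (FF_nonneg N 0 h j hN (by omega) (by omega) hj'.2.1 (Or.inr (by omega))).2 hj2 with h5 | h5
    · omega
    · refine ⟨h5, ?_⟩
      omega
  have hzv : z = vv N h := HV_single N h (fun j hj => (h4 j hj).1) h3
  refine ⟨?_, hzv⟩
  by_contra hne
  have : {j ∈ ({l', h'} : Set ℕ) | FF N 0 h (vv N j) = 0} = ∅ := by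
    ext j
    simp only [mem_empty_iff_false, iff_false]
    intro hj
    obtain ⟨e1, e2⟩ := h4 j hj
    exact hne (e1.symm.trans e2)
  rw [this, HV] at h3
  simp at h3

/-- a surface point on both chains is the last vertex -/
lemma cross_meet (N : ℕ) (b : ℕ → Bool) (hN : 2 ≤ N) (l h l' h' : ℕ)
    (h1 : NB N b true l h) (h2 : NB N b false l' h') {z : ℂ}
    (hz : z ∈ segment ℝ (vv N l) (vv N h)) (hz' : z ∈ segment ℝ (vv N l') (vv N h'))
    (hf : z ∈ frontier (PP N)) : h = N ∧ h' = N ∧ z = vv N N := by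
  obtain ⟨a1, a2, a3, a4, a5⟩ := h1
  obtain ⟨b1, b2, b3, b4, b5⟩ := h2
  have hzh : z ∈ HV N {l, h} := by
    rw [HV, image_pair, convexHull_pair]; exact hz
  have hzh' : z ∈ HV N {l', h'} := by
    rw [HV, image_pair, convexHull_pair]; exact hz'
  have common : ∀ k, k ∈ ({l, h} : Set ℕ) → k ∈ ({l', h'} : Set ℕ) → k = N ∧ h = N ∧ h' = N := by
    rintro k (rfl | rfl) (h5 | h5)
    · rw [← h5, a3] at b3; simp at b3
    · have : k = h' := h5
      rcases b4 with b4 | b4
      · rw [← this, a3] at b4; simp at b4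
      · omega
    · rcases a4 with a4 | a4
      · rw [h5, b3] at a4; simp at a4
      · omega
    · have h6 : k = h' := h5
      rcases a4 with a4 | a4
      · rcases b4 with b4 | b4
        · rw [← h6, a4] at b4; simp at b4
        · omega
      · omega
  obtain ⟨a, ha, hseg, h0⟩ := frontier_edge N hN hf
  have hV : ∀ j ∈ ({l, h} : Set ℕ), j ≤ N := by
    rintro j (rfl | rfl) <;> omega
  have hV' : ∀ j ∈ ({l', h'} : Set ℕ), j ≤ N := by
    rintro j (rfl | rfl) <;> omega
  have vert : ∀ k ≤ N, z = vv N k → h = N ∧ h' = N ∧ z = vv N N := by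
    rintro k hk rfl
    have c1 := vertex_in_hull N k hN hzh
    have c2 := vertex_in_hull N k hN hzh'
    obtain ⟨e1, e2, e3⟩ := common k c1 c2
    exact ⟨e2, e3, by rw [e1]⟩
  by_cases e1 : z = vv N a
  · exact vert a ha e1
  · by_cases e2 : z = vv N (nx N a)
    · refine vert (nx N a) ?_ e2
      rcases ha.lt_or_eq with h | h
      · rw [nx_lt N a h]; omega
      · rw [h, nx_last]; omega
    · exfalso
      obtain ⟨c1, c2⟩ := edge_endpoints N a hN ha hV hzh h0 e1 e2
      obtain ⟨c3, c4⟩ := edge_endpoints N a hN ha hV' hzh' h0 e1 e2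
      have d1 := (common a c1 c3).1
      have d2 := (common _ c2 c4).1
      rw [d1, nx_last] at d2
      omega

/-- the cut path attached to `b` -/
def cp (N : ℕ) (b : ℕ → Bool) (hN : 2 ≤ N) : CutPath (vf N) where
  verts := path N b
  side := sd N b
  nodup := path_nodup N b
  complete := path_complete N b
  simple := by
    intro a c a' c' hac hac' hne z hz w hw hs
    rw [hull_vf] at hs
    obtain ⟨hzw, hs2⟩ := hs
    simp only at hzw hs2
    subst hzw
    rcases arc_NB N b a c hac with ⟨s1, n1⟩ | ⟨s1, n1⟩ <;>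
      rcases arc_NB N b a' c' hac' with ⟨s2, n2⟩ | ⟨s2, n2⟩
    · rcases lt_trichotomy (a : ℕ) a' with h | h | h
      · obtain ⟨e1, e2⟩ := chain_meet N b hN true a c a' c' n1 n2 h hz hw
        exact Or.inl ⟨Fin.ext e1, e2⟩
      · exact absurd (Fin.ext h) hne
      · obtain ⟨e1, e2⟩ := chain_meet N b hN true a' c' a c n2 n1 h hw hz
        refine Or.inr ⟨Fin.ext e1.symm, ?_⟩
        rw [e2, e1]; rfl
    · have hf : z ∈ frontier (PP N) := by
        rcases hs2 with h | h
        · rw [s1, s2] at h; simp at h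
        · exact h
      obtain ⟨e1, e2, e3⟩ := cross_meet N b hN a c c' a' n1 n2 hz (by rw [segment_symm]; exact hw) hf
      left
      refine ⟨Fin.ext (by rw [e1, e2]), ?_⟩
      rw [e3, vf, e1]
    · have hf : z ∈ frontier (PP N) := by
        rcases hs2 with h | h
        · rw [s1, s2] at h; simp at h
        · exact h
      obtain ⟨e1, e2, e3⟩ := cross_meet N b hN a' c' c a n2 n1 hw (by rw [segment_symm]; exact hz) hf
      right
      refine ⟨Fin.ext (by rw [e1, e2]), ?_⟩
      rw [e3, vf, e2]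
    · have hz' : z ∈ segment ℝ (vv N c) (vv N a) := by rw [segment_symm]; exact hz
      have hw' : z ∈ segment ℝ (vv N c') (vv N a') := by rw [segment_symm]; exact hw
      rcases lt_trichotomy (c : ℕ) c' with h | h | h
      · obtain ⟨e1, e2⟩ := chain_meet N b hN false c a c' a' n1 n2 h hz' hw'
        exact Or.inr ⟨Fin.ext e1, e2⟩
      · -- same lower end point, hence the same arc
        exfalso
        apply hne
        apply Fin.ext
        obtain ⟨a1, a2, a3, a4, a5⟩ := n1
        obtain ⟨b1, b2, b3, b4, b5⟩ := n2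
        rcases lt_trichotomy (a : ℕ) a' with h6 | h6 | h6
        · exfalso
          rcases a4 with a4 | a4
          · exact b5 a (by omega) h6 a4
          · omega
        · exact h6
        · exfalso
          rcases b4 with b4 | b4
          · exact a5 a' (by omega) h6 b4
          · omega
      · obtain ⟨e1, e2⟩ := chain_meet N b hN false c' a' c a n2 n1 h hw' hz'
        refine Or.inl ⟨Fin.ext e1.symm, ?_⟩
        rw [e2, e1]; rfl

lemma cut_iff (N : ℕ) (b : ℕ → Bool) (hN : 2 ≤ N) (σ : Bool) (z : ℂ) : Cut N b σ z ↔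
    ∃ a c : Fin (N + 1), [a, c] <:+: (cp N b hN).verts ∧ z ∈ segment ℝ (vf N a) (vf N c) ∧
      (cp N b hN).side a = σ := by
  constructor
  · rintro ⟨a, c, hnb, hseg⟩
    have hc := hnb.2.1
    have hac := hnb.1
    cases σ
    · obtain ⟨h1, h2⟩ := NB_arc_false N b ⟨a, by omega⟩ ⟨c, by omega⟩ hnb
      exact ⟨_, _, h1, by rw [segment_symm]; exact hseg, h2⟩
    · obtain ⟨h1, h2⟩ := NB_arc_true N b ⟨a, by omega⟩ ⟨c, by omega⟩ hnb
      exact ⟨_, _, h1, hseg, h2⟩
  · rintro ⟨a, c, h1, h2, h3⟩
    rcases arc_NB N b a c h1 with ⟨s1, n1⟩ | ⟨s1, n1⟩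
    · have : σ = true := by rw [← h3]; exact s1
      subst this
      exact ⟨a, c, n1, h2⟩
    · have : σ = false := by rw [← h3]; exact s1
      subst this
      exact ⟨c, a, n1, by rw [segment_symm]; exact h2⟩

/-- the cut set of the path -/
lemma cutSet_eq (N : ℕ) (b : ℕ → Bool) (hN : 2 ≤ N) : (cp N b hN).cutSet = Gam N b := by
  ext ⟨z, σ⟩
  simp only [CutPath.cutSet, Gam, mem_ofPred_eq]
  rw [cut_iff N b hN, cut_iff N b hN]
  constructor
  · rintro ⟨a, c, h1, w, hw, hs⟩
    rw [hull_vf] at hs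
    obtain ⟨e1, e2⟩ := hs
    simp only at e1 e2
    subst e1
    rcases Bool.eq_or_eq_not ((cp N b hN).side a) σ with h | h
    · exact Or.inl ⟨a, c, h1, hw, h⟩
    · right
      refine ⟨?_, a, c, h1, hw, h⟩
      rcases e2 with e2 | e2
      · rw [← e2] at h; simp at h
      · exact e2
  · rintro (⟨a, c, h1, h2, h3⟩ | ⟨hf, a, c, h1, h2, h3⟩)
    · exact ⟨a, c, h1, z, h2, rfl, Or.inl h3.symm⟩
    · exact ⟨a, c, h1, z, h2, rfl, Or.inr (by rw [hull_vf]; exact hf)⟩

/-- adjacency in the combinatorial tree -/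
lemma tree_adj (N : ℕ) (b : ℕ → Bool) (hN : 2 ≤ N) (a c : Fin (N + 1)) (hac : a < c) :
    (cp N b hN).tree.Adj a c ↔ NB N b true a c ∨ NB N b false a c := by
  have hac' : (a : ℕ) < c := hac
  simp only [CutPath.tree, SimpleGraph.fromRel_adj]
  constructor
  · rintro ⟨_, h | h⟩
    · rcases arc_NB N b a c h with ⟨_, n⟩ | ⟨_, n⟩
      · exact Or.inl n
      · have := n.1; omega
    · rcases arc_NB N b c a h with ⟨_, n⟩ | ⟨_, n⟩
      · have := n.1; omega
      · exact Or.inr n
  · rintro (h | h)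
    · exact ⟨hac.ne, Or.inl (NB_arc_true N b a c h).1⟩
    · exact ⟨hac.ne, Or.inr (NB_arc_false N b a c h).1⟩

/-- the tree determines the coding -/
lemma tree_code (N : ℕ) (b b' : ℕ → Bool) (hN : 2 ≤ N) (hb : b 0 = true) (hb' : b' 0 = true)
    (h1 : b 1 = b' 1) (h : (cp N b hN).tree = (cp N b' hN).tree) : ∀ j, j < N → b j = b' j := by
  have key : ∀ b b' : ℕ → Bool, b 0 = true → (∀ a c : Fin (N + 1), a < c →
      (NB N b true a c ∨ NB N b false a c) → (NB N b' true a c ∨ NB N b' false a c)) →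
      ∀ j, 2 ≤ j → j < N → (∀ i, i < j → b i = b' i) → b j = true → b' j = true := by
    intro b b' hb h j hj hjN hlt hbj
    -- last front index before j
    have hex : ∃ a, a < j ∧ b a = true ∧ ∀ i, a < i → i < j → b i ≠ true := by
      classical
      have hne : ((Finset.range j).filter (fun i => b i = true)).Nonempty :=
        ⟨0, by simp [hb]; omega⟩
      refine ⟨((Finset.range j).filter (fun i => b i = true)).max' hne, ?_, ?_, ?_⟩
      · have := Finset.max'_mem _ hne
        rw [Finset.mem_filter, Finset.mem_range] at this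
        exact this.1
      · have := Finset.max'_mem _ hne
        rw [Finset.mem_filter] at this
        exact this.2
      · intro i hi1 hi2 hi3
        have := Finset.le_max' ((Finset.range j).filter (fun i => b i = true)) i
          (by rw [Finset.mem_filter, Finset.mem_range]; exact ⟨hi2, hi3⟩)
        omega
    obtain ⟨a, ha, hba, hno⟩ := hex
    have hNB : NB N b true a j := ⟨ha, by omega, hba, Or.inl hbj, hno⟩
    rcases h ⟨a, by omega⟩ ⟨j, by omega⟩ ha (Or.inl hNB) with h5 | h5
    · rcases h5.2.2.2.1 with h6 | h6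
      · exact h6
      · simp only at h6; omega
    · have h6 := h5.2.2.1
      simp only at h6
      rw [← hlt a ha, hba] at h6
      simp at h6
  have adj : ∀ a c : Fin (N + 1), a < c →
      ((NB N b true a c ∨ NB N b false a c) ↔ (NB N b' true a c ∨ NB N b' false a c)) := by
    intro a c hac
    rw [← tree_adj N b hN a c hac, ← tree_adj N b' hN a c hac, h]
  intro j
  induction j using Nat.strong_induction_on with
  | _ j ih =>
    intro hjN
    rcases Nat.lt_or_ge j 2 with h2 | h2
    · rcases Nat.lt_or_ge j 1 with h3 | h3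
      · have : j = 0 := by omega
        subst this; rw [hb, hb']
      · have : j = 1 := by omega
        subst this; exact h1
    · have hlt : ∀ i, i < j → b i = b' i := fun i hi => ih i hi (by omega)
      cases hbj : b j
      · cases hbj' : b' j
        · rfl
        · have := key b' b hb' (fun a c hac hh => (adj a c hac).mpr hh) j h2 hjN
            (fun i hi => (hlt i hi).symm) hbj'
          rw [hbj] at this; exact this
      · have := key b b' hb (fun a c hac hh => (adj a c hac).mp hh) j h2 hjN hlt hbj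
        exact this.symm

/-- the polygon is a convex polygon with `N + 1` vertices -/
lemma ngon (N : ℕ) (hN : 2 ≤ N) : IsConvexNGon (vf N) := by
  refine ⟨?_, ?_, ?_⟩
  · intro i j h
    exact Fin.ext (vv_inj N hN i j h)
  · intro i
    rw [hull_vf, mem_extremePoints]
    have hi : (i : ℕ) ≤ N := Nat.lt_succ_iff.mp i.2
    refine ⟨vv_mem_HV N hi, ?_⟩
    rintro x hx y hy ⟨p, q, hp, hq, hpq, he⟩
    have tx := tangent_hull N i hN hx
    have ty := tangent_hull N i hN hy
    have hc := cr_comb (DD (tt N i)) (vv N i) x y p q hpq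
    rw [he, vf, sub_self, cr_zero_right] at hc
    constructor
    · apply (tx.2 _).1
      nlinarith [mul_nonneg hp.le (neg_nonneg.mpr tx.1), mul_nonneg hq.le (neg_nonneg.mpr ty.1)]
    · apply (ty.2 _).1
      nlinarith [mul_nonneg hp.le (neg_nonneg.mpr tx.1), mul_nonneg hq.le (neg_nonneg.mpr ty.1)]
  · rw [hull_vf]
    have h1 := ori N 0 1 N hN (by omega) (by omega) le_rfl
    refine (tri_int_nonempty h1).mono (interior_mono (convexHull_mono ?_))
    rintro x (rfl | rfl | rfl)
    · exact ⟨0, by simp, rfl⟩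
    · exact ⟨1, by simp; omega, rfl⟩
    · exact ⟨N, by simp, rfl⟩

end Unf
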