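import Pool.Agent.Lib.Unf.Conv

/-! The pieces of the doubly covered polygon and their frames. -/

namespace Unf

open Complex Set

/-- parameters of the vertices -/
noncomputable def tt (N : ℕ) : ℕ → ℝ
  | 0 => -(8 : ℝ) ^ (N - 1)
  | (i + 1) => (8 : ℝ) ^ (N - 1) / 8 ^ i

/-- vertices of the polygon, `0 ≤ i ≤ N` -/
noncomputable def vv (N i : ℕ) : ℂ := pp (tt N i)

/-- the far end point of the exposed edge -/
def oo (b : ℕ → Bool) : ℕ → ℕ
  | 0 => 0
  | (i + 1) => if b (i + 1) = b i then oo b i else i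

/-- frames -/
noncomputable def gg (N : ℕ) (b : ℕ → Bool) : ℕ → (ℂ ≃ᵢ ℂ)
  | 0 => IsometryEquiv.refl ℂ
  | (i + 1) => if b (i + 1) = b i then gg N b i
      else (rho (vv N i) (tt N i + tt N (i + 1))).trans (gg N b i)

/-- the triangles of the strip -/
noncomputable def Tri (N : ℕ) (b : ℕ → Bool) (i : ℕ) : Set ℂ :=
  convexHull ℝ {vv N (oo b i), vv N i, vv N (i + 1)}

/-- index set of the central piece on face `σ` -/
def KI (N : ℕ) (b : ℕ → Bool) (σ : Bool) : Set ℕ := {j | j ≤ N ∧ (j = 0 ∨ j = N ∨ b j = σ)}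

/-- central piece on face `σ` -/
noncomputable def KK (N : ℕ) (b : ℕ → Bool) (σ : Bool) : Set ℂ :=
  convexHull ℝ (vv N '' KI N b σ)

/-- reflection in the edge from the last vertex to vertex `0` -/
noncomputable def rCA (N : ℕ) : ℂ ≃ᵢ ℂ := rho (vv N N) (tt N N + tt N 0)

/-- developed set before adding triangle `i` -/
def WW (N : ℕ) (b : ℕ → Bool) (i : ℕ) : Set ℂ :=
  {w | w ∈ KK N b false ∨ (∃ z ∈ KK N b true, w = rCA N z) ∨
    ∃ j, 1 ≤ j ∧ j < i ∧ ∃ z ∈ Tri N b j, w = gg N b j z}

/-! parameters -/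

lemma tt_one (N : ℕ) : tt N 1 = 8 ^ (N - 1) := by simp [tt]

lemma tt_zero (N : ℕ) : tt N 0 = - tt N 1 := by simp [tt]

lemma tt_succ (N i : ℕ) (hi : 1 ≤ i) : tt N i = 8 * tt N (i + 1) := by
  obtain ⟨j, rfl⟩ := Nat.exists_eq_add_of_le' hi
  simp only [tt, pow_succ]
  field_simp

lemma tt_pos (N i : ℕ) (hi : 1 ≤ i) : 0 < tt N i := by
  obtain ⟨j, rfl⟩ := Nat.exists_eq_add_of_le' hi
  simp only [tt]
  positivity

lemma tt_last (N : ℕ) (hN : 1 ≤ N) : tt N N = 1 := by
  obtain ⟨j, rfl⟩ := Nat.exists_eq_add_of_le' hN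
  simp [tt]

lemma tt_anti (N i k : ℕ) (hi : 1 ≤ i) : tt N (i + k) * 8 ^ k = tt N i := by
  induction k with
  | zero => simp
  | succ k ih =>
    rw [← ih, tt_succ N (i + k) (by omega), pow_succ]
    ring_nf

lemma tt_ge_one (N i : ℕ) (hi : 1 ≤ i) (hiN : i ≤ N) : 1 ≤ tt N i := by
  obtain ⟨k, rfl⟩ := Nat.exists_eq_add_of_le hiN
  have h := tt_anti (i + k) i k hi
  rw [tt_last (i + k) (by omega)] at h
  rw [← h, one_mul]
  exact one_le_pow₀ (by norm_num)

lemma tt_le (N i j : ℕ) (hi : 1 ≤ i) (hij : i ≤ j) : tt N j ≤ tt N i := by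
  obtain ⟨k, rfl⟩ := Nat.exists_eq_add_of_le hij
  rw [← tt_anti N i k hi]
  have h1 := tt_pos N (i + k) (by omega)
  have h2 : (1 : ℝ) ≤ 8 ^ k := one_le_pow₀ (by norm_num)
  nlinarith

lemma tt_lt (N i j : ℕ) (hi : 1 ≤ i) (hij : i < j) : 8 * tt N j ≤ tt N i := by
  rw [tt_succ N i hi]
  have := tt_le N (i + 1) j (by omega) hij
  linarith

/-! properties of `oo` -/

lemma oo_lt (b : ℕ → Bool) (i : ℕ) (hi : 1 ≤ i) : oo b i < i := by
  induction i with
  | zero => omega
  | succ i ih =>
    simp only [oo]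
    split_ifs with h
    · rcases Nat.eq_zero_or_pos i with h0 | h0
      · subst h0; simp [oo]
      · have := ih h0; omega
    · omega

lemma oo_spec (b : ℕ → Bool) (h01 : b 1 ≠ b 0) (i : ℕ) (hi : 1 ≤ i) :
    b (oo b i) ≠ b i ∧ ∀ j, oo b i < j → j ≤ i → b j = b i := by
  induction i with
  | zero => omega
  | succ i ih =>
    simp only [oo]
    split_ifs with h
    · rcases Nat.eq_zero_or_pos i with h0 | h0
      · subst h0; exact absurd h h01
      · obtain ⟨h1, h2⟩ := ih h0
        refine ⟨by rw [h]; exact h1, fun j hj1 hj2 => ?_⟩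
        rcases Nat.lt_or_ge i j with h3 | h3
        · have : j = i + 1 := by omega
          rw [this]
        · rw [h]; exact h2 j hj1 h3
    · refine ⟨fun h' => h h'.symm, fun j hj1 hj2 => ?_⟩
      have : j = i + 1 := by omega
      rw [this]

lemma gg_const (N : ℕ) (b : ℕ → Bool) (i k : ℕ) (h : ∀ j, i < j → j ≤ k → b j = b i)
    (hik : i ≤ k) : gg N b k = gg N b i := by
  induction k, hik using Nat.le_induction with
  | base => rfl
  | succ k hk ih =>
    have h1 : b (k + 1) = b k := by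
      rcases Nat.lt_or_ge i k with h2 | h2
      · rw [h (k + 1) (by omega) le_rfl, h k h2 (by omega)]
      · have : k = i := by omega
        subst this
        exact h (k + 1) (by omega) le_rfl
    simp only [gg, h1, if_true]
    exact ih (fun j hj1 hj2 => h j hj1 (by omega))

/-! the base set -/

lemma hull_ge {s : Set ℂ} {d q : ℂ} {c : ℝ} (h : ∀ x ∈ s, c ≤ cr d (x - q)) :
    ∀ w ∈ convexHull ℝ s, c ≤ cr d (w - q) := by
  have : convexHull ℝ s ⊆ {z | c ≤ cr d (z - q)} := convexHull_min h (convex_hp d q c)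
  exact fun w hw => this hw

lemma hull_le {s : Set ℂ} {d q : ℂ} {c : ℝ} (h : ∀ x ∈ s, cr d (x - q) ≤ c) :
    ∀ w ∈ convexHull ℝ s, cr d (w - q) ≤ c := by
  have : convexHull ℝ s ⊆ {z | cr d (z - q) ≤ c} := convexHull_min h (convex_hp' d q c)
  exact fun w hw => this hw

/-- the four bounds for the base set -/
lemma base_bounds (N : ℕ) (b : ℕ → Bool) (hN : 2 ≤ N) (hb1 : b 1 = false) :
    ∀ w ∈ WW N b 1, 1 ≤ w.re ∧ w.re ≤ tt N 1 ^ 2 ∧ -tt N 1 ≤ w.im ∧ w.im ≤ tt N 1 := by
  set T := tt N 1 with hT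
  have hT8 : 8 ≤ T := by
    have h1 := tt_lt N 1 2 le_rfl (by omega)
    have h2 := tt_ge_one N 2 (by omega) hN
    linarith
  have hpar : ∀ j, j ≤ N → 1 ≤ j → 1 ≤ tt N j ∧ tt N j ≤ T := fun j hj hj1 =>
    ⟨tt_ge_one N j hj1 hj, tt_le N 1 j le_rfl hj1⟩
  have hcr1 : ∀ z : ℂ, z.im = cr 1 (z - 0) := fun z => by simp [cr]
  have hcr2 : ∀ z : ℂ, z.re = - cr I (z - 0) := fun z => by simp [cr]
  intro w hw
  rcases hw with hw | ⟨z, hz, rfl⟩ | ⟨j, hj1, hj2, _⟩
  · have hv : ∀ x ∈ vv N '' KI N b false, 1 ≤ x.re ∧ x.re ≤ T ^ 2 ∧ -T ≤ x.im ∧ x.im ≤ T := by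
      rintro x ⟨j, hj, rfl⟩
      rcases Nat.eq_zero_or_pos j with h0 | h0
      · subst h0
        simp only [vv, pp_re, pp_im, tt_zero, ← hT]
        refine ⟨by nlinarith, by nlinarith, le_rfl, by linarith⟩
      · obtain ⟨h1, h2⟩ := hpar j hj.1 h0
        simp only [vv, pp_re, pp_im]
        refine ⟨by nlinarith, by nlinarith, by linarith, by linarith⟩
    refine ⟨?_, ?_, ?_, ?_⟩
    · have := hull_le (d := I) (q := 0) (c := -1) (fun x hx => by
        have := hcr2 x; linarith [(hv x hx).1]) w hw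
      have := hcr2 w; linarith
    · have := hull_ge (d := I) (q := 0) (c := -T ^ 2) (fun x hx => by
        have := hcr2 x; linarith [(hv x hx).2.1]) w hw
      have := hcr2 w; linarith
    · have := hull_ge (d := 1) (q := 0) (c := -T) (fun x hx => by
        have := hcr1 x; linarith [(hv x hx).2.2.1]) w hw
      have := hcr1 w; linarith
    · have := hull_le (d := 1) (q := 0) (c := T) (fun x hx => by
        have := hcr1 x; linarith [(hv x hx).2.2.2]) w hw
      have := hcr1 w; linarith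
  · -- reflected piece
    have hw' : rCA N z ∈ convexHull ℝ (rCA N '' (vv N '' KI N b true)) := by
      rw [← iso_hull]; exact mem_image_of_mem _ hz
    set w := rCA N z
    have hv : ∀ x ∈ rCA N '' (vv N '' KI N b true),
        1 ≤ x.re ∧ x.re ≤ T ^ 2 ∧ -T ≤ x.im ∧ x.im ≤ T := by
      rintro _ ⟨_, ⟨j, hj, rfl⟩, rfl⟩
      rcases Nat.eq_zero_or_pos j with h0 | h0
      · subst h0
        have : rCA N (vv N 0) = vv N 0 := rho_pp_fix_right _ _
        rw [this]
        simp only [vv, pp_re, pp_im, tt_zero, ← hT]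
        refine ⟨by nlinarith, by nlinarith, le_rfl, by linarith⟩
      · have hj2 : 2 ≤ j := by
          by_contra hh
          have hj1 : j = 1 := by omega
          subst hj1
          rcases hj.2 with h | h | h
          · omega
          · omega
          · rw [hb1] at h; exact absurd h (by simp)
        have h1 : 1 ≤ tt N j := tt_ge_one N j (by omega) hj.1
        have h2 : 8 * tt N j ≤ T := tt_lt N 1 j le_rfl (by omega)
        set τ := tt N j with hτ
        have r1 := rho_re (vv N N) (tt N N + tt N 0) (vv N j)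
        have r2 := rho_im (vv N N) (tt N N + tt N 0) (vv N j)
        rw [tt_last N (by omega), tt_zero, ← hT] at r1 r2
        have e : rho (vv N N) (1 + -T) (vv N j) = rCA N (vv N j) := by
          rw [rCA, tt_last N (by omega), tt_zero, ← hT]
        rw [e] at r1 r2
        have hvN : vv N N = pp 1 := by rw [vv, tt_last N (by omega)]
        rw [hvN] at r1 r2
        simp only [vv, sub_re, sub_im, pp_re, pp_im, ← hτ] at r1 r2
        set X := (rCA N (pp τ)).re with hX
        set Y := (rCA N (pp τ)).im with hY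
        have hs : (1 + -T) ^ 2 + 1 = T ^ 2 - 2 * T + 2 := by ring
        have hpos : 0 < T ^ 2 - 2 * T + 2 := by nlinarith
        rw [hs] at r1 r2
        have r1' : (X - 1) * (T ^ 2 - 2 * T + 2) =
            (τ - 1) * ((T ^ 2 - 2 * T) * (τ + 1) - 2 * (T - 1)) := by
          linear_combination r1
        have r2' : (Y - 1) * (T ^ 2 - 2 * T + 2) =
            - (τ - 1) * (2 * (T - 1) * (τ + 1) + (T ^ 2 - 2 * T)) := by
          linear_combination r2
        show 1 ≤ X ∧ X ≤ T ^ 2 ∧ -T ≤ Y ∧ Y ≤ T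
        have hT2 : 6 * T ≤ T ^ 2 - 2 * T := by nlinarith
        refine ⟨?_, ?_, ?_, ?_⟩
        · have : 0 ≤ (τ - 1) * ((T ^ 2 - 2 * T) * (τ + 1) - 2 * (T - 1)) := by
            apply mul_nonneg (by linarith)
            nlinarith
          by_contra hh
          push Not at hh
          nlinarith [mul_pos (sub_pos.mpr hh) hpos]
        · have hU : (X - 1) * (T ^ 2 - 2 * T + 2) ≤ (T ^ 2 - 1) * (T ^ 2 - 2 * T + 2) := by
            rw [r1']
            have k1 : (τ - 1) * ((T ^ 2 - 2 * T) * (τ + 1) - 2 * (T - 1)) ≤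
                (τ - 1) * (τ + 1) * (T ^ 2 - 2 * T) := by nlinarith
            have k2 : (τ - 1) * (τ + 1) ≤ T ^ 2 - 1 := by nlinarith
            have k3 : (τ - 1) * (τ + 1) * (T ^ 2 - 2 * T) ≤ (T ^ 2 - 1) * (T ^ 2 - 2 * T) :=
              mul_le_mul_of_nonneg_right k2 (by nlinarith)
            nlinarith
          have := le_of_mul_le_mul_right hU hpos
          linarith
        · have hU : (-T - 1) * (T ^ 2 - 2 * T + 2) ≤ (Y - 1) * (T ^ 2 - 2 * T + 2) := by
            rw [r2']
            have k1 : τ ≤ T / 8 := by linarith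
            have k2 : (τ - 1) * (τ + 1) ≤ T ^ 2 / 64 := by nlinarith
            have k3 : (τ - 1) * (2 * (T - 1) * (τ + 1) + (T ^ 2 - 2 * T)) =
                2 * (T - 1) * ((τ - 1) * (τ + 1)) + (τ - 1) * (T ^ 2 - 2 * T) := by ring
            have k4 : 2 * (T - 1) * ((τ - 1) * (τ + 1)) ≤ 2 * (T - 1) * (T ^ 2 / 64) :=
              mul_le_mul_of_nonneg_left k2 (by linarith)
            have k5 : (τ - 1) * (T ^ 2 - 2 * T) ≤ (T / 8) * (T ^ 2 - 2 * T) :=
              mul_le_mul_of_nonneg_right (by linarith) (by nlinarith)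
            have k6 : 8 * T ^ 2 ≤ T ^ 3 := by nlinarith [sq_nonneg T]
            nlinarith
          have := le_of_mul_le_mul_right hU hpos
          linarith
        · have : (Y - 1) * (T ^ 2 - 2 * T + 2) ≤ 0 := by
            rw [r2']
            have : 0 ≤ (τ - 1) * (2 * (T - 1) * (τ + 1) + (T ^ 2 - 2 * T)) := by
              apply mul_nonneg (by linarith)
              nlinarith
            linarith
          by_contra hh
          push Not at hh
          nlinarith [mul_pos (show (0:ℝ) < Y - 1 by linarith) hpos]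
    refine ⟨?_, ?_, ?_, ?_⟩
    · have := hull_le (d := I) (q := 0) (c := -1) (fun x hx => by
        have := hcr2 x; linarith [(hv x hx).1]) w hw'
      have := hcr2 w; linarith
    · have := hull_ge (d := I) (q := 0) (c := -T ^ 2) (fun x hx => by
        have := hcr2 x; linarith [(hv x hx).2.1]) w hw'
      have := hcr2 w; linarith
    · have := hull_ge (d := 1) (q := 0) (c := -T) (fun x hx => by
        have := hcr1 x; linarith [(hv x hx).2.2.1]) w hw'
      have := hcr1 w; linarith
    · have := hull_le (d := 1) (q := 0) (c := T) (fun x hx => by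
        have := hcr1 x; linarith [(hv x hx).2.2.2]) w hw'
      have := hcr1 w; linarith
  · omega

end Unf
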