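import Pool.Agent.Lib.Unf.Strip

/-! The polygon: orientation, edges, frontier, covering by the pieces, compatibility. -/

namespace Unf

open Complex Set

/-- orientation of triples of vertices -/
lemma ori (N i j k : ℕ) (hN : 2 ≤ N) (hij : i < j) (hjk : j < k) (hk : k ≤ N) :
    0 < cr (vv N j - vv N i) (vv N k - vv N i) := by
  rw [vv, vv, vv, cr_pp]
  have h1 : 8 * tt N k ≤ tt N j := tt_lt N j k (by omega) hjk
  have h2 : 1 ≤ tt N k := tt_ge_one N k (by omega) hk
  rcases Nat.eq_zero_or_pos i with h | h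
  · subst h
    rw [tt_zero]
    have hT := T_ge N hN
    have : 0 < (tt N j - -tt N 1) * (tt N k - -tt N 1) := by
      apply mul_pos <;> linarith
    exact mul_pos this (by linarith)
  · have h3 : 8 * tt N j ≤ tt N i := tt_lt N i j h hij
    have : 0 < (tt N i - tt N j) * (tt N i - tt N k) := by
      apply mul_pos <;> linarith
    have h5 : (tt N j - tt N i) * (tt N k - tt N i) = (tt N i - tt N j) * (tt N i - tt N k) := by
      ring
    rw [h5]
    exact mul_pos this (by linarith)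

/-- the functional of the chord from `a` to `c` -/
noncomputable def FF (N a c : ℕ) (z : ℂ) : ℝ := cr (vv N c - vv N a) (z - vv N a)

lemma FF_left (N a c : ℕ) : FF N a c (vv N a) = 0 := by
  rw [FF, sub_self, cr_zero_right]
lemma FF_right (N a c : ℕ) : FF N a c (vv N c) = 0 := cr_self _

lemma FF_pos_lt (N a c j : ℕ) (hN : 2 ≤ N) (hac : a < c) (hc : c ≤ N) (hj : j < a) :
    0 < FF N a c (vv N j) := by
  have := ori N j a c hN hj hac hc
  have e : FF N a c (vv N j) = cr (vv N a - vv N j) (vv N c - vv N j) := by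
    simp only [FF, cr, sub_re, sub_im]; ring
  rwa [e]

lemma FF_pos_gt (N a c j : ℕ) (hN : 2 ≤ N) (hac : a < c) (hj : c < j) (hjN : j ≤ N) :
    0 < FF N a c (vv N j) := ori N a c j hN hac hj hjN

lemma FF_neg (N a c j : ℕ) (hN : 2 ≤ N) (haj : a < j) (hjc : j < c) (hc : c ≤ N) :
    FF N a c (vv N j) < 0 := by
  have := ori N a j c hN haj hjc hc
  rw [FF, cr_anti]
  linarith

/-- outside sign -/
lemma FF_nonneg (N a c j : ℕ) (hN : 2 ≤ N) (hac : a < c) (hc : c ≤ N) (hjN : j ≤ N)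
    (hj : j ≤ a ∨ c ≤ j) : 0 ≤ FF N a c (vv N j) ∧ (FF N a c (vv N j) = 0 → j = a ∨ j = c) := by
  rcases hj with h | h
  · rcases h.lt_or_eq with h | h
    · have := FF_pos_lt N a c j hN hac hc h
      exact ⟨this.le, fun h0 => absurd h0 this.ne'⟩
    · subst h
      exact ⟨(FF_left N _ c).ge, fun _ => Or.inl rfl⟩
  · rcases h.lt_or_eq with h | h
    · have := FF_pos_gt N a c j hN hac h hjN
      exact ⟨this.le, fun h0 => absurd h0 this.ne'⟩
    · subst h
      exact ⟨(FF_right N a _).ge, fun _ => Or.inr rfl⟩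

lemma FF_nonpos (N a c j : ℕ) (hN : 2 ≤ N) (hc : c ≤ N) (haj : a ≤ j) (hjc : j ≤ c) :
    FF N a c (vv N j) ≤ 0 ∧ (FF N a c (vv N j) = 0 → j = a ∨ j = c) := by
  rcases haj.lt_or_eq with h | h
  · rcases hjc.lt_or_eq with h' | h'
    · have := FF_neg N a c j hN h h' hc
      exact ⟨this.le, fun h0 => absurd h0 this.ne⟩
    · subst h'
      exact ⟨(FF_right N a _).le, fun _ => Or.inr rfl⟩
  · subst h
    exact ⟨(FF_left N _ c).le, fun _ => Or.inl rfl⟩

/-- next vertex -/
def nx (N a : ℕ) : ℕ := if a = N then 0 else a + 1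

lemma nx_lt (N a : ℕ) (h : a < N) : nx N a = a + 1 := by simp [nx, h.ne]
lemma nx_last (N : ℕ) : nx N N = 0 := by simp [nx]

/-- sign of the edge functional -/
lemma edge_sign (N a j : ℕ) (hN : 2 ≤ N) (ha : a ≤ N) (hj : j ≤ N) :
    0 ≤ FF N a (nx N a) (vv N j) ∧
      (FF N a (nx N a) (vv N j) = 0 → j = a ∨ j = nx N a) := by
  rcases ha.lt_or_eq with h | h
  · rw [nx_lt N a h]
    exact FF_nonneg N a (a + 1) j hN (by omega) (by omega) hj (by omega)
  · subst h
    rw [nx_last]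
    have e : FF a a 0 (vv a j) = - FF a 0 a (vv a j) := by
      simp only [FF, cr, sub_re, sub_im]; ring
    obtain ⟨h1, h2⟩ := FF_nonpos a 0 a j hN le_rfl (by omega) hj
    rw [e]
    refine ⟨by linarith, fun h0 => ?_⟩
    have := h2 (by linarith)
    tauto

/-- hull of a set of vertices -/
noncomputable def HV (N : ℕ) (V : Set ℕ) : Set ℂ := convexHull ℝ (vv N '' V)

/-- the polygon -/
noncomputable def PP (N : ℕ) : Set ℂ := HV N {j | j ≤ N}

lemma HV_mono (N : ℕ) {V W : Set ℕ} (h : V ⊆ W) : HV N V ⊆ HV N W :=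
  convexHull_mono (image_mono h)

lemma vv_mem_HV (N : ℕ) {V : Set ℕ} {j : ℕ} (h : j ∈ V) : vv N j ∈ HV N V :=
  subset_convexHull ℝ _ (mem_image_of_mem _ h)

lemma HV_face (N a c : ℕ) {V : Set ℕ} (h : ∀ j ∈ V, 0 ≤ FF N a c (vv N j)) {z : ℂ}
    (hz : z ∈ HV N V) : 0 ≤ FF N a c z ∧
    (FF N a c z = 0 → z ∈ HV N {j ∈ V | FF N a c (vv N j) = 0}) := by
  have := face (d := vv N c - vv N a) (q := vv N a) (s := vv N '' V) (by
    rintro _ ⟨j, hj, rfl⟩; exact h j hj) hz
  refine ⟨this.1, fun h0 => ?_⟩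
  refine convexHull_mono ?_ (this.2 h0)
  rintro _ ⟨⟨j, hj, rfl⟩, h1⟩
  exact ⟨j, ⟨hj, h1⟩, rfl⟩

lemma HV_nonpos (N a c : ℕ) {V : Set ℕ} (h : ∀ j ∈ V, FF N a c (vv N j) ≤ 0) {z : ℂ}
    (hz : z ∈ HV N V) : FF N a c z ≤ 0 := by
  refine hull_le (d := vv N c - vv N a) (q := vv N a) ?_ z hz
  rintro _ ⟨j, hj, rfl⟩
  exact h j hj

lemma HV_pair (N a c : ℕ) {V : Set ℕ} (h : ∀ j ∈ V, j = a ∨ j = c) {z : ℂ} (hz : z ∈ HV N V) :
    z ∈ segment ℝ (vv N a) (vv N c) := by
  rw [← convexHull_pair]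
  refine convexHull_mono ?_ hz
  rintro _ ⟨j, hj, rfl⟩
  rcases h j hj with rfl | rfl
  · simp
  · simp

lemma HV_single (N a : ℕ) {V : Set ℕ} (h : ∀ j ∈ V, j = a) {z : ℂ} (hz : z ∈ HV N V) :
    z = vv N a := by
  have := HV_pair N a a (fun j hj => Or.inl (h j hj)) hz
  simpa using this

lemma Tri_eq (N : ℕ) (b : ℕ → Bool) (i : ℕ) : Tri N b i = HV N {oo b i, i, i + 1} := by
  rw [Tri, HV, image_insert_eq, image_insert_eq, image_singleton]

lemma KK_eq (N : ℕ) (b : ℕ → Bool) (σ : Bool) : KK N b σ = HV N (KI N b σ) := rfl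

/-- description of the polygon by its edges -/
lemma PP_of_edges (N : ℕ) (hN : 2 ≤ N) {z : ℂ} (h : ∀ a ≤ N, 0 ≤ FF N a (nx N a) z) :
    z ∈ PP N := by
  -- find the sign change in the fan from vertex 0
  have hex : ∃ i, 1 ≤ i ∧ i < N ∧ 0 ≤ FF N 0 i z ∧ FF N 0 (i + 1) z ≤ 0 := by
    by_contra hcon
    push Not at hcon
    have hall : ∀ i, 1 ≤ i → i ≤ N → 0 ≤ FF N 0 i z ∧ (2 ≤ i → 0 < FF N 0 i z) := by
      intro i hi
      induction i, hi using Nat.le_induction with
      | base =>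
        intro _
        have := h 0 (by omega)
        rw [nx_lt N 0 (by omega)] at this
        exact ⟨this, fun h2 => by omega⟩
      | succ i hi ih =>
        intro hiN
        have := hcon i hi (by omega) (ih (by omega)).1
        exact ⟨this.le, fun _ => this⟩
    have h1 := (hall N (by omega) le_rfl).2 hN
    have h2 := h N le_rfl
    rw [nx_last] at h2
    have e : FF N N 0 z = - FF N 0 N z := by
      simp only [FF, cr, sub_re, sub_im]; ring
    linarith
  obtain ⟨i, hi1, hiN, h1, h2⟩ := hex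
  have h3 := h i (by omega)
  rw [nx_lt N i hiN] at h3
  have : z ∈ convexHull ℝ ({vv N 0, vv N i, vv N (i + 1)} : Set ℂ) := by
    apply mem_tri (ori N 0 i (i + 1) hN (by omega) (by omega) (by omega)) h1 h3
    have e : cr (vv N 0 - vv N (i + 1)) (z - vv N (i + 1)) = - FF N 0 (i + 1) z := by
      simp only [FF, cr, sub_re, sub_im]; ring
    rw [e]; linarith
  refine convexHull_mono ?_ this
  rintro x (rfl | rfl | rfl)
  · exact ⟨0, by simp, rfl⟩
  · exact ⟨i, by simp; omega, rfl⟩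
  · exact ⟨i + 1, by simp; omega, rfl⟩

lemma PP_edges (N a : ℕ) (hN : 2 ≤ N) (ha : a ≤ N) {z : ℂ} (hz : z ∈ PP N) :
    0 ≤ FF N a (nx N a) z :=
  (HV_face N a (nx N a) (fun j hj => (edge_sign N a j hN ha hj).1) hz).1

lemma PP_closed (N : ℕ) : IsClosed (PP N) := by
  have : (vv N '' {j | j ≤ N}).Finite := (Set.finite_le_nat N).image _
  exact this.isClosed_convexHull ℝ

lemma HV_compact (N : ℕ) {V : Set ℕ} (hV : ∀ j ∈ V, j ≤ N) : IsCompact (HV N V) := by
  have : (vv N '' V).Finite := ((Set.finite_le_nat N).subset (fun j hj => hV j hj)).image _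
  exact this.isCompact_convexHull ℝ

lemma FF_cont (N a c : ℕ) : Continuous (FF N a c) := cr_continuous _ _

lemma interior_of_edges (N : ℕ) (hN : 2 ≤ N) {z : ℂ} (h : ∀ a ≤ N, 0 < FF N a (nx N a) z) :
    z ∈ interior (PP N) := by
  rw [mem_interior]
  refine ⟨⋂ a ∈ Finset.range (N + 1), {w | 0 < FF N a (nx N a) w}, ?_, ?_, ?_⟩
  · intro w hw
    simp only [mem_iInter, Finset.mem_range, mem_ofPred_eq] at hw
    exact PP_of_edges N hN (fun a ha => (hw a (by omega)).le)
  · exact isOpen_biInter_finset (fun a _ => isOpen_lt continuous_const (FF_cont N a _))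
  · simp only [mem_iInter, Finset.mem_range, mem_ofPred_eq]
    exact fun a ha => h a (by omega)

/-- frontier points lie on edges -/
lemma frontier_edge (N : ℕ) (hN : 2 ≤ N) {z : ℂ} (hz : z ∈ frontier (PP N)) :
    ∃ a ≤ N, z ∈ segment ℝ (vv N a) (vv N (nx N a)) ∧ FF N a (nx N a) z = 0 := by
  have hzP : z ∈ PP N := (PP_closed N).frontier_subset hz
  have hzi : z ∉ interior (PP N) := hz.2
  have : ∃ a ≤ N, FF N a (nx N a) z = 0 := by
    by_contra hcon
    push Not at hcon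
    exact hzi (interior_of_edges N hN (fun a ha =>
      lt_of_le_of_ne (PP_edges N a hN ha hzP) (Ne.symm (hcon a ha))))
  obtain ⟨a, ha, h0⟩ := this
  refine ⟨a, ha, ?_, h0⟩
  have := (HV_face N a (nx N a) (fun j hj => (edge_sign N a j hN ha hj).1) hzP).2 h0
  refine HV_pair N a (nx N a) ?_ this
  rintro j ⟨hj, h1⟩
  exact (edge_sign N a j hN ha hj).2 h1

/-- a non-vertex point of an edge determines both endpoints -/
lemma edge_endpoints (N a : ℕ) (hN : 2 ≤ N) (ha : a ≤ N) {V : Set ℕ} (hV : ∀ j ∈ V, j ≤ N) {z : ℂ}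
    (hz : z ∈ HV N V) (h0 : FF N a (nx N a) z = 0) (h1 : z ≠ vv N a) (h2 : z ≠ vv N (nx N a)) :
    a ∈ V ∧ nx N a ∈ V := by
  have h3 := (HV_face N a (nx N a) (fun j hj => (edge_sign N a j hN ha (hV j hj)).1) hz).2 h0
  constructor
  · by_contra hh
    apply h2
    refine HV_single N _ ?_ h3
    rintro j ⟨hj, h4⟩
    rcases (edge_sign N a j hN ha (hV j hj)).2 h4 with h5 | h5
    · subst h5; exact absurd hj hh
    · exact h5
  · by_contra hh
    apply h1
    refine HV_single N _ ?_ h3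
    rintro j ⟨hj, h4⟩
    rcases (edge_sign N a j hN ha (hV j hj)).2 h4 with h5 | h5
    · exact h5
    · rw [h5] at hj; exact absurd hj hh

/-- covering of a face by its pieces -/
lemma cover (N : ℕ) (b : ℕ → Bool) (hN : 2 ≤ N) (h01 : b 1 ≠ b 0) (σ : Bool) {z : ℂ}
    (hz : z ∈ PP N) : z ∈ KK N b σ ∨ ∃ i, 1 ≤ i ∧ i < N ∧ b i ≠ σ ∧ z ∈ Tri N b i := by
  have key : ∀ k n, n + k = N → 1 ≤ n → z ∈ HV N {j | j ≤ N ∧ (j = 0 ∨ j = N ∨ b j = σ ∨ n ≤ j)} →
      z ∈ KK N b σ ∨ ∃ i, 1 ≤ i ∧ i < N ∧ b i ≠ σ ∧ z ∈ Tri N b i := by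
    intro k
    induction k with
    | zero =>
      intro n hn hn1 h
      left
      rw [KK_eq]
      refine HV_mono N ?_ h
      rintro j ⟨h1, h2⟩
      exact ⟨h1, by rcases h2 with h2 | h2 | h2 | h2 <;> [left; (right; left); (right; right);
        (right; left)] <;> [exact h2; exact h2; exact h2; omega]⟩
    | succ k ih =>
      intro n hn hn1 h
      by_cases hb : b n = σ
      · apply ih (n + 1) (by omega) (by omega)
        refine HV_mono N ?_ h
        rintro j ⟨h1, h2⟩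
        refine ⟨h1, ?_⟩
        rcases h2 with h2 | h2 | h2 | h2
        · exact Or.inl h2
        · exact Or.inr (Or.inl h2)
        · exact Or.inr (Or.inr (Or.inl h2))
        · rcases h2.lt_or_eq with h3 | h3
          · exact Or.inr (Or.inr (Or.inr h3))
          · subst h3; exact Or.inr (Or.inr (Or.inl hb))
      · -- cut the ear
        obtain ⟨ho1, ho2⟩ := oo_spec b h01 n hn1
        have ho3 := oo_lt b n hn1
        have hbo : b (oo b n) = σ := by
          revert ho1 hb; cases b (oo b n) <;> cases b n <;> cases σ <;> simp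
        set V : Set ℕ := {j | j ≤ N ∧ (j = 0 ∨ j = N ∨ b j = σ ∨ n + 1 ≤ j)} with hV
        have hVj : ∀ j ∈ V, j ≤ oo b n ∨ n + 1 ≤ j := by
          rintro j ⟨h1, h2⟩
          rcases h2 with h2 | h2 | h2 | h2
          · left; omega
          · right; omega
          · by_contra hh
            push Not at hh
            have := ho2 j hh.1 (by omega)
            exact hb (by rw [← this, h2])
          · right; exact h2
        have hsub : vv N '' {j | j ≤ N ∧ (j = 0 ∨ j = N ∨ b j = σ ∨ n ≤ j)} ⊆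
            insert (vv N n) (vv N '' V) := by
          rintro _ ⟨j, ⟨h1, h2⟩, rfl⟩
          by_cases hjn : j = n
          · subst hjn; exact mem_insert _ _
          · right
            refine ⟨j, ⟨h1, ?_⟩, rfl⟩
            rcases h2 with h2 | h2 | h2 | h2
            · exact Or.inl h2
            · exact Or.inr (Or.inl h2)
            · exact Or.inr (Or.inr (Or.inl h2))
            · exact Or.inr (Or.inr (Or.inr (by omega)))
        have h' : z ∈ convexHull ℝ (insert (vv N n) (vv N '' V)) := convexHull_mono hsub h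
        have hear := ear (o := vv N (oo b n)) (c := vv N n) (c' := vv N (n + 1))
          (s := vv N '' V)
          (vv_mem_HV N (V := V) ⟨by omega, Or.inr (Or.inr (Or.inl hbo))⟩)
          (vv_mem_HV N (V := V) ⟨by omega, Or.inr (Or.inr (Or.inr le_rfl))⟩)
          (ori N _ _ _ hN ho3 (by omega) (by omega))
          (by
            rintro _ ⟨j, hj, rfl⟩
            exact (FF_nonneg N (oo b n) n j hN ho3 (by omega) hj.1
              (by rcases hVj j hj with h | h <;> [left; right] <;> omega)).1)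
          (by
            rintro _ ⟨j, hj, rfl⟩
            exact (FF_nonneg N n (n + 1) j hN (by omega) (by omega) hj.1
              (by rcases hVj j hj with h | h <;> [left; right] <;> omega)).1)
          (by
            rintro _ ⟨j, hj, rfl⟩
            exact (FF_nonneg N (oo b n) (n + 1) j hN (by omega) (by omega) hj.1
              (hVj j hj)).1) h'
        rcases hear with h3 | h3
        · exact ih (n + 1) (by omega) (by omega) h3
        · right
          exact ⟨n, hn1, by omega, hb, h3⟩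
  apply key (N - 1) 1 (by omega) le_rfl
  refine HV_mono N ?_ hz
  intro j hj
  refine ⟨hj, ?_⟩
  rcases Nat.eq_zero_or_pos j with h | h
  · exact Or.inl h
  · exact Or.inr (Or.inr (Or.inr h))

/-! chains and cuts -/

/-- neighbours on the chain of face `σ` -/
def NB (N : ℕ) (b : ℕ → Bool) (σ : Bool) (a c : ℕ) : Prop :=
  a < c ∧ c ≤ N ∧ b a = σ ∧ (b c = σ ∨ c = N) ∧ ∀ j, a < j → j < c → b j ≠ σ

/-- points of face `σ` on a chord of the chain of that face -/
def Cut (N : ℕ) (b : ℕ → Bool) (σ : Bool) (z : ℂ) : Prop :=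
  ∃ a c, NB N b σ a c ∧ z ∈ segment ℝ (vv N a) (vv N c)

lemma next_exists (N : ℕ) (b : ℕ → Bool) (σ : Bool) (i : ℕ) (hi : i < N) :
    ∃ c, i < c ∧ c ≤ N ∧ (b c = σ ∨ c = N) ∧ ∀ j, i < j → j < c → b j ≠ σ := by
  have hex : ∃ c, i < c ∧ (b c = σ ∨ c = N) := ⟨N, hi, Or.inr rfl⟩
  classical
  refine ⟨Nat.find hex, (Nat.find_spec hex).1, ?_, (Nat.find_spec hex).2, ?_⟩
  · exact Nat.find_min' hex ⟨hi, Or.inr rfl⟩
  · intro j hj1 hj2 hj3
    exact Nat.find_min hex hj2 ⟨hj1, Or.inl hj3⟩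

lemma cut_vertex (N : ℕ) (b : ℕ → Bool) (σ : Bool) (j : ℕ) (hj : j < N) (hb : b j = σ) :
    Cut N b σ (vv N j) := by
  obtain ⟨c, h1, h2, h3, h4⟩ := next_exists N b σ j hj
  exact ⟨j, c, ⟨h1, h2, hb, h3, h4⟩, left_mem_segment ℝ _ _⟩

lemma cut_last (N : ℕ) (b : ℕ → Bool) (hN : 1 ≤ N) : ∃ σ, Cut N b σ (vv N N) :=
  ⟨b (N - 1), N - 1, N, ⟨by omega, le_rfl, rfl, Or.inr rfl, fun j h1 h2 => by omega⟩,
    right_mem_segment ℝ _ _⟩

lemma vertex_cut (N : ℕ) (b : ℕ → Bool) (hN : 1 ≤ N) (j : ℕ) (hj : j ≤ N) :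
    ∃ σ, Cut N b σ (vv N j) := by
  rcases hj.lt_or_eq with h | h
  · exact ⟨b j, cut_vertex N b _ j h rfl⟩
  · subst h; exact cut_last j b hN

/-- frame of the central piece -/
noncomputable def kf (N : ℕ) (σ : Bool) : ℂ ≃ᵢ ℂ := if σ then rCA N else IsometryEquiv.refl ℂ

/-- `z` lies in a piece of face `σ` with frame `g` -/
def Fr (N : ℕ) (b : ℕ → Bool) (σ : Bool) (z : ℂ) (g : ℂ ≃ᵢ ℂ) : Prop :=
  (z ∈ KK N b σ ∧ g = kf N σ) ∨ ∃ i, 1 ≤ i ∧ i < N ∧ b i ≠ σ ∧ z ∈ Tri N b i ∧ g = gg N b i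

lemma compat_aux (N : ℕ) (b : ℕ → Bool) (hN : 2 ≤ N) (h01 : b 1 ≠ b 0) (σ : Bool) {z : ℂ} (i : ℕ)
    (h1 : 1 ≤ i) (hiN : i < N) (hb : b i ≠ σ) (hK : z ∈ KK N b σ) (hT : z ∈ Tri N b i) :
    Cut N b σ z := by
  obtain ⟨ho1, ho2⟩ := oo_spec b h01 i h1
  have ho3 := oo_lt b i h1
  have hbo : b (oo b i) = σ := by
    revert ho1 hb; cases b (oo b i) <;> cases b i <;> cases σ <;> simp
  obtain ⟨c, hc1, hc2, hc3, hc4⟩ := next_exists N b σ i hiN
  have hnb : ∀ j, oo b i < j → j < c → b j ≠ σ := by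
    intro j hj1 hj2
    rcases Nat.lt_or_ge i j with h | h
    · exact hc4 j h hj2
    · rw [ho2 j hj1 h]; exact hb
  have hNB : NB N b σ (oo b i) c := ⟨by omega, hc2, hbo, hc3, hnb⟩
  have hKs : ∀ j ∈ KI N b σ, j ≤ oo b i ∨ c ≤ j := by
    rintro j ⟨h1, h2⟩
    rcases h2 with h2 | h2 | h2
    · left; omega
    · right; omega
    · by_contra hh
      push Not at hh
      exact hnb j hh.1 hh.2 h2
  rw [KK_eq] at hK
  have hf := HV_face N (oo b i) c (V := KI N b σ) (fun j hj =>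
    (FF_nonneg N (oo b i) c j hN (by omega) hc2 hj.1 (hKs j hj)).1) hK
  rw [Tri_eq] at hT
  have hf2 : FF N (oo b i) c z ≤ 0 := by
    refine HV_nonpos N (oo b i) c ?_ hT
    rintro j (rfl | rfl | rfl)
    · exact (FF_nonpos N _ c _ hN hc2 le_rfl (by omega)).1
    · exact (FF_nonpos N _ c _ hN hc2 (by omega) (by omega)).1
    · exact (FF_nonpos N _ c _ hN hc2 (by omega) (by omega)).1
  have h0 : FF N (oo b i) c z = 0 := le_antisymm hf2 hf.1
  refine ⟨oo b i, c, hNB, HV_pair N (oo b i) c ?_ (hf.2 h0)⟩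
  rintro j ⟨hj, h1⟩
  exact (FF_nonneg N (oo b i) c j hN (by omega) hc2 hj.1 (hKs j hj)).2 h1

lemma compat_tri (N : ℕ) (b : ℕ → Bool) (hN : 2 ≤ N) (h01 : b 1 ≠ b 0) (σ : Bool) {z : ℂ}
    (i k : ℕ) (h1 : 1 ≤ i) (hik : i ≤ k) (hkN : k < N) (hb : b i ≠ σ) (hbk : b k ≠ σ)
    (hT : z ∈ Tri N b i) (hT' : z ∈ Tri N b k) (hc : ¬ Cut N b σ z) : gg N b i = gg N b k := by
  have hall : ∀ j, i < j → j ≤ k → b j = b i := by
    intro j hj1 hj2
    by_contra hh
    have hbj : b j = σ := by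
      revert hh hb; cases b j <;> cases b i <;> cases σ <;> simp
    have hjk : j < k := by
      rcases hj2.lt_or_eq with h | h
      · exact h
      · subst h; exact absurd hbj hbk
    have hok : j ≤ oo b k := by
      by_contra hh2
      push Not at hh2
      have := (oo_spec b h01 k (by omega)).2 j hh2 hj2
      exact hbk (by rw [← this, hbj])
    have hok2 := oo_lt b k (by omega)
    have hoi := oo_lt b i h1
    rw [Tri_eq] at hT hT'
    have hf := HV_face N 0 j (V := {oo b k, k, k + 1}) (by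
      rintro l (rfl | rfl | rfl)
      · exact (FF_nonneg N 0 j _ hN (by omega) (by omega) (by omega) (Or.inr (by omega))).1
      · exact (FF_nonneg N 0 j _ hN (by omega) (by omega) (by omega) (Or.inr (by omega))).1
      · exact (FF_nonneg N 0 j _ hN (by omega) (by omega) (by omega) (Or.inr (by omega))).1) hT'
    have hf2 : FF N 0 j z ≤ 0 := by
      refine HV_nonpos N 0 j ?_ hT
      rintro l (rfl | rfl | rfl)
      · exact (FF_nonpos N 0 j _ hN (by omega) (by omega) (by omega)).1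
      · exact (FF_nonpos N 0 j _ hN (by omega) (by omega) (by omega)).1
      · exact (FF_nonpos N 0 j _ hN (by omega) (by omega) (by omega)).1
    have h0 : FF N 0 j z = 0 := le_antisymm hf2 hf.1
    have hz : z = vv N j := by
      refine HV_single N j ?_ (hf.2 h0)
      rintro l ⟨hl, h3⟩
      have hl' : j ≤ l ∧ l ≤ N := by
        rcases hl with rfl | rfl | rfl <;> constructor <;> omega
      rcases (FF_nonneg N 0 j l hN (by omega) (by omega) hl'.2 (Or.inr hl'.1)).2 h3 with h4 | h4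
      · omega
      · exact h4
    exact hc (hz ▸ cut_vertex N b σ j (by omega) hbj)
  exact (gg_const N b i k hall hik).symm

/-- frames agree on one face off the cut -/
lemma compat_same (N : ℕ) (b : ℕ → Bool) (hN : 2 ≤ N) (h01 : b 1 ≠ b 0) (σ : Bool) {z : ℂ}
    {g g' : ℂ ≃ᵢ ℂ} (h : Fr N b σ z g) (h' : Fr N b σ z g') (hc : ¬ Cut N b σ z) : g = g' := by
  rcases h with ⟨h1, rfl⟩ | ⟨i, hi1, hiN, hb, hT, rfl⟩
  · rcases h' with ⟨h2, rfl⟩ | ⟨k, hk1, hkN, hbk, hTk, rfl⟩
    · rfl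
    · exact absurd (compat_aux N b hN h01 σ k hk1 hkN hbk h1 hTk) hc
  · rcases h' with ⟨h2, rfl⟩ | ⟨k, hk1, hkN, hbk, hTk, rfl⟩
    · exact absurd (compat_aux N b hN h01 σ i hi1 hiN hb h2 hT) hc
    · rcases le_total i k with h | h
      · exact compat_tri N b hN h01 σ i k hi1 h hkN hb hbk hT hTk hc
      · exact (compat_tri N b hN h01 σ k i hk1 h hiN hbk hb hTk hT hc).symm

end Unf
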