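import Pool.Agent.Lib.Unf.Basic

/-! Reflections in lines of direction `s + i`, as isometries of the plane. -/

namespace Unf

open Complex Set

/-- reflection in the line through `p` with direction `s + i` -/
noncomputable def rfl0 (p : ℂ) (s : ℝ) (z : ℂ) : ℂ :=
  p + (((s : ℂ) + I) / ((s : ℂ) - I)) * (starRingEnd ℂ) (z - p)

lemma s_sub_I_ne (s : ℝ) : (s : ℂ) - I ≠ 0 := by
  intro h
  have := congrArg Complex.im h
  simp at this

lemma s_add_I_ne (s : ℝ) : (s : ℂ) + I ≠ 0 := by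
  intro h
  have := congrArg Complex.im h
  simp at this

lemma rfl0_invol (p : ℂ) (s : ℝ) (z : ℂ) : rfl0 p s (rfl0 p s z) = z := by
  unfold rfl0
  have h1 := s_sub_I_ne s
  have h2 := s_add_I_ne s
  simp only [add_sub_cancel_left, map_mul, map_div₀, map_add, conj_ofReal, conj_I, map_sub,
    conj_conj]
  have : (s : ℂ) + -I ≠ 0 := by simpa [sub_eq_add_neg] using h1
  have : (s : ℂ) - -I ≠ 0 := by simpa [sub_neg_eq_add] using h2
  field_simp
  ring

lemma norm_quot (s : ℝ) : ‖((s : ℂ) + I) / ((s : ℂ) - I)‖ = 1 := by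
  rw [norm_div]
  have : ‖(s : ℂ) + I‖ = ‖(s : ℂ) - I‖ := by
    have : (s : ℂ) - I = (starRingEnd ℂ) ((s : ℂ) + I) := by simp [sub_eq_add_neg]
    rw [this, Complex.norm_conj]
  rw [this, div_self]
  exact norm_ne_zero_iff.mpr (s_sub_I_ne s)

lemma rfl0_dist (p : ℂ) (s : ℝ) (z w : ℂ) : dist (rfl0 p s z) (rfl0 p s w) = dist z w := by
  rw [dist_eq_norm, dist_eq_norm]
  have : rfl0 p s z - rfl0 p s w =
      (((s : ℂ) + I) / ((s : ℂ) - I)) * (starRingEnd ℂ) (z - w) := by
    unfold rfl0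
    simp only [map_sub]
    ring
  rw [this, norm_mul, norm_quot, one_mul, Complex.norm_conj]

/-- the reflection as an isometry -/
noncomputable def rho (p : ℂ) (s : ℝ) : ℂ ≃ᵢ ℂ :=
  IsometryEquiv.mk' (rfl0 p s) (rfl0 p s) (rfl0_invol p s) (Isometry.of_dist_eq (rfl0_dist p s))

lemma rho_apply (p : ℂ) (s : ℝ) (z : ℂ) : rho p s z =
    p + (((s : ℂ) + I) / ((s : ℂ) - I)) * (starRingEnd ℂ) (z - p) := rfl

lemma rho_rho (p : ℂ) (s : ℝ) (z : ℂ) : rho p s (rho p s z) = z := rfl0_invol p s z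

lemma rho_symm (p : ℂ) (s : ℝ) : (rho p s).symm = rho p s := by
  ext z
  rw [IsometryEquiv.symm_apply_eq]
  exact (rho_rho p s z).symm

/-- points of the line are fixed -/
lemma rho_fix (p : ℂ) (s r : ℝ) : rho p s (p + r • ((s : ℂ) + I)) = p + r • ((s : ℂ) + I) := by
  rw [rho_apply]
  have h1 := s_sub_I_ne s
  simp only [add_sub_cancel_left, real_smul, map_mul, conj_ofReal, map_add, conj_I]
  have : (s : ℂ) + -I = (s : ℂ) - I := by ring
  rw [this]
  field_simp

lemma quot_eq (s : ℝ) : ∃ q1 q2 : ℝ, ((s : ℂ) + I) / ((s : ℂ) - I) = (q1 : ℂ) + (q2 : ℂ) * I ∧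
    q1 * (s ^ 2 + 1) = s ^ 2 - 1 ∧ q2 * (s ^ 2 + 1) = 2 * s := by
  have h3 : s ^ 2 + 1 ≠ 0 := by positivity
  obtain ⟨q1, hq1⟩ : ∃ q1 : ℝ, q1 * (s ^ 2 + 1) = s ^ 2 - 1 :=
    ⟨(s ^ 2 - 1) / (s ^ 2 + 1), by field_simp⟩
  obtain ⟨q2, hq2⟩ : ∃ q2 : ℝ, q2 * (s ^ 2 + 1) = 2 * s :=
    ⟨(2 * s) / (s ^ 2 + 1), by field_simp⟩
  refine ⟨q1, q2, ?_, hq1, hq2⟩
  rw [div_eq_iff (s_sub_I_ne s)]
  apply Complex.ext
  · simp only [add_re, ofReal_re, I_re, add_zero, mul_re, mul_zero, ofReal_im, I_im, mul_one,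
      sub_self, sub_re, sub_zero, add_im, mul_im, zero_add, sub_im, zero_sub, mul_neg, sub_neg_eq_add]
    apply mul_right_cancel₀ h3
    linear_combination (-s) * hq1 - hq2
  · simp only [add_re, ofReal_re, I_re, add_zero, mul_re, mul_zero, ofReal_im, I_im, mul_one,
      sub_self, sub_re, sub_zero, add_im, mul_im, zero_add, sub_im, zero_sub, mul_neg, sub_neg_eq_add]
    apply mul_right_cancel₀ h3
    linear_combination hq1 - s * hq2

/-- coordinates of the reflection relative to the base point -/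
lemma rho_re (p : ℂ) (s : ℝ) (z : ℂ) : (rho p s z - p).re * (s ^ 2 + 1) =
    (s ^ 2 - 1) * (z - p).re + 2 * s * (z - p).im := by
  rw [rho_apply, add_sub_cancel_left]
  obtain ⟨q1, q2, h2, h3, h4⟩ := quot_eq s
  rw [h2]
  simp only [mul_re, add_re, ofReal_re, I_re, mul_zero, ofReal_im, I_im, mul_one, sub_self,
    add_zero, conj_re, add_im, mul_im, zero_add, conj_im]
  linear_combination (z - p).re * h3 + (z - p).im * h4

lemma rho_im (p : ℂ) (s : ℝ) (z : ℂ) : (rho p s z - p).im * (s ^ 2 + 1) =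
    2 * s * (z - p).re - (s ^ 2 - 1) * (z - p).im := by
  rw [rho_apply, add_sub_cancel_left]
  obtain ⟨q1, q2, h2, h3, h4⟩ := quot_eq s
  rw [h2]
  simp only [mul_re, add_re, ofReal_re, I_re, mul_zero, ofReal_im, I_im, mul_one, sub_self,
    add_zero, conj_re, add_im, mul_im, zero_add, conj_im]
  linear_combination (z - p).re * h4 - (z - p).im * h3

/-- the reflection reverses the side of its line -/
lemma rho_cr (p : ℂ) (s : ℝ) (z : ℂ) :
    cr ((s : ℂ) + I) (rho p s z - p) = - cr ((s : ℂ) + I) (z - p) := by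
  have h1 := rho_re p s z
  have h2 := rho_im p s z
  have h3 : s ^ 2 + 1 ≠ 0 := by positivity
  have : cr ((s : ℂ) + I) (rho p s z - p) * (s ^ 2 + 1) =
      - cr ((s : ℂ) + I) (z - p) * (s ^ 2 + 1) := by
    simp only [cr, add_re, ofReal_re, I_re, add_zero, add_im, ofReal_im, I_im, zero_add, one_mul]
    linear_combination s * h2 - h1
  exact mul_right_cancel₀ h3 this

/-- points equidistant: a point of the line has the same distance to `z` and to its mirror -/
lemma rho_dist_line (p : ℂ) (s r : ℝ) (z : ℂ) :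
    dist (p + r • ((s : ℂ) + I)) (rho p s z) = dist (p + r • ((s : ℂ) + I)) z := by
  conv_lhs => rw [← rho_fix p s r]
  exact (rho p s).dist_eq _ _

lemma line_of_cr (p : ℂ) (s : ℝ) (z : ℂ) (h : cr ((s : ℂ) + I) (z - p) = 0) :
    z = p + (z - p).im • ((s : ℂ) + I) := by
  simp only [cr, add_re, ofReal_re, I_re, add_zero, add_im, ofReal_im, I_im, zero_add,
    one_mul] at h
  apply Complex.ext
  · simp only [add_re, real_smul, mul_re, ofReal_re, I_re, add_zero, ofReal_im, zero_mul,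
      sub_zero]
    have e1 : (z - p).re = z.re - p.re := sub_re _ _
    rw [e1] at h
    linarith
  · simp only [add_im, real_smul, mul_im, ofReal_re, I_im, zero_add, ofReal_im, zero_mul,
      add_zero, mul_one, sub_im]
    ring

lemma rho_of_cr (p : ℂ) (s : ℝ) (z : ℂ) (h : cr ((s : ℂ) + I) (z - p) = 0) : rho p s z = z := by
  have := rho_fix p s (z - p).im
  rwa [← line_of_cr p s z h] at this

/-! Convexity under isometries of the plane. -/

lemma iso_comb (g : ℂ ≃ᵢ ℂ) (x y : ℂ) (a b : ℝ) (hab : a + b = 1) :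
    g (a • x + b • y) = a • g x + b • g y := by
  have h := (g.toRealAffineIsometryEquiv.toAffineEquiv : ℂ →ᵃ[ℝ] ℂ)
  have key : ∀ z, g z = g.toRealAffineIsometryEquiv z := fun z => by
    simp
  rw [key, key, key]
  have e : a • x + b • y = AffineMap.lineMap x y b := by
    rw [AffineMap.lineMap_apply]
    have : a = 1 - b := by linarith
    subst this
    simp only [vsub_eq_sub, vadd_eq_add, real_smul, ofReal_sub, ofReal_one]
    ring
  rw [e]
  have e2 : g.toRealAffineIsometryEquiv (AffineMap.lineMap x y b) =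
      AffineMap.lineMap (g.toRealAffineIsometryEquiv x) (g.toRealAffineIsometryEquiv y) b :=
    (g.toRealAffineIsometryEquiv.toAffineEquiv : ℂ →ᵃ[ℝ] ℂ).apply_lineMap x y b
  rw [e2, AffineMap.lineMap_apply]
  have : a = 1 - b := by linarith
  subst this
  simp only [vsub_eq_sub, vadd_eq_add, real_smul, ofReal_sub, ofReal_one]
  ring

lemma iso_convex (g : ℂ ≃ᵢ ℂ) {s : Set ℂ} (hs : Convex ℝ s) : Convex ℝ (g '' s) := by
  rintro _ ⟨x, hx, rfl⟩ _ ⟨y, hy, rfl⟩ a b ha hb hab
  exact ⟨a • x + b • y, hs hx hy ha hb hab, iso_comb g x y a b hab⟩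

lemma iso_hull (g : ℂ ≃ᵢ ℂ) (s : Set ℂ) : g '' convexHull ℝ s = convexHull ℝ (g '' s) := by
  apply Subset.antisymm
  · have : convexHull ℝ s ⊆ g ⁻¹' (convexHull ℝ (g '' s)) := by
      apply convexHull_min
      · intro x hx
        exact subset_convexHull ℝ _ (mem_image_of_mem g hx)
      · intro x hx y hy a b ha hb hab
        have h1 : a • g x + b • g y ∈ convexHull ℝ (g '' s) :=
          convex_convexHull ℝ _ hx hy ha hb hab
        rw [← iso_comb g x y a b hab] at h1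
        exact h1
    rintro _ ⟨x, hx, rfl⟩
    exact this hx
  · apply convexHull_min
    · exact image_mono (subset_convexHull ℝ s)
    · exact iso_convex g (convex_convexHull ℝ s)

lemma iso_extreme (g : ℂ ≃ᵢ ℂ) {s : Set ℂ} {x : ℂ} (hx : x ∈ s.extremePoints ℝ) :
    g x ∈ (g '' s).extremePoints ℝ := by
  rw [mem_extremePoints] at hx ⊢
  refine ⟨mem_image_of_mem g hx.1, ?_⟩
  rintro _ ⟨y, hy, rfl⟩ _ ⟨z, hz, rfl⟩ ⟨a, b, ha, hb, hab, h⟩
  rw [← iso_comb g y z a b hab] at h
  have h' := g.injective h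
  have := hx.2 y hy z hz ⟨a, b, ha, hb, hab, h'⟩
  exact ⟨by rw [this.1], by rw [this.2]⟩

end Unf
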