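import Pool.Agent.Lib.Unf.Refl

/-! Local isometries of connected open sets of the plane are restrictions of isometries. -/

namespace Unf

open Complex Set Topology Filter

lemma norm_sq_sub (z p : ℂ) : ‖z - p‖ ^ 2 = (z.re - p.re) ^ 2 + (z.im - p.im) ^ 2 := by
  rw [← Complex.normSq_eq_norm_sq, Complex.normSq_apply, sub_re, sub_im]
  ring

/-- a point is determined by its distances to three points in general position -/
lemma three_dist {a b c z w : ℂ} (hD : cr (b - a) (c - a) ≠ 0) (ha : dist z a = dist w a)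
    (hb : dist z b = dist w b) (hc : dist z c = dist w c) : z = w := by
  have sq : ∀ p : ℂ, dist z p = dist w p → (z.re - p.re) ^ 2 + (z.im - p.im) ^ 2 =
      (w.re - p.re) ^ 2 + (w.im - p.im) ^ 2 := by
    intro p hp
    rw [dist_eq_norm, dist_eq_norm] at hp
    rw [← norm_sq_sub, ← norm_sq_sub, hp]
  have e1 := sq a ha
  have e2 := sq b hb
  have e3 := sq c hc
  set x := z.re - w.re with hx
  set y := z.im - w.im with hy
  have l1 : x * (b.re - a.re) + y * (b.im - a.im) = 0 := by
    rw [hx, hy]; nlinarith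
  have l2 : x * (c.re - a.re) + y * (c.im - a.im) = 0 := by
    rw [hx, hy]; nlinarith
  have hD' : (b.re - a.re) * (c.im - a.im) - (b.im - a.im) * (c.re - a.re) ≠ 0 := by
    simpa [cr] using hD
  have x0 : x * ((b.re - a.re) * (c.im - a.im) - (b.im - a.im) * (c.re - a.re)) = 0 := by
    linear_combination (c.im - a.im) * l1 - (b.im - a.im) * l2
  have y0 : y * ((b.re - a.re) * (c.im - a.im) - (b.im - a.im) * (c.re - a.re)) = 0 := by
    linear_combination -(c.re - a.re) * l1 + (b.re - a.re) * l2
  have hx0 : x = 0 := by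
    rcases mul_eq_zero.mp x0 with h | h
    · exact h
    · exact absurd h hD'
  have hy0 : y = 0 := by
    rcases mul_eq_zero.mp y0 with h | h
    · exact h
    · exact absurd h hD'
  apply Complex.ext <;> linarith

/-- rotation followed by translation -/
noncomputable def rot (p w u : ℂ) (hu : ‖u‖ = 1) : ℂ ≃ᵢ ℂ :=
  IsometryEquiv.mk' (fun z => p + u * (z - w)) (fun z => w + (starRingEnd ℂ) u * (z - p))
    (fun z => by
      have h1 : u * (starRingEnd ℂ) u = 1 := by
        rw [Complex.mul_conj, Complex.normSq_eq_norm_sq, hu]; simp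
      simp only [add_sub_cancel_left]
      linear_combination (z - p) * h1)
    (Isometry.of_dist_eq (fun x y => by
      rw [dist_eq_norm, dist_eq_norm]
      have : p + u * (x - w) - (p + u * (y - w)) = u * (x - y) := by ring
      rw [this, norm_mul, hu, one_mul]))

lemma rot_apply (p w u : ℂ) (hu : ‖u‖ = 1) (z : ℂ) : rot p w u hu z = p + u * (z - w) := rfl

/-- glide version -/
noncomputable def rotc (p w u : ℂ) (hu : ‖u‖ = 1) : ℂ ≃ᵢ ℂ :=
  IsometryEquiv.mk' (fun z => p + u * (starRingEnd ℂ) (z - w))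
    (fun z => w + u * (starRingEnd ℂ) (z - p))
    (fun z => by
      have h1 : u * (starRingEnd ℂ) u = 1 := by
        rw [Complex.mul_conj, Complex.normSq_eq_norm_sq, hu]; simp
      simp only [add_sub_cancel_left, map_mul, conj_conj]
      linear_combination (z - p) * h1)
    (Isometry.of_dist_eq (fun x y => by
      rw [dist_eq_norm, dist_eq_norm]
      have : p + u * (starRingEnd ℂ) (x - w) - (p + u * (starRingEnd ℂ) (y - w)) =
          u * (starRingEnd ℂ) (x - y) := by simp only [map_sub]; ring
      rw [this, norm_mul, hu, one_mul, Complex.norm_conj]))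

lemma rotc_apply (p w u : ℂ) (hu : ‖u‖ = 1) (z : ℂ) :
    rotc p w u hu z = p + u * (starRingEnd ℂ) (z - w) := rfl

/-- a distance preserving map on a disc is the restriction of an isometry -/
lemma ext_iso {f : ℂ → ℂ} {w : ℂ} {r : ℝ} (hr : 0 < r)
    (h : ∀ x y, dist x w < r → dist y w < r → dist (f x) (f y) = dist x y) :
    ∃ g : ℂ ≃ᵢ ℂ, ∀ x, dist x w < r → f x = g x := by
  set e : ℝ := r / 2 with he
  have he0 : 0 < e := by positivity
  have d0 : dist w w < r := by simpa using hr
  have d1 : dist (w + e) w < r := by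
    rw [dist_eq_norm, add_sub_cancel_left, Complex.norm_real, Real.norm_eq_abs, abs_of_pos he0]
    linarith
  have d2 : dist (w + e * I) w < r := by
    rw [dist_eq_norm, add_sub_cancel_left, norm_mul, norm_I, mul_one, Complex.norm_real,
      Real.norm_eq_abs, abs_of_pos he0]
    linarith
  set p := f w
  set q := f (w + e)
  set s := f (w + e * I)
  have hpq : ‖q - p‖ = e := by
    have := h (w + e) w d1 d0
    rw [dist_eq_norm, dist_eq_norm, add_sub_cancel_left, Complex.norm_real, Real.norm_eq_abs,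
      abs_of_pos he0] at this
    exact this
  have hps : ‖s - p‖ = e := by
    have := h (w + e * I) w d2 d0
    rw [dist_eq_norm, dist_eq_norm, add_sub_cancel_left, norm_mul, norm_I, mul_one,
      Complex.norm_real, Real.norm_eq_abs, abs_of_pos he0] at this
    exact this
  have hqs : ‖s - q‖ ^ 2 = 2 * e ^ 2 := by
    have := h (w + e * I) (w + e) d2 d1
    rw [dist_eq_norm, dist_eq_norm] at this
    have h2 : ‖s - q‖ = ‖w + e * I - (w + e)‖ := this
    rw [h2, norm_sq_sub]
    simp
    ring
  set u : ℂ := (q - p) / e with hu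
  have hu1 : ‖u‖ = 1 := by
    rw [hu, norm_div, hpq, Complex.norm_real, Real.norm_eq_abs, abs_of_pos he0, div_self he0.ne']
  have hqu : q = p + u * e := by
    rw [hu]
    have : (e : ℂ) ≠ 0 := by exact_mod_cast he0.ne'
    field_simp
    ring
  -- s - p = ± I u e
  set v : ℂ := (s - p) / (u * e) with hv
  have hu0 : u ≠ 0 := by
    intro hh; rw [hh, norm_zero] at hu1; norm_num at hu1
  have hec : (e : ℂ) ≠ 0 := by exact_mod_cast he0.ne'
  have hsv : s = p + u * e * v := by
    rw [hv]; field_simp; ring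
  have hv1 : ‖v‖ = 1 := by
    rw [hv, norm_div, hps, norm_mul, hu1, one_mul, Complex.norm_real, Real.norm_eq_abs,
      abs_of_pos he0, div_self he0.ne']
  have hv2 : ‖v - 1‖ ^ 2 = 2 := by
    have h1 : s - q = (u * e) * (v - 1) := by rw [hsv, hqu]; ring
    rw [h1, norm_mul, norm_mul, hu1, one_mul, Complex.norm_real, Real.norm_eq_abs,
      abs_of_pos he0, mul_pow] at hqs
    have h3 : e ^ 2 ≠ 0 := by positivity
    have : e ^ 2 * ‖v - 1‖ ^ 2 = e ^ 2 * 2 := by linarith
    exact mul_left_cancel₀ h3 this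
  have hv1' : v.re ^ 2 + v.im ^ 2 = 1 := by
    have := norm_sq_sub v 0
    rw [sub_zero, hv1] at this
    simp only [zero_re, zero_im, sub_zero] at this
    linarith
  have hv2' : (v.re - 1) ^ 2 + v.im ^ 2 = 2 := by
    have := norm_sq_sub v 1
    rw [hv2] at this
    simp only [one_re, one_im, sub_zero] at this
    linarith
  have hre : v.re = 0 := by nlinarith
  have him : v.im = 1 ∨ v.im = -1 := by
    have : (v.im - 1) * (v.im + 1) = 0 := by rw [hre] at hv1'; linarith
    rcases mul_eq_zero.mp this with h | h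
    · exact Or.inl (by linarith)
    · exact Or.inr (by linarith)
  have fin : ∀ g : ℂ ≃ᵢ ℂ, g w = p → g (w + e) = q → g (w + e * I) = s →
      ∀ x, dist x w < r → f x = g x := by
    intro g g1 g2 g3 x hx
    have hD : cr (q - p) (s - p) ≠ 0 := by
      rw [hqu, hsv]
      have e1 : cr (p + u * e - p) (p + u * e * v - p) = e ^ 2 * (‖u‖ ^ 2) * v.im := by
        have hn := norm_sq_sub u 0
        rw [sub_zero] at hn
        rw [hn]
        simp only [cr, add_sub_cancel_left, mul_re, mul_im, ofReal_re, ofReal_im, hre, zero_re,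
          zero_im]
        ring
      rw [e1, hu1]
      rcases him with h | h
      · rw [h]; simp; exact he0.ne'
      · rw [h]; simp; exact he0.ne'
    apply three_dist hD
    · show dist (f x) (f w) = dist (g x) p
      rw [h x w hx d0, ← g1, g.dist_eq]
    · show dist (f x) (f (w + e)) = dist (g x) q
      rw [h x _ hx d1, ← g2, g.dist_eq]
    · show dist (f x) (f (w + e * I)) = dist (g x) s
      rw [h x _ hx d2, ← g3, g.dist_eq]
  rcases him with h1 | h1
  · refine ⟨rot p w u hu1, fin _ ?_ ?_ ?_⟩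
    · rw [rot_apply]; ring
    · rw [rot_apply, hqu]; ring
    · rw [rot_apply, hsv]
      have : v = I := Complex.ext (by rw [hre]; simp) (by rw [h1]; simp)
      rw [this]; ring
  · refine ⟨rotc p w u hu1, fin _ ?_ ?_ ?_⟩
    · rw [rotc_apply]; simp
    · rw [rotc_apply, hqu]; simp
    · rw [rotc_apply, hsv]
      have : v = -I := Complex.ext (by rw [hre]; simp) (by rw [h1]; simp)
      rw [this]
      simp
      ring

/-- isometries agreeing near a point are equal -/
lemma iso_eq_of_near {g g' : ℂ ≃ᵢ ℂ} {w : ℂ} (h : ∀ᶠ z in 𝓝 w, g z = g' z) : g = g' := by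
  obtain ⟨r, hr, hb⟩ := Metric.eventually_nhds_iff.mp h
  ext x
  set e : ℝ := r / 2 with he
  have he0 : 0 < e := by positivity
  have d0 : dist w w < r := by simpa using hr
  have d1 : dist (w + e) w < r := by
    rw [dist_eq_norm, add_sub_cancel_left, Complex.norm_real, Real.norm_eq_abs, abs_of_pos he0]
    linarith
  have d2 : dist (w + e * I) w < r := by
    rw [dist_eq_norm, add_sub_cancel_left, norm_mul, norm_I, mul_one, Complex.norm_real,
      Real.norm_eq_abs, abs_of_pos he0]
    linarith
  -- y := g'.symm (g x) has the same distances as x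
  have key : ∀ p, dist p w < r → dist (g'.symm (g x)) p = dist x p := by
    intro p hp
    have h1 : g p = g' p := hb hp
    have h2 : dist (g' (g'.symm (g x))) (g' p) = dist (g'.symm (g x)) p := g'.dist_eq _ _
    rw [← h2, ← h1, g'.apply_symm_apply, g.dist_eq]
  have hD : cr (w + e - w) (w + e * I - w) ≠ 0 := by
    simp only [cr, add_sub_cancel_left, mul_re, mul_im, ofReal_re, ofReal_im, I_re, I_im]
    simp
    exact he0.ne'
  have := three_dist hD (key w d0) (key _ d1) (key _ d2)
  have h3 := congrArg g' this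
  simpa using h3

/-- a local isometry of a connected open set is the restriction of an isometry -/
theorem rigid {f : ℂ → ℂ} {D : Set ℂ} (hD : IsPreconnected D) (hne : D.Nonempty)
    (h : ∀ w ∈ D, ∃ r : ℝ, 0 < r ∧ ∀ x y, dist x w < r → dist y w < r →
      dist (f x) (f y) = dist x y) : ∃ g : ℂ ≃ᵢ ℂ, ∀ x ∈ D, f x = g x := by
  have loc : ∀ w ∈ D, ∃ g : ℂ ≃ᵢ ℂ, ∀ᶠ z in 𝓝 w, f z = g z := by
    intro w hw
    obtain ⟨r, hr, hh⟩ := h w hw
    obtain ⟨g, hg⟩ := ext_iso hr hh
    exact ⟨g, Metric.eventually_nhds_iff.mpr ⟨r, hr, fun {y} hy => hg y hy⟩⟩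
  obtain ⟨w0, hw0⟩ := hne
  obtain ⟨g0, hg0⟩ := loc w0 hw0
  refine ⟨g0, ?_⟩
  set u : Set ℂ := {w | ∀ᶠ z in 𝓝 w, f z = g0 z} with hu
  set v : Set ℂ := {w | ∃ g : ℂ ≃ᵢ ℂ, g ≠ g0 ∧ ∀ᶠ z in 𝓝 w, f z = g z} with hv
  have huo : IsOpen u := by
    rw [isOpen_iff_mem_nhds]
    intro w hw
    exact eventually_eventually_nhds.mpr hw
  have hvo : IsOpen v := by
    rw [isOpen_iff_mem_nhds]
    rintro w ⟨g, hg1, hg2⟩
    filter_upwards [eventually_eventually_nhds.mpr hg2] with z hz
    exact ⟨g, hg1, hz⟩
  have hdis : Disjoint u v := by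
    rw [Set.disjoint_left]
    rintro w hw1 ⟨g, hg1, hg2⟩
    apply hg1
    apply iso_eq_of_near (w := w)
    filter_upwards [hw1, hg2] with z h1 h2
    rw [← h2, h1]
  have hcov : D ⊆ u ∪ v := by
    intro w hw
    obtain ⟨g, hg⟩ := loc w hw
    by_cases hgg : g = g0
    · left
      subst hgg
      exact hg
    · right
      exact ⟨g, hgg, hg⟩
  have := hD.subset_left_of_subset_union huo hvo hdis hcov ⟨w0, hw0, hg0⟩
  intro x hx
  exact (this hx).self_of_nhds

end Unf
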