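import Pool.Agent.Lib.Unf.Pieces

/-! Convexity of the developed set. -/

namespace Unf

open Complex Set

lemma vv_bound (N j : ℕ) (hN : 2 ≤ N) (hj : j ≤ N) : (1 ≤ j ∧ 1 ≤ tt N j ∧ tt N j ≤ tt N 1) ∨
    (j = 0 ∧ tt N j = - tt N 1) := by
  rcases Nat.eq_zero_or_pos j with h | h
  · right; subst h; exact ⟨rfl, tt_zero N⟩
  · left; exact ⟨h, tt_ge_one N j h hj, tt_le N 1 j le_rfl h⟩

lemma T_ge (N : ℕ) (hN : 2 ≤ N) : 8 ≤ tt N 1 := by
  have h1 := tt_lt N 1 2 le_rfl (by omega)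
  have h2 := tt_ge_one N 2 (by omega) hN
  linarith

/-- the sign of the last edge functional on the polygon -/
lemma ca_side (N j : ℕ) (hN : 2 ≤ N) (hj : j ≤ N) :
    0 ≤ cr (vv N 0 - vv N N) (vv N j - vv N N) := by
  have hT := T_ge N hN
  rw [vv, vv, vv, cr_pp, tt_zero, tt_last N (by omega)]
  rcases vv_bound N j hN hj with ⟨_, h1, h2⟩ | ⟨_, h⟩
  · have : 0 ≤ (tt N 1 + 1) * (tt N j - 1) * (tt N 1 + tt N j) := by
      apply mul_nonneg (mul_nonneg _ _) _ <;> linarith
    nlinarith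
  · rw [h]; ring_nf; rfl

lemma ca_dir (N : ℕ) : vv N 0 - vv N N = (tt N 0 - tt N N) •
    (((tt N N + tt N 0 : ℝ) : ℂ) + I) := by
  rw [vv, vv, pp_edge (tt N N) (tt N 0)]; ring

/-- the reflected front piece is on the other side -/
lemma ca_side_refl (N : ℕ) (b : ℕ → Bool) (hN : 2 ≤ N) (σ : Bool) : ∀ z ∈ KK N b σ,
    0 ≤ cr (vv N 0 - vv N N) (z - vv N N) ∧ cr (vv N 0 - vv N N) (rCA N z - vv N N) ≤ 0 := by
  intro z hz
  have h1 : 0 ≤ cr (vv N 0 - vv N N) (z - vv N N) := by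
    refine hull_ge ?_ z hz
    rintro _ ⟨j, hj, rfl⟩
    exact ca_side N j hN hj.1
  refine ⟨h1, ?_⟩
  rw [ca_dir, cr_smul_left] at h1 ⊢
  rw [rCA, rho_cr]
  linarith

lemma base_convex (N : ℕ) (b : ℕ → Bool) (hN : 2 ≤ N) (hb1 : b 1 = false) :
    Convex ℝ (WW N b 1) := by
  have hT := T_ge N hN
  have hWW : WW N b 1 = (rCA N '' KK N b true) ∪ KK N b false := by
    ext w
    constructor
    · rintro (h | ⟨z, hz, rfl⟩ | ⟨j, h1, h2, _⟩)
      · exact Or.inr h
      · exact Or.inl ⟨z, hz, rfl⟩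
      · omega
    · rintro (⟨z, hz, rfl⟩ | h)
      · exact Or.inr (Or.inl ⟨z, hz, rfl⟩)
      · exact Or.inl h
  have hbd := base_bounds N b hN hb1
  rw [hWW] at hbd ⊢
  have h0 : ∀ σ, vv N 0 ∈ KK N b σ := fun σ =>
    subset_convexHull ℝ _ ⟨0, ⟨by omega, Or.inl rfl⟩, rfl⟩
  have hNm : ∀ σ, vv N N ∈ KK N b σ := fun σ =>
    subset_convexHull ℝ _ ⟨N, ⟨le_rfl, Or.inr (Or.inl rfl)⟩, rfl⟩
  have e0 : rCA N (vv N 0) = vv N 0 := rho_pp_fix_right _ _
  have eN : rCA N (vv N N) = vv N N := rho_pp_fix_left _ _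
  have hvN : vv N N = pp 1 := by rw [vv, tt_last N (by omega)]
  have hv0 : vv N 0 = pp (- tt N 1) := by rw [vv, tt_zero]
  have cI : ∀ x : ℂ, cr I x = - x.re := fun x => by simp [cr]
  have cI' : ∀ x : ℂ, cr (-I) x = x.re := fun x => by simp [cr]
  apply glue (o := vv N N) (c := vv N 0) (E := I) (D := -I)
    (iso_convex _ (convex_convexHull ℝ _)) (convex_convexHull ℝ _)
    ⟨_, hNm true, eN⟩ ⟨_, h0 true, e0⟩ (hNm false) (h0 false)
  · rw [cI, hv0, hvN]; simp only [sub_re, pp_re]; nlinarith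
  · rw [cI', hv0, hvN]; simp only [sub_re, pp_re]; nlinarith
  · rintro _ ⟨z, hz, rfl⟩
    exact (ca_side_refl N b hN true z hz).2
  · intro z hz
    exact (ca_side_refl N b hN false z hz).1
  · intro w hw
    have := (hbd w (Or.inl hw)).1
    rw [cI, hvN]; simp only [sub_re, pp_re]; linarith
  · intro w hw
    have := (hbd w (Or.inr hw)).1
    rw [cI, hvN]; simp only [sub_re, pp_re]; linarith
  · intro w hw
    have := (hbd w (Or.inl hw)).2.1
    rw [cI', hv0]; simp only [sub_re, pp_re]; linarith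
  · intro w hw
    have := (hbd w (Or.inr hw)).2.1
    rw [cI', hv0]; simp only [sub_re, pp_re]; linarith

/-- support direction at the far end point -/
noncomputable def EO (N : ℕ) (b : ℕ → Bool) (i : ℕ) : ℂ :=
  if oo b i = 0 then -1 else EE (tt N (oo b i))

lemma gg_one (N : ℕ) (b : ℕ → Bool) (h01 : b 1 ≠ b 0) :
    gg N b 1 = rho (vv N 0) (tt N 0 + tt N 1) := by
  ext z
  simp only [gg, h01, if_false]
  rfl

lemma inv_one (N : ℕ) (b : ℕ → Bool) (hN : 2 ≤ N) (hb0 : b 0 = true) (hb1 : b 1 = false) :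
    Inv (tt N (oo b 1)) (tt N 1) (EO N b 1) {x | gg N b 1 x ∈ WW N b 1} := by
  have h01 : b 1 ≠ b 0 := by rw [hb0, hb1]; simp
  have hoo : oo b 1 = 0 := by simp [oo, h01]
  have hT := T_ge N hN
  have hbd := base_bounds N b hN hb1
  rw [EO, if_pos hoo, hoo, gg_one N b h01]
  have hs : tt N 0 + tt N 1 = 0 := by rw [tt_zero]; ring
  have fix0 : rho (vv N 0) (tt N 0 + tt N 1) (pp (tt N 0)) = pp (tt N 0) :=
    rho_pp_fix_left _ _
  have fix1 : rho (vv N 0) (tt N 0 + tt N 1) (pp (tt N 1)) = pp (tt N 1) :=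
    rho_pp_fix_right _ _
  have hre : ∀ z, (rho (vv N 0) (tt N 0 + tt N 1) z).re = 2 * tt N 1 ^ 2 - z.re := by
    intro z
    have := rho_re (vv N 0) (tt N 0 + tt N 1) z
    rw [hs] at this ⊢
    simp only [vv, tt_zero, sub_re, pp_re] at this ⊢
    linarith
  have him : ∀ z, (rho (vv N 0) (tt N 0 + tt N 1) z).im = z.im := by
    intro z
    have := rho_im (vv N 0) (tt N 0 + tt N 1) z
    rw [hs] at this ⊢
    simp only [vv, tt_zero, sub_im, pp_im] at this ⊢
    linarith
  refine ⟨?_, ?_, ?_, ?_, ?_, ?_⟩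
  · intro x hx y hy p q hp hq hpq
    have := base_convex N b hN hb1 hx hy hp hq hpq
    rwa [← iso_comb _ _ _ _ _ hpq] at this
  · rw [mem_ofPred_eq, fix0]
    exact Or.inl (subset_convexHull ℝ _ ⟨0, ⟨by omega, Or.inl rfl⟩, rfl⟩)
  · rw [mem_ofPred_eq, fix1]
    exact Or.inl (subset_convexHull ℝ _ ⟨1, ⟨by omega, Or.inr (Or.inr hb1)⟩, rfl⟩)
  · intro w hw
    obtain ⟨h1, h2, h3, h4⟩ := hbd _ hw
    rw [hre] at h1 h2
    simp only [cr, sub_re, sub_im, pp_re, pp_im, tt_zero]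
    nlinarith
  · intro w hw
    obtain ⟨h1, h2, h3, h4⟩ := hbd _ hw
    rw [him] at h3
    simp only [cr, sub_re, sub_im, pp_re, pp_im, tt_zero, neg_re, neg_im, one_re, one_im]
    linarith
  · intro w hw
    obtain ⟨h1, h2, h3, h4⟩ := hbd _ hw
    rw [hre] at h1 h2
    rw [him] at h3 h4
    simp only [cr, sub_re, sub_im, pp_re, pp_im, DD]
    nlinarith

lemma EO_neg (N : ℕ) (b : ℕ → Bool) (i k : ℕ) (hN : 2 ≤ N) (hi : 1 ≤ i) (hik : i ≤ k)
    (hk : k ≤ N) : cr (EO N b i) (pp (tt N k) - pp (tt N (oo b i))) < 0 := by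
  have hk1 := tt_ge_one N k (by omega) hk
  have hT := T_ge N hN
  unfold EO
  split_ifs with h
  · rw [h, tt_zero]
    simp only [cr, sub_re, sub_im, pp_re, pp_im, neg_re, neg_im, one_re, one_im]
    linarith
  · have ho := oo_lt b i hi
    set α := tt N (oo b i)
    set c := tt N k
    have hα : 8 * c ≤ α := tt_lt N (oo b i) k (by omega) (by omega)
    have hα1 : 1 ≤ α := by linarith
    have : cr (EE α) (pp c - pp α) = - (α - c) * (45 * α ^ 3 + 207 * α ^ 2 * c + 48 * α + 64 * c) := by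
      simp only [cr, sub_re, sub_im, pp_re, pp_im, EE]
      ring
    rw [this]
    have h1 : 0 < 45 * α ^ 3 + 207 * α ^ 2 * c + 48 * α + 64 * c := by positivity
    have h2 : 0 < α - c := by linarith
    nlinarith [mul_pos h2 h1]

/-- the set developed after adding triangle `i`, in frame `i` -/
lemma pull_succ (N : ℕ) (b : ℕ → Bool) (i : ℕ) (hi : 1 ≤ i) :
    {x | gg N b i x ∈ WW N b (i + 1)} = {x | gg N b i x ∈ WW N b i} ∪ Tri N b i := by
  ext x
  constructor
  · rintro (h | h | ⟨j, h1, h2, z, hz, he⟩)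
    · exact Or.inl (Or.inl h)
    · exact Or.inl (Or.inr (Or.inl h))
    · rcases Nat.lt_or_ge j i with h3 | h3
      · exact Or.inl (Or.inr (Or.inr ⟨j, h1, h3, z, hz, he⟩))
      · have : j = i := by omega
        subst this
        right
        rwa [(gg N b j).injective he]
  · rintro (h | h)
    · rcases h with h | h | ⟨j, h1, h2, z, hz, he⟩
      · exact Or.inl h
      · exact Or.inr (Or.inl h)
      · exact Or.inr (Or.inr ⟨j, h1, by omega, z, hz, he⟩)
    · exact Or.inr (Or.inr ⟨i, hi, by omega, x, h, rfl⟩)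

lemma inv_all (N : ℕ) (b : ℕ → Bool) (hN : 2 ≤ N) (hb0 : b 0 = true) (hb1 : b 1 = false)
    (i : ℕ) (hi : 1 ≤ i) (hiN : i ≤ N) :
    Inv (tt N (oo b i)) (tt N i) (EO N b i) {x | gg N b i x ∈ WW N b i} := by
  induction i, hi using Nat.le_induction with
  | base => exact inv_one N b hN hb0 hb1
  | succ i hi ih =>
    have ih := ih (by omega)
    have hτ := tt_ge_one N (i + 1) (by omega) hiN
    have h8 := tt_succ N i hi
    have ha : 64 * tt N (i + 1) ≤ tt N (oo b i) ∨ tt N (oo b i) ≤ - (8 * tt N (i + 1)) := by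
      have ho := oo_lt b i hi
      rcases Nat.eq_zero_or_pos (oo b i) with h | h
      · right
        rw [h, tt_zero, ← h8]
        have := tt_le N 1 i le_rfl hi
        linarith
      · left
        have := tt_lt N (oo b i) i h ho
        linarith
    have e1 := EO_neg N b i i hN hi le_rfl (by omega)
    have e2 := (EO_neg N b i (i + 1) hN hi (by omega) hiN).le
    have hTri : Tri N b i = convexHull ℝ {pp (tt N (oo b i)), pp (tt N i), pp (tt N (i + 1))} :=
      rfl
    rw [h8] at ih e1 hTri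
    have hpull := pull_succ N b i hi
    rw [hTri] at hpull
    by_cases h : b (i + 1) = b i
    · have hg : gg N b (i + 1) = gg N b i := by simp [gg, h]
      have hoo : oo b (i + 1) = oo b i := by simp [oo, h]
      have hEO : EO N b (i + 1) = EO N b i := by simp [EO, hoo]
      rw [hg, hoo, hEO, hpull]
      exact ih.same hτ ha e1 e2
    · have hg : gg N b (i + 1) = (rho (vv N i) (tt N i + tt N (i + 1))).trans (gg N b i) := by
        simp [gg, h]
      have hoo : oo b (i + 1) = i := by simp [oo, h]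
      have hEO : EO N b (i + 1) = EE (tt N i) := by
        rw [EO, hoo, if_neg (by omega)]
      rw [hoo, hEO]
      have hset : {x | gg N b (i + 1) x ∈ WW N b (i + 1)} =
          {x | rho (pp (8 * tt N (i + 1))) (8 * tt N (i + 1) + tt N (i + 1)) x ∈
            {x | gg N b i x ∈ WW N b (i + 1)}} := by
        ext x
        rw [mem_ofPred_eq, mem_ofPred_eq, mem_ofPred_eq, hg, vv, h8]
        rfl
      rw [hset, hpull, h8]
      exact ih.change hτ ha e1 e2

/-- the development is convex -/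
theorem WW_convex (N : ℕ) (b : ℕ → Bool) (hN : 2 ≤ N) (hb0 : b 0 = true) (hb1 : b 1 = false)
    (i : ℕ) (hi : 1 ≤ i) (hiN : i ≤ N) : Convex ℝ (WW N b i) := by
  have := (inv_all N b hN hb0 hb1 i hi hiN).conv
  have h2 := iso_convex (gg N b i) this
  have h3 : gg N b i '' {x | gg N b i x ∈ WW N b i} = WW N b i := by
    ext w
    constructor
    · rintro ⟨x, hx, rfl⟩; exact hx
    · intro hw
      refine ⟨(gg N b i).symm w, ?_, by simp⟩
      rw [mem_ofPred_eq]; simpa using hw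
  rwa [h3] at h2

end Unf
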