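import Pool.Agent.Lib.Unf.Paths
import Pool.Agent.Lib.Unf.Rigid

/-! Uniqueness of the unfolding up to congruence. -/

namespace Unf

open Complex Set Topology Filter

lemma Cut_closed (N : ℕ) (b : ℕ → Bool) (σ : Bool) : IsClosed {z | Cut N b σ z} := by
  classical
  have e : {z | Cut N b σ z} = ⋃ p ∈ ((Finset.range (N + 1)) ×ˢ (Finset.range (N + 1))).filter
      (fun p => NB N b σ p.1 p.2), segment ℝ (vv N p.1) (vv N p.2) := by
    ext z
    simp only [Cut, mem_ofPred_eq, mem_iUnion, Finset.mem_filter, Finset.mem_product,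
      Finset.mem_range, exists_prop, Prod.exists]
    constructor
    · rintro ⟨a, c, h1, h2⟩
      exact ⟨a, c, ⟨⟨by have := h1.1; have := h1.2.1; omega, by have := h1.2.1; omega⟩, h1⟩, h2⟩
    · rintro ⟨a, c, ⟨_, h1⟩, h2⟩
      exact ⟨a, c, h1, h2⟩
  rw [e]
  refine isClosed_biUnion_finset (fun p _ => ?_)
  rw [← convexHull_pair]
  exact ((Set.toFinite _).isCompact_convexHull ℝ).isClosed

/-- the developed set off the cut -/
def DS (N : ℕ) (b : ℕ → Bool) : Set ℂ := dev N b '' {x | x.1 ∈ PP N ∧ x ∉ Gam N b}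

/-- the developing map is open off the cut -/
lemma dev_open (N : ℕ) (b : ℕ → Bool) (hN : 2 ≤ N) (hb0 : b 0 = true) (hb1 : b 1 = false)
    (hS : ∃ j, 1 ≤ j ∧ j < N ∧ b j = true) (x : ℂ × Bool) (hx : x.1 ∈ PP N)
    (hxG : x ∉ Gam N b) (ρ : ℝ) (hρ : 0 < ρ) : ∃ r : ℝ, 0 < r ∧ ∀ w, dist w (dev N b x) < r →
      ∃ y : ℂ × Bool, y.1 ∈ PP N ∧ y ∉ Gam N b ∧ surfDist (PP N) x y < ρ ∧ dev N b y = w := by
  have h01 : b 1 ≠ b 0 := by rw [hb0, hb1]; simp
  obtain ⟨z, σ⟩ := x
  simp only [Gam, mem_ofPred_eq, not_or, not_and] at hxG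
  obtain ⟨hc1, hc2⟩ := hxG
  simp only at hx hc1 hc2
  obtain ⟨G, hG⟩ := frame_exists N b hN h01 σ hx
  obtain ⟨r1, hr1, hn1⟩ := frame_near N b hN h01 σ hc1 hG
  obtain ⟨c1, hc1p, hcc1⟩ := Metric.isOpen_iff.mp (Cut_closed N b σ).isOpen_compl z hc1
  have hdev1 : ∀ y, y ∈ PP N → dist y z < r1 → dev N b (y, σ) = G y := by
    intro y hy hd
    obtain ⟨g, hg, he⟩ := dev_spec N b hN h01 (y, σ) hy
    rw [he, hn1 y hd g hg]
  have hdx : dev N b (z, σ) = G z := hdev1 z hx (by simpa using hr1)
  rw [hdx]
  by_cases hzf : z ∈ frontier (PP N)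
  · have hc2' := hc2 hzf
    obtain ⟨G', hG'⟩ := frame_exists N b hN h01 (!σ) hx
    obtain ⟨r2, hr2, hn2⟩ := frame_near N b hN h01 (!σ) hc2' hG'
    obtain ⟨c2, hc2p, hcc2⟩ := Metric.isOpen_iff.mp (Cut_closed N b (!σ)).isOpen_compl z hc2'
    have hdev2 : ∀ y, y ∈ PP N → dist y z < r2 → dev N b (y, !σ) = G' y := by
      intro y hy hd
      obtain ⟨g, hg, he⟩ := dev_spec N b hN h01 (y, !σ) hy
      rw [he, hn2 y hd g hg]
    obtain ⟨a, ha, hseg, h0, h1, h2, hGG⟩ :=
      compat_opp N b hN hb0 hb1 hS σ hzf hG hG' hc1 hc2'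
    obtain ⟨δ, hδ, hde⟩ := dist_edge N a hN ha hseg h0 h1 h2
    -- near z the polygon is a half plane
    have hhalf : ∃ R : ℝ, 0 < R ∧ ∀ ζ, dist ζ z < R → 0 ≤ FF N a (nx N a) ζ → ζ ∈ PP N := by
      obtain ⟨R, hR, hfr⟩ := frontier_near N a hN ha hseg h1 h2
      refine ⟨R, hR, ?_⟩
      by_contra hcon
      push Not at hcon
      obtain ⟨ζ, hζ1, hζ2, hζ3⟩ := hcon
      -- interior points near z exist on the positive side
      have hζ4 : 0 < FF N a (nx N a) ζ := by
        rcases hζ2.lt_or_eq with h | h
        · exact h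
        · exact absurd ((PP_closed N).frontier_subset ((hfr ζ hζ1).mpr h.symm)) hζ3
      -- the half disc is connected, disjoint from the frontier
      set H : Set ℂ := Metric.ball z R ∩ {w | 0 < FF N a (nx N a) w} with hH
      have hHc : Convex ℝ H := by
        apply (convex_ball z R).inter
        intro x hx y hy p q hp hq hpq
        simp only [mem_ofPred_eq] at *
        have e := cr_comb (vv N (nx N a) - vv N a) (vv N a) x y p q hpq
        have e' : FF N a (nx N a) (p • x + q • y) =
          p * FF N a (nx N a) x + q * FF N a (nx N a) y := e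
        rw [e']
        rcases hp.lt_or_eq with h | h
        · have := mul_pos h hx
          have := mul_nonneg hq hy.le
          linarith
        · have : q = 1 := by linarith
          rw [← h, this]; linarith
      have hHf : H ∩ frontier (PP N) = ∅ := by
        ext w
        simp only [mem_inter_iff, mem_empty_iff_false, iff_false, not_and]
        rintro ⟨hw1, hw2⟩ hw3
        have := (hfr w hw1).mp hw3
        simp only [mem_ofPred_eq] at hw2
        linarith
      -- a point of the interior in H
      have hint : ∃ w ∈ H, w ∈ interior (PP N) := by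
        have hconv : Convex ℝ (PP N) := convex_convexHull ℝ _
        have hin : (interior (PP N)).Nonempty := by
          have h1 := ori N 0 1 N hN (by omega) (by omega) le_rfl
          refine (tri_int_nonempty h1).mono (interior_mono (convexHull_mono ?_))
          rintro x (rfl | rfl | rfl)
          · exact ⟨0, by simp, rfl⟩
          · exact ⟨1, by simp; omega, rfl⟩
          · exact ⟨N, by simp, rfl⟩
        have hzc : z ∈ closure (interior (PP N)) := by
          rw [hconv.closure_interior_eq_closure_of_nonempty_interior hin]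
          exact subset_closure hx
        obtain ⟨w, hw1, hw2⟩ := Metric.mem_closure_iff.mp hzc R hR
        refine ⟨w, ⟨by rw [Metric.mem_ball, dist_comm]; exact hw2, ?_⟩, hw1⟩
        have hd : vv N (nx N a) - vv N a ≠ 0 := by
          rw [edge_line]
          intro hh
          rw [smul_eq_zero] at hh
          rcases hh with hh | hh
          · exact tt_ne N a hN ha hh
          · exact s_add_I_ne _ hh
        exact pos_of_interior hd (fun x hx => PP_edges N a hN ha hx) hw1
      obtain ⟨w, hwH, hwi⟩ := hint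
      have hcov : H ⊆ interior (PP N) ∪ (PP N)ᶜ := by
        intro y hy
        by_cases hyP : y ∈ PP N
        · left
          by_contra hyi
          have : y ∈ H ∩ frontier (PP N) := ⟨hy, subset_closure hyP, hyi⟩
          rw [hHf] at this
          exact this
        · exact Or.inr hyP
      have hsub := hHc.isPreconnected.subset_left_of_subset_union isOpen_interior
        (PP_closed N).isOpen_compl (by
          rw [Set.disjoint_left]
          intro y hy1 hy2
          exact hy2 (interior_subset hy1)) hcov ⟨w, hwH, hwi⟩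
      exact hζ3 (interior_subset (hsub ⟨hζ1, hζ4⟩))
    obtain ⟨R, hR, hhalf⟩ := hhalf
    have hrz : re N a z = z := re_fix N a hN ha z h0
    refine ⟨min ρ (min (min r1 r2) (min (min c1 c2) (min δ R))), by positivity, ?_⟩
    intro w hw
    simp only [lt_min_iff] at hw
    obtain ⟨w1, ⟨w2, w3⟩, ⟨w4, w5⟩, w6, w7⟩ := hw
    set u := G.symm w with hu
    have hGu : G u = w := by rw [hu]; simp
    have hdu : dist u z = dist w (G z) := by rw [← hGu, G.dist_eq]
    rw [← hdu] at w1 w2 w3 w4 w5 w6 w7
    rcases le_total 0 (FF N a (nx N a) u) with hF | hF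
    · have huP := hhalf u w7 hF
      have k1 : ¬ Cut N b σ u := hcc1 w4
      have k2 : ¬ Cut N b (!σ) u := hcc2 w5
      refine ⟨(u, σ), huP, ?_, ?_, ?_⟩
      · rintro (h | ⟨_, h⟩)
        · exact k1 h
        · exact k2 h
      · rw [surfDist, if_pos rfl, dist_comm]; exact w1
      · rw [hdev1 u huP w2, hGu]
    · set u' := re N a u with hu'
      have hF' : 0 ≤ FF N a (nx N a) u' := by rw [hu', re_side]; linarith
      have hdu' : dist u' z = dist u z := by
        have : dist (re N a u) (re N a z) = dist u z := (re N a).dist_eq _ _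
        rw [hrz] at this; exact this
      rw [← hdu'] at w1 w2 w3 w4 w5 w6 w7
      have huP := hhalf u' w7 hF'
      have k1 : ¬ Cut N b σ u' := hcc1 w4
      have k2 : ¬ Cut N b (!σ) u' := hcc2 w5
      refine ⟨(u', !σ), huP, ?_, ?_, ?_⟩
      · rintro (h | ⟨_, h⟩)
        · exact k2 h
        · simp only [Bool.not_not] at h; exact k1 h
      · rw [surfDist, if_neg (by cases σ <;> simp)]
        rw [hde z hx u' huP (by simpa using hδ) w6, hu', re_re, dist_comm, ← hdu']
        exact w1
      · rw [hdev2 u' huP w3, hGG, hu', re_re, hGu]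
  · have hcl : IsClosed (frontier (PP N)) := isClosed_frontier
    obtain ⟨r0, hr0, hball⟩ := Metric.isOpen_iff.mp hcl.isOpen_compl z hzf
    have hzi : z ∈ interior (PP N) := by
      by_contra hh
      exact hzf ⟨subset_closure hx, hh⟩
    obtain ⟨r3, hr3, hball3⟩ := Metric.isOpen_iff.mp isOpen_interior z hzi
    refine ⟨min ρ (min (min r1 c1) (min r0 r3)), by positivity, ?_⟩
    intro w hw
    simp only [lt_min_iff] at hw
    obtain ⟨w1, ⟨w2, w3⟩, w4, w5⟩ := hw
    set u := G.symm w with hu
    have hGu : G u = w := by rw [hu]; simp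
    have hdu : dist u z = dist w (G z) := by rw [← hGu, G.dist_eq]
    rw [← hdu] at w1 w2 w3 w4 w5
    have huP : u ∈ PP N := interior_subset (hball3 w5)
    have k1 : ¬ Cut N b σ u := hcc1 w3
    have k3 : u ∉ frontier (PP N) := hball w4
    refine ⟨(u, σ), huP, ?_, ?_, ?_⟩
    · rintro (h | ⟨h, _⟩)
      · exact k1 h
      · exact k3 h
    · rw [surfDist, if_pos rfl, dist_comm]; exact w1
    · rw [hdev1 u huP w2, hGu]

/-! connectedness -/

/-- developed part of a piece -/
def DK (N : ℕ) (b : ℕ → Bool) (K : Set ℂ) (σ : Bool) : Set ℂ :=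
  dev N b '' {x | x.1 ∈ K ∧ x.2 = σ ∧ x ∉ Gam N b}

lemma DK_preconn (N : ℕ) (b : ℕ → Bool) (hN : 2 ≤ N) (h01 : b 1 ≠ b 0) {K : Set ℂ} {σ : Bool}
    {g : ℂ ≃ᵢ ℂ} (hK : Convex ℝ K) (hKi : (interior K).Nonempty) (hKP : K ⊆ PP N)
    (hFr : ∀ z ∈ K, Fr N b σ z g) (hnc : ∀ z ∈ interior K, ¬ Cut N b σ z) :
    IsPreconnected (DK N b K σ) := by
  have h1 : IsPreconnected (g '' interior K) :=
    hK.interior.isPreconnected.image g g.continuous.continuousOn
  apply h1.subset_closure
  · rintro _ ⟨z, hz, rfl⟩
    have hzK := interior_subset hz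
    refine ⟨(z, σ), ⟨hzK, rfl, ?_⟩, dev_eq N b hN h01 (z, σ) (hFr z hzK) (hKP hzK) (hnc z hz)⟩
    rintro (h | ⟨h1, h2⟩)
    · exact hnc z hz h
    · exact h1.2 (interior_mono hKP hz)
  · rintro _ ⟨⟨z, τ⟩, ⟨hz1, hz2, hz3⟩, rfl⟩
    simp only at hz1 hz2
    subst hz2
    have hnc' : ¬ Cut N b τ z := fun h => hz3 (Or.inl h)
    rw [dev_eq N b hN h01 (z, τ) (hFr z hz1) (hKP hz1) hnc']
    exact closure_piece N b hK hKi (fun w hw => mem_image_of_mem g hw) z hz1

lemma mid_ne_left {u v : ℂ} (h : u ≠ v) : midpoint ℝ u v ≠ u := by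
  intro hh
  rw [midpoint_eq_left_iff] at hh
  exact h hh

lemma mid_ne_right {u v : ℂ} (h : u ≠ v) : midpoint ℝ u v ≠ v := by
  intro hh
  rw [midpoint_eq_right_iff] at hh
  exact h hh

lemma nx_le (N a : ℕ) (ha : a ≤ N) : nx N a ≤ N ∧ nx N a ≠ a ∨ N = 0 := by
  rcases ha.lt_or_eq with h | h
  · rw [nx_lt N a h]; omega
  · rw [h, nx_last]; omega

/-- the midpoint of an edge which is not a chord of the chain of face `σ` is off its cut -/
lemma mid_edge_not_cut (N : ℕ) (b : ℕ → Bool) (hN : 2 ≤ N) (σ : Bool) (a : ℕ) (ha : a ≤ N)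
    (hno : ∀ p q, NB N b σ p q → ¬ ((a = p ∨ a = q) ∧ (nx N a = p ∨ nx N a = q))) :
    ¬ Cut N b σ (midpoint ℝ (vv N a) (vv N (nx N a))) := by
  rintro ⟨p, q, hpq, hseg⟩
  have hne : nx N a ≠ a := by
    rcases nx_le N a ha with h | h
    · exact h.2
    · omega
  have hvne : vv N a ≠ vv N (nx N a) := fun h => hne (vv_inj N hN _ _ h).symm
  have hm : midpoint ℝ (vv N a) (vv N (nx N a)) ∈ segment ℝ (vv N a) (vv N (nx N a)) :=
    midpoint_mem_segment _ _
  have h0 := FF_on_seg N a (nx N a) hm
  have hz : midpoint ℝ (vv N a) (vv N (nx N a)) ∈ HV N {p, q} := by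
    rw [HV, image_pair, convexHull_pair]; exact hseg
  obtain ⟨e1, e2⟩ := edge_endpoints N a hN ha (V := {p, q}) (by
    have h1 := hpq.1
    have h2 := hpq.2.1
    rintro j (rfl | rfl) <;> omega) hz h0 (mid_ne_left hvne) (mid_ne_right hvne)
  exact hno p q hpq ⟨e1, e2⟩

lemma tri_int (N : ℕ) (b : ℕ → Bool) (hN : 2 ≤ N) (i : ℕ) (h1 : 1 ≤ i) (hiN : i < N) :
    (interior (Tri N b i)).Nonempty :=
  tri_int_nonempty (ori N _ _ _ hN (oo_lt b i h1) (by omega) (by omega))

theorem DS_preconn (N : ℕ) (b : ℕ → Bool) (hN : 2 ≤ N) (hb0 : b 0 = true) (hb1 : b 1 = false)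
    (hS : ∃ j, 1 ≤ j ∧ j < N ∧ b j = true) : IsPreconnected (DS N b) := by
  have h01 : b 1 ≠ b 0 := by rw [hb0, hb1]; simp
  have hconvK : ∀ σ, Convex ℝ (KK N b σ) := fun σ => convex_convexHull ℝ _
  have hKint : ∀ σ, (interior (KK N b σ)).Nonempty := by
    intro σ
    have : ∃ j, 1 ≤ j ∧ j < N ∧ b j = σ := by
      cases σ
      · exact ⟨1, le_rfl, by omega, hb1⟩
      · exact hS
    obtain ⟨j, hj1, hj2, hj3⟩ := this
    have h1 := ori N 0 j N hN (by omega) (by omega) le_rfl
    refine (tri_int_nonempty h1).mono (interior_mono (convexHull_mono ?_))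
    rintro x (rfl | rfl | rfl)
    · exact ⟨0, ⟨by omega, Or.inl rfl⟩, rfl⟩
    · exact ⟨j, ⟨by omega, Or.inr (Or.inr hj3)⟩, rfl⟩
    · exact ⟨N, ⟨le_rfl, Or.inr (Or.inl rfl)⟩, rfl⟩
  have hKp : ∀ σ, IsPreconnected (DK N b (KK N b σ) σ) := fun σ =>
    DK_preconn N b hN h01 (hconvK σ) (hKint σ) (KK_sub N b σ) (fun z hz => Or.inl ⟨hz, rfl⟩)
      (fun z hz => kk_int_not_cut N b hN σ hz)
  have hTp : ∀ i, 1 ≤ i → i < N → IsPreconnected (DK N b (Tri N b i) (!b i)) := by
    intro i h1 hiN
    have hbi : b i ≠ !b i := by cases b i <;> simp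
    exact DK_preconn N b hN h01 (convex_convexHull ℝ _) (tri_int N b hN i h1 hiN)
      (Tri_sub N b i h1 hiN) (fun z hz => Or.inr ⟨i, h1, hiN, hbi, hz, rfl⟩)
      (fun z hz => tri_int_not_cut N b hN h01 _ i h1 hiN hbi hz)
  -- growing unions
  set Cn : ℕ → Set ℂ := fun i => (DK N b (KK N b false) false ∪ DK N b (KK N b true) true) ∪
    ⋃ j ∈ Finset.Ico 1 i, DK N b (Tri N b j) (!b j) with hCn
  have hCsucc : ∀ i, 1 ≤ i → Cn (i + 1) = Cn i ∪ DK N b (Tri N b i) (!b i) := by
    intro i hi
    ext w
    simp only [hCn, mem_union, mem_iUnion, Finset.mem_Ico, exists_prop]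
    constructor
    · rintro (h | ⟨j, ⟨h1, h2⟩, h3⟩)
      · exact Or.inl (Or.inl h)
      · rcases Nat.lt_or_ge j i with h | h
        · exact Or.inl (Or.inr ⟨j, ⟨h1, h⟩, h3⟩)
        · have : j = i := by omega
          subst this
          exact Or.inr h3
    · rintro ((h | ⟨j, ⟨h1, h2⟩, h3⟩) | h)
      · exact Or.inl h
      · exact Or.inr ⟨j, ⟨h1, by omega⟩, h3⟩
      · exact Or.inr ⟨i, ⟨hi, by omega⟩, h⟩
  -- points on two faces
  have offG : ∀ (z : ℂ), ¬ Cut N b true z → ¬ Cut N b false z → ∀ τ, (z, τ) ∉ Gam N b := by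
    intro z h1 h2 τ
    rintro (h | ⟨_, h⟩)
    · cases τ
      · exact h2 h
      · exact h1 h
    · cases τ
      · exact h1 h
      · exact h2 h
  have hCpre : ∀ i, 1 ≤ i → i ≤ N → IsPreconnected (Cn i) := by
    intro i hi
    induction i, hi using Nat.le_induction with
    | base =>
      intro _
      have hC1 : Cn 1 = DK N b (KK N b false) false ∪ DK N b (KK N b true) true := by
        show (DK N b (KK N b false) false ∪ DK N b (KK N b true) true) ∪
          ⋃ j ∈ Finset.Ico 1 1, DK N b (Tri N b j) (!b j) = _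
        rw [Finset.Ico_self]
        simp only [Finset.notMem_empty, iUnion_of_empty, iUnion_empty, union_empty]
      rw [hC1]
      -- common point: midpoint of the last edge
      set μ := midpoint ℝ (vv N N) (vv N (nx N N)) with hμ
      have hnc : ∀ σ, ¬ Cut N b σ μ := by
        intro σ
        apply mid_edge_not_cut N b hN σ N le_rfl
        rintro p q ⟨h1, h2, h3, h4, h5⟩ ⟨h6, h7⟩
        rw [nx_last] at h7
        have hp : p = 0 := by omega
        have hq : q = N := by omega
        subst hp hq
        obtain ⟨j, hj1, hj2, hj3⟩ := hS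
        rw [hb0] at h3
        exact h5 j (by omega) hj2 (by rw [hj3, ← h3])
      have hμs : μ ∈ segment ℝ (vv N N) (vv N (nx N N)) := midpoint_mem_segment _ _
      have hμF : FF N N (nx N N) μ = 0 := FF_on_seg N N (nx N N) hμs
      have hμK : ∀ σ, μ ∈ KK N b σ := by
        intro σ
        refine (hconvK σ).segment_subset ?_ ?_ hμs
        · exact subset_convexHull ℝ _ ⟨N, ⟨le_rfl, Or.inr (Or.inl rfl)⟩, rfl⟩
        · rw [nx_last]
          exact subset_convexHull ℝ _ ⟨0, ⟨by omega, Or.inl rfl⟩, rfl⟩
      have hrC : rCA N μ = μ := by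
        have := re_fix N N hN le_rfl μ hμF
        rwa [re, nx_last] at this
      refine IsPreconnected.union (x := μ) ?_ ?_ (hKp false) (hKp true)
      · refine ⟨(μ, false), ⟨hμK false, rfl, offG μ (hnc true) (hnc false) false⟩, ?_⟩
        rw [dev_eq N b hN h01 (μ, false) (g := kf N false) (Or.inl ⟨hμK false, rfl⟩)
          (KK_sub N b false (hμK false)) (hnc false)]
        rfl
      · refine ⟨(μ, true), ⟨hμK true, rfl, offG μ (hnc true) (hnc false) true⟩, ?_⟩
        rw [dev_eq N b hN h01 (μ, true) (g := kf N true) (Or.inl ⟨hμK true, rfl⟩)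
          (KK_sub N b true (hμK true)) (hnc true)]
        exact hrC
    | succ i hi ih =>
      intro hiN
      rw [hCsucc i hi]
      have hbi : b i ≠ !b i := by cases b i <;> simp
      -- common point: midpoint of the exposed edge
      have hpt : ∃ w, w ∈ Cn i ∧ w ∈ DK N b (Tri N b i) (!b i) := by
        have ho := oo_lt b i hi
        rcases Nat.lt_or_ge i 2 with h2 | h2
        · have hi1 : i = 1 := by omega
          subst hi1
          have hoo : oo b 1 = 0 := by omega
          set μ := midpoint ℝ (vv N 0) (vv N (nx N 0)) with hμ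
          have hnx : nx N 0 = 1 := nx_lt N 0 (by omega)
          have hnc : ∀ σ, ¬ Cut N b σ μ := by
            intro σ
            apply mid_edge_not_cut N b hN σ 0 (by omega)
            rintro p q ⟨h1, h2, h3, h4, h5⟩ ⟨h6, h7⟩
            rw [hnx] at h7
            have hp : p = 0 := by omega
            have hq : q = 1 := by omega
            subst hp hq
            rw [hb0] at h3
            rw [hb1, ← h3] at h4
            rcases h4 with h4 | h4
            · simp at h4
            · omega
          have hμs : μ ∈ segment ℝ (vv N 0) (vv N (nx N 0)) := midpoint_mem_segment _ _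
          have hμF : FF N 0 (nx N 0) μ = 0 := FF_on_seg N 0 (nx N 0) hμs
          have hμK : μ ∈ KK N b false := by
            refine (hconvK false).segment_subset ?_ ?_ hμs
            · exact subset_convexHull ℝ _ ⟨0, ⟨by omega, Or.inl rfl⟩, rfl⟩
            · rw [hnx]
              exact subset_convexHull ℝ _ ⟨1, ⟨by omega, Or.inr (Or.inr hb1)⟩, rfl⟩
          have hμT : μ ∈ Tri N b 1 := by
            refine (convex_convexHull ℝ _).segment_subset ?_ ?_ hμs
            · rw [hoo]; exact subset_convexHull ℝ _ (by simp)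
            · rw [hnx]; exact subset_convexHull ℝ _ (by simp)
          have hg1 : gg N b 1 μ = μ := by
            have := re_fix N 0 hN (by omega) μ hμF
            rw [gg_one N b h01]
            rwa [re, hnx] at this
          refine ⟨μ, Or.inl (Or.inl ⟨(μ, false), ⟨hμK, rfl, offG μ (hnc true) (hnc false) false⟩, ?_⟩),
            ⟨(μ, !b 1), ⟨hμT, rfl, offG μ (hnc true) (hnc false) _⟩, ?_⟩⟩
          · rw [dev_eq N b hN h01 (μ, false) (g := kf N false) (Or.inl ⟨hμK, rfl⟩)
              (KK_sub N b false hμK) (hnc false)]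
            rfl
          · rw [dev_eq N b hN h01 (μ, !b 1) (g := gg N b 1) (Or.inr ⟨1, le_rfl, by omega, hbi, hμT, rfl⟩)
              (KK_sub N b false hμK) (hnc _)]
            exact hg1
        · obtain ⟨j, rfl⟩ : ∃ j, i = j + 1 := ⟨i - 1, by omega⟩
          have hbj : b j ≠ !b j := by cases b j <;> simp
          by_cases hbb : b (j + 1) = b j
          · -- same fan: diagonal
            have hoo : oo b (j + 1) = oo b j := by simp [oo, hbb]
            have hgg : gg N b (j + 1) = gg N b j := by simp [gg, hbb]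
            have hoj := oo_lt b j (by omega)
            obtain ⟨hs1, hs2⟩ := oo_spec b h01 j (by omega)
            set o := oo b j with ho'
            have hne : vv N o ≠ vv N (j + 1) := fun h => by
              have := vv_inj N hN _ _ h; omega
            set μ := midpoint ℝ (vv N o) (vv N (j + 1)) with hμ
            have hμs : μ ∈ segment ℝ (vv N o) (vv N (j + 1)) := midpoint_mem_segment _ _
            have hμ0 : FF N o (j + 1) μ = 0 := FF_on_seg N o (j + 1) hμs
            have hμT : μ ∈ Tri N b (j + 1) := by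
              refine (convex_convexHull ℝ _).segment_subset ?_ ?_ hμs
              · rw [hoo]; exact subset_convexHull ℝ _ (by simp)
              · exact subset_convexHull ℝ _ (by simp)
            have hμT' : μ ∈ Tri N b j := by
              refine (convex_convexHull ℝ _).segment_subset ?_ ?_ hμs
              · exact subset_convexHull ℝ _ (by simp [ho'])
              · exact subset_convexHull ℝ _ (by simp)
            have hμH : μ ∈ HV N {o, j + 1} := by
              rw [HV, image_pair, convexHull_pair]; exact hμs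
            -- not on the frontier
            have hnf : μ ∉ frontier (PP N) := by
              intro hf
              obtain ⟨a, ha, hseg, h0⟩ := frontier_edge N hN hf
              have hV : ∀ k ∈ ({o, j + 1} : Set ℕ), k ≤ N := by
                rintro k (rfl | rfl) <;> omega
              have hvx : ∀ k ≤ N, μ ≠ vv N k := by
                intro k hk he
                have h5 : vv N k ∈ HV N {o, j + 1} := he ▸ hμH
                rcases vertex_in_hull N k hN h5 with h6 | h6
                · rw [h6] at he; exact mid_ne_left hne he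
                · have h6' : k = j + 1 := h6
                  rw [h6'] at he; exact mid_ne_right hne he
              have hnxl : nx N a ≤ N := by
                rcases nx_le N a ha with h | h
                · exact h.1
                · omega
              obtain ⟨c1, c2⟩ := edge_endpoints N a hN ha hV hμH h0 (hvx a ha) (hvx _ hnxl)
              rcases ha.lt_or_eq with h | h
              · rw [nx_lt N a h] at c2
                simp only [mem_insert_iff, mem_singleton_iff] at c1 c2
                omega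
              · subst h
                rw [nx_last] at c2
                simp only [mem_insert_iff, mem_singleton_iff] at c1 c2
                omega
            -- not on a chord
            have hnc : ¬ Cut N b (!b j) μ := by
              rintro ⟨p, q, ⟨h1, h2, h3, h4, h5⟩, hseg⟩
              have hbo : b o = !b j := by
                revert hs1; cases b o <;> cases b j <;> simp
              have hpp : p ≤ o ∨ j + 1 < p := by
                by_contra hh
                push Not at hh
                rcases hh.2.lt_or_eq with h6 | h6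
                · have := hs2 p hh.1 (by omega)
                  rw [h3] at this; exact hbj this.symm
                · rw [h6, hbb] at h3; exact hbj h3
              have hqq : q ≤ o ∨ j + 1 < q := by
                by_contra hh
                push Not at hh
                rcases h4 with h4 | h4
                · rcases hh.2.lt_or_eq with h6 | h6
                  · have := hs2 q hh.1 (by omega)
                    rw [h4] at this; exact hbj this.symm
                  · rw [h6, hbb] at h4; exact hbj h4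
                · omega
              have hz : μ ∈ HV N {p, q} := by
                rw [HV, image_pair, convexHull_pair]; exact hseg
              have hf := (HV_face N o (j + 1) (V := {p, q}) (by
                rintro k (rfl | rfl)
                · exact (FF_nonneg N o (j + 1) _ hN (by omega) (by omega) (by omega) (by omega)).1
                · exact (FF_nonneg N o (j + 1) _ hN (by omega) (by omega) (by omega)
                    (by omega)).1) hz).2 hμ0
              apply mid_ne_left hne
              refine HV_single N o ?_ hf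
              rintro k ⟨hk, hk0⟩
              have hk' : (k ≤ o ∨ j + 1 < k) ∧ k ≤ N := by
                rcases hk with rfl | rfl
                · exact ⟨hpp, by omega⟩
                · exact ⟨hqq, by omega⟩
              rcases (FF_nonneg N o (j + 1) k hN (by omega) (by omega) hk'.2 (by omega)).2 hk0 with h | h
              · exact h
              · omega
            have hoff : (μ, !b j) ∉ Gam N b := by
              rintro (h | ⟨h, _⟩)
              · exact hnc h
              · exact hnf h
            have hμP : μ ∈ PP N := Tri_sub N b j (by omega) (by omega) hμT'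
            refine ⟨gg N b j μ, Or.inr ?_, ?_⟩
            · simp only [mem_iUnion, Finset.mem_Ico, exists_prop]
              refine ⟨j, ⟨by omega, by omega⟩, (μ, !b j), ⟨hμT', rfl, hoff⟩, ?_⟩
              exact dev_eq N b hN h01 (μ, !b j) (g := gg N b j)
                (Or.inr ⟨j, by omega, by omega, hbj, hμT', rfl⟩) hμP hnc
            · refine ⟨(μ, !b (j + 1)), ⟨hμT, rfl, by rw [hbb]; exact hoff⟩, ?_⟩
              rw [← hgg]
              exact dev_eq N b hN h01 (μ, !b (j + 1)) (g := gg N b (j + 1))
                (Or.inr ⟨j + 1, by omega, by omega, hbi, hμT, rfl⟩) hμP (by rw [hbb]; exact hnc)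
          · -- change of face: polygon edge
            have hoo : oo b (j + 1) = j := by simp [oo, hbb]
            have hnx : nx N j = j + 1 := nx_lt N j (by omega)
            set μ := midpoint ℝ (vv N j) (vv N (nx N j)) with hμ
            have hnc : ∀ σ, ¬ Cut N b σ μ := by
              intro σ
              apply mid_edge_not_cut N b hN σ j (by omega)
              rintro p q ⟨h1, h2, h3, h4, h5⟩ ⟨h6, h7⟩
              rw [hnx] at h7
              have hp : p = j := by omega
              have hq : q = j + 1 := by omega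
              subst hp hq
              rcases h4 with h4 | h4
              · exact hbb (by rw [h3, h4])
              · omega
            have hμs : μ ∈ segment ℝ (vv N j) (vv N (nx N j)) := midpoint_mem_segment _ _
            have hμF : FF N j (nx N j) μ = 0 := FF_on_seg N j (nx N j) hμs
            have hμT : μ ∈ Tri N b (j + 1) := by
              refine (convex_convexHull ℝ _).segment_subset ?_ ?_ hμs
              · rw [hoo]; exact subset_convexHull ℝ _ (by simp)
              · rw [hnx]; exact subset_convexHull ℝ _ (by simp)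
            have hμT' : μ ∈ Tri N b j := by
              refine (convex_convexHull ℝ _).segment_subset ?_ ?_ hμs
              · exact subset_convexHull ℝ _ (by simp)
              · rw [hnx]; exact subset_convexHull ℝ _ (by simp)
            have hμP : μ ∈ PP N := Tri_sub N b j (by omega) (by omega) hμT'
            have hfix : gg N b (j + 1) μ = gg N b j μ := by
              have := re_fix N j hN (by omega) μ hμF
              rw [re, hnx] at this
              simp only [gg, hbb, if_false]
              show gg N b j (rho (vv N j) (tt N j + tt N (j + 1)) μ) = _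
              rw [this]
            refine ⟨gg N b j μ, Or.inr ?_, ?_⟩
            · simp only [mem_iUnion, Finset.mem_Ico, exists_prop]
              refine ⟨j, ⟨by omega, by omega⟩, (μ, !b j),
                ⟨hμT', rfl, offG μ (hnc true) (hnc false) _⟩, ?_⟩
              exact dev_eq N b hN h01 (μ, !b j) (g := gg N b j)
                (Or.inr ⟨j, by omega, by omega, hbj, hμT', rfl⟩) hμP (hnc _)
            · refine ⟨(μ, !b (j + 1)), ⟨hμT, rfl, offG μ (hnc true) (hnc false) _⟩, ?_⟩
              rw [← hfix]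
              exact dev_eq N b hN h01 (μ, !b (j + 1)) (g := gg N b (j + 1))
                (Or.inr ⟨j + 1, by omega, by omega, hbi, hμT, rfl⟩) hμP (hnc _)
      obtain ⟨w, hw1, hw2⟩ := hpt
      exact IsPreconnected.union w hw1 hw2 (ih (by omega)) (hTp i hi (by omega))
  have hDS : DS N b = Cn N := by
    ext w
    constructor
    · rintro ⟨⟨z, σ⟩, ⟨hz, hzG⟩, rfl⟩
      rcases cover N b hN h01 σ hz with h | ⟨i, h1, h2, h3, h4⟩
      · cases σ
        · exact Or.inl (Or.inl ⟨_, ⟨h, rfl, hzG⟩, rfl⟩)
        · exact Or.inl (Or.inr ⟨_, ⟨h, rfl, hzG⟩, rfl⟩)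
      · right
        simp only [mem_iUnion, Finset.mem_Ico, exists_prop]
        refine ⟨i, ⟨h1, h2⟩, (z, σ), ⟨h4, ?_, hzG⟩, rfl⟩
        revert h3; cases b i <;> cases σ <;> simp
    · rintro ((⟨x, ⟨h1, h2, h3⟩, rfl⟩ | ⟨x, ⟨h1, h2, h3⟩, rfl⟩) | h)
      · exact ⟨x, ⟨KK_sub N b _ h1, h3⟩, rfl⟩
      · exact ⟨x, ⟨KK_sub N b _ h1, h3⟩, rfl⟩
      · simp only [mem_iUnion, Finset.mem_Ico, exists_prop] at h
        obtain ⟨i, ⟨h1, h2⟩, x, ⟨h3, h4, h5⟩, rfl⟩ := h
        exact ⟨x, ⟨Tri_sub N b i h1 h2 h3, h5⟩, rfl⟩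
  rw [hDS]
  exact hCpre N (by omega) le_rfl

/-- same surface points have distance zero -/
lemma surfDist_same {P : Set ℂ} {x y : ℂ × Bool} (h : SamePt P x y) : surfDist P x y = 0 := by
  obtain ⟨h1, h2⟩ := h
  rw [surfDist]
  split_ifs with h3
  · rw [h1, dist_self]
  · have hf : x.1 ∈ frontier P := by
      rcases h2 with h2 | h2
      · exact absurd h2 h3
      · exact h2
    apply le_antisymm
    · refine (csInf_le (bdd_surf P _ _) ⟨x.1, hf, rfl⟩).trans ?_
      show dist x.1 x.1 + dist x.1 y.1 ≤ 0
      rw [h1]; simp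
    · apply le_csInf (Set.Nonempty.image _ ⟨x.1, hf⟩)
      rintro _ ⟨ζ, _, rfl⟩
      positivity

lemma surfDist_self' {P : Set ℂ} (x : ℂ × Bool) : surfDist P x x = 0 :=
  surfDist_same ⟨rfl, Or.inl rfl⟩

/-- uniqueness of the unfolding -/
theorem unfolding_unique (N : ℕ) (b : ℕ → Bool) (hN : 2 ≤ N) (hb0 : b 0 = true)
    (hb1 : b 1 = false) (hS : ∃ j, 1 ≤ j ∧ j < N ∧ b j = true) (U : Set ℂ)
    (hU : IsUnfolding (PP N) (Gam N b) U) : ∃ h : ℂ ≃ᵢ ℂ, h '' (WW N b N) = U := by
  classical
  have h01 : b 1 ≠ b 0 := by rw [hb0, hb1]; simp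
  obtain ⟨φ, hφ1, hφ2, rfl⟩ := hU
  -- the transition map
  set ψ : ℂ → ℂ := fun w => if h : ∃ x : ℂ × Bool, (x.1 ∈ PP N ∧ x ∉ Gam N b) ∧ dev N b x = w
    then φ h.choose else 0 with hψ
  have hψs : ∀ x : ℂ × Bool, x.1 ∈ PP N → x ∉ Gam N b → ψ (dev N b x) = φ x := by
    intro x hx hxG
    have hex : ∃ y : ℂ × Bool, (y.1 ∈ PP N ∧ y ∉ Gam N b) ∧ dev N b y = dev N b x :=
      ⟨x, ⟨hx, hxG⟩, rfl⟩
    have e : ψ (dev N b x) = φ hex.choose := by rw [hψ]; simp only; rw [dif_pos hex]
    obtain ⟨⟨hy1, hy2⟩, hy3⟩ := hex.choose_spec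
    set y := hex.choose
    have hs : SamePt (PP N) x y := by
      have h1 := dev_Dv N b hN h01 x hx
      have h2 := dev_Dv N b hN h01 y hy1
      rw [hy3] at h2
      exact Dv_inj N b hN hb0 hb1 N (by omega) le_rfl x y _ h1 h2
    obtain ⟨r, hr, hh⟩ := hφ1 x hx hxG
    have := hh x y hx hy1 (by rw [surfDist_self']; exact hr) (by rw [surfDist_same hs]; exact hr)
    rw [surfDist_same hs] at this
    rw [e]
    exact (dist_eq_zero.mp this).symm
  have hloc : ∀ w ∈ DS N b, ∃ r : ℝ, 0 < r ∧ ∀ x y, dist x w < r → dist y w < r →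
      dist (ψ x) (ψ y) = dist x y := by
    rintro _ ⟨x0, ⟨hx0, hx0G⟩, rfl⟩
    obtain ⟨r0, hr0, hh0⟩ := hφ1 x0 hx0 hx0G
    obtain ⟨r1, hr1, hh1⟩ := dev_local N b hN hb0 hb1 hS x0 hx0 hx0G
    obtain ⟨r, hr, hh⟩ := dev_open N b hN hb0 hb1 hS x0 hx0 hx0G (min r0 r1) (by positivity)
    refine ⟨r, hr, ?_⟩
    intro x y hx hy
    obtain ⟨x', hx1, hx2, hx3, rfl⟩ := hh x hx
    obtain ⟨y', hy1, hy2, hy3, rfl⟩ := hh y hy
    rw [hψs x' hx1 hx2, hψs y' hy1 hy2,
      hh0 x' y' hx1 hy1 (lt_of_lt_of_le hx3 (min_le_left _ _)) (lt_of_lt_of_le hy3 (min_le_left _ _)),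
      hh1 x' y' hx1 hy1 (lt_of_lt_of_le hx3 (min_le_right _ _))
        (lt_of_lt_of_le hy3 (min_le_right _ _))]
  have hpre := DS_preconn N b hN hb0 hb1 hS
  have hne : (DS N b).Nonempty := by
    by_contra hh
    rw [Set.not_nonempty_iff_eq_empty] at hh
    have h1 := dev_image N b hN hb0 hb1 hS
    have h2 : dev N b '' {x | x.1 ∈ PP N ∧ x ∉ Gam N b} = ∅ := hh
    rw [h2, closure_empty] at h1
    have h3 := (WW_polygon N b hN hb0 hb1).2
    rw [h1] at h3
    simp at h3
  obtain ⟨h, hh⟩ := rigid hpre hne hloc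
  refine ⟨h, ?_⟩
  rw [dev_image N b hN hb0 hb1 hS]
  have e1 : h '' closure (dev N b '' {x | x.1 ∈ PP N ∧ x ∉ Gam N b}) =
      closure (h '' (dev N b '' {x | x.1 ∈ PP N ∧ x ∉ Gam N b})) :=
    h.toHomeomorph.image_closure _
  rw [e1, ← image_comp]
  congr 1
  apply image_congr
  rintro x ⟨hx1, hx2⟩
  show h (dev N b x) = φ x
  rw [← hh _ ⟨x, ⟨hx1, hx2⟩, rfl⟩, hψs x hx1 hx2]

lemma polygon_iso {U : Set ℂ} (hU : IsConvexPolygon U) (h : ℂ ≃ᵢ ℂ) :
    IsConvexPolygon (h '' U) := by
  classical
  obtain ⟨⟨F, rfl⟩, h2⟩ := hU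
  refine ⟨⟨F.image h, ?_⟩, ?_⟩
  · rw [iso_hull, Finset.coe_image]
  · have e1 : interior (h '' (convexHull ℝ (F : Set ℂ))) = h '' interior (convexHull ℝ (F : Set ℂ)) :=
      (h.toHomeomorph.image_interior _).symm
    rw [e1]
    exact h2.image _

end Unf
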